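import Mathlib

/-!
# Definitions: large inductive dimension, the Tot construction, comet spaces
-/

namespace Pool.Agent.Helper520.PM

open Set Topology Filter

/-- `IndLT n X` says that the large inductive dimension of `X` is smaller than `n`, that is
`Ind X ≤ n - 1`. -/
def IndLT : ℕ → (X : Type) → [TopologicalSpace X] → Prop
  | 0, X, _ => IsEmpty X
  | n + 1, X, _ => ∀ A U : Set X, IsClosed A → IsOpen U → A ⊆ U →
      ∃ V : Set X, IsOpen V ∧ A ⊆ V ∧ closure V ⊆ U ∧ IndLT n (frontier V)

/-- The set underlying the space obtained from `B` by attaching real-many copies of `X`. -/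
inductive Tot {B X : Type} (h : X → B) : Type
  | base (b : B) : Tot h
  | fib (a : ℝ) (x : X) : Tot h

namespace Tot

variable {B X : Type} {h : X → B}

/-- The retraction to the base. -/
def proj : Tot h → B
  | base b => b
  | fib _ x => h x

/-- The set with base part `D` and all slices equal to `K`. -/
def sub (h : X → B) (D : Set B) (K : Set X) : Set (Tot h) :=
  {y | match y with
    | base b => b ∈ D
    | fib _ x => x ∈ K}

@[simp] theorem base_mem_sub {D : Set B} {K : Set X} {b : B} :
    (base b : Tot h) ∈ sub h D K ↔ b ∈ D := Iff.rfl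

@[simp] theorem fib_mem_sub {D : Set B} {K : Set X} {a : ℝ} {x : X} :
    (fib a x : Tot h) ∈ sub h D K ↔ x ∈ K := Iff.rfl

@[simp] theorem proj_base (b : B) : proj (base b : Tot h) = b := rfl

@[simp] theorem proj_fib (a : ℝ) (x : X) : proj (fib a x : Tot h) = h x := rfl

variable [TopologicalSpace B] [TopologicalSpace X]

/-- The topology: `U` is open iff its base part and all its slices are open, and for each base
point `b` of `U` there are an open `O ∋ b` and a countable `N` such that `h ⁻¹ O` lies in each
slice of `U` with index outside `N`. -/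
instance : TopologicalSpace (Tot h) where
  IsOpen U := IsOpen {b | base b ∈ U} ∧ (∀ a, IsOpen {x | fib a x ∈ U}) ∧
    ∀ b, base b ∈ U → ∃ O : Set B, IsOpen O ∧ b ∈ O ∧ ∃ N : Set ℝ, N.Countable ∧
      ∀ a, a ∉ N → ∀ x, h x ∈ O → fib a x ∈ U
  isOpen_univ := ⟨by simp, by simp, fun b _ => ⟨univ, isOpen_univ, mem_univ _, ∅,
    countable_empty, by simp⟩⟩
  isOpen_inter := by
    rintro U V ⟨h1, h2, h3⟩ ⟨g1, g2, g3⟩
    refine ⟨h1.inter g1, fun a => (h2 a).inter (g2 a), ?_⟩
    rintro b ⟨hb1, hb2⟩
    obtain ⟨O, hO, hbO, N, hN, hh⟩ := h3 b hb1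
    obtain ⟨O', hO', hbO', N', hN', hh'⟩ := g3 b hb2
    exact ⟨O ∩ O', hO.inter hO', ⟨hbO, hbO'⟩, N ∪ N', hN.union hN', fun a ha x hx =>
      ⟨hh a (fun h => ha (Or.inl h)) x hx.1, hh' a (fun h => ha (Or.inr h)) x hx.2⟩⟩
  isOpen_sUnion := by
    intro s hs
    refine ⟨?_, ?_, ?_⟩
    · have : {b | (base b : Tot h) ∈ ⋃₀ s} = ⋃ t ∈ s, {b | base b ∈ t} := by
        ext b; simp
      rw [this]
      exact isOpen_biUnion fun t ht => (hs t ht).1
    · intro a
      have : {x | (fib a x : Tot h) ∈ ⋃₀ s} = ⋃ t ∈ s, {x | fib a x ∈ t} := by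
        ext b; simp
      rw [this]
      exact isOpen_biUnion fun t ht => (hs t ht).2.1 a
    · rintro b ⟨t, ht, hb⟩
      obtain ⟨O, hO, hbO, N, hN, hh⟩ := (hs t ht).2.2 b hb
      exact ⟨O, hO, hbO, N, hN, fun a ha x hx => ⟨t, ht, hh a ha x hx⟩⟩

theorem isOpen_iff {U : Set (Tot h)} : IsOpen U ↔ IsOpen {b | (base b : Tot h) ∈ U} ∧
    (∀ a, IsOpen {x | (fib a x : Tot h) ∈ U}) ∧
    ∀ b, (base b : Tot h) ∈ U → ∃ O : Set B, IsOpen O ∧ b ∈ O ∧ ∃ N : Set ℝ, N.Countable ∧
      ∀ a, a ∉ N → ∀ x, h x ∈ O → (fib a x : Tot h) ∈ U := Iff.rfl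

end Tot

/-- A comet space: the points `some s` are isolated, and converge to `none` as their weight
tends to `0`. -/
def Comet {S : Type} (_w : S → Ioi (0 : ℝ)) : Type := Option S

namespace Comet

variable {S : Type} {w : S → Ioi (0 : ℝ)}

/-- The weight of a point; the distance of two different points is the maximum of the
weights. -/
def wt : Comet w → ℝ
  | none => 0
  | some s => (w s : ℝ)

theorem wt_nonneg (x : Comet w) : 0 ≤ wt x := by
  cases x with
  | none => exact le_rfl
  | some s => exact le_of_lt (w s).2

open Classical in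
noncomputable instance : MetricSpace (Comet w) where
  dist x y := if x = y then 0 else max (wt x) (wt y)
  dist_self x := by simp
  dist_comm x y := by
    by_cases h : x = y
    · simp [h]
    · simp [h, Ne.symm h, max_comm]
  dist_triangle x y z := by
    have hx := wt_nonneg x
    have hy := wt_nonneg y
    have hz := wt_nonneg z
    by_cases h1 : x = z
    · simp only [h1, if_true]
      positivity
    · by_cases h2 : x = y
      · subst h2; simp
      · by_cases h3 : y = z
        · subst h3; simp
        · simp only [h1, h2, h3, if_false]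
          apply max_le
          · linarith [le_max_left (wt x) (wt y), le_max_right (wt x) (wt y),
              le_max_left (wt y) (wt z), le_max_right (wt y) (wt z)]
          · linarith [le_max_left (wt x) (wt y), le_max_right (wt x) (wt y),
              le_max_left (wt y) (wt z), le_max_right (wt y) (wt z)]
  eq_of_dist_eq_zero := by
    intro x y hxy
    by_contra h
    simp only [h, if_false] at hxy
    have hx := wt_nonneg x
    have hy := wt_nonneg y
    have h1 : wt x = 0 := le_antisymm (by rw [← hxy]; exact le_max_left _ _) hx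
    have h2 : wt y = 0 := le_antisymm (by rw [← hxy]; exact le_max_right _ _) hy
    cases x with
    | none =>
      cases y with
      | none => exact h rfl
      | some t => exact (ne_of_gt (w t).2) h2
    | some s => exact (ne_of_gt (w s).2) h1

end Comet

/-- The comet at a point `p` of a metric space `T` with tail `R \ {p}`. -/
abbrev Cm {T : Type} [MetricSpace T] (p : T) (R : Set T) : Type :=
  Comet (fun x : {x : T // x ∈ R ∧ x ≠ p} => (⟨dist x.1 p, dist_pos.2 x.2.2⟩ : Ioi (0 : ℝ)))

namespace Cm

variable {T : Type} [MetricSpace T] {p : T} {R R' : Set T}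

/-- The centre of the comet. -/
def ctr : Cm p R := (none : Option _)

/-- A point of the tail. -/
def pt (x : T) (h : x ∈ R ∧ x ≠ p) : Cm p R := (some ⟨x, h⟩ : Option _)

/-- The natural map of the comet to `T`. -/
def toT : Cm p R → T
  | none => p
  | some x => x.1

/-- The inclusion of comets for `R ⊆ R'`. -/
def incl (h : R ⊆ R') : Cm p R → Cm p R'
  | none => none
  | some x => some ⟨x.1, h x.2.1, x.2.2⟩

end Cm

/-- The unit interval. -/
abbrev I : Type := unitInterval

/-- The point `x` of `I` is rational. -/
def RatI (x : I) : Prop := ∃ q : ℚ, (x : ℝ) = q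

/-- The two disjoint dense subsets of `I`: the irrationals (`i = true`), the rationals
(`i = false`). -/
def G (i : Bool) : Set I := {j | RatI j ↔ i = false}

/-- The class `r` of rational points of `I` at the point `j`, for the type `i`: at points of `G i`
the classes are the two sides, at the other points everything is in the class `false`. -/
def RJ (i : Bool) (j : I) (r : Bool) : Set I :=
  {x | RatI x ∧ x ≠ j ∧ ((j ∈ G i ∧ j < x) ↔ r = true)}

/-- The spaces attached over `I`. -/
abbrev XG {S : Type} (τ : S → Bool) : Type :=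
  Σ a : S × I × Bool, Cm a.2.1 (RJ (τ a.1) a.2.1 a.2.2) × I

/-- The attaching map. -/
def hG {S : Type} (τ : S → Bool) (z : XG τ) : I := Cm.toT z.2.1

/-- Sector data on a metric space `T`: for every point `p` two labellings of `T`, and for each
point `p` a set `R p`. -/
structure Dat (T Q : Type) where
  /-- the label of `x` at `p`, for each of the two types -/
  cls : Bool → T → T → Q
  /-- the set of the isolated points of the comet at `p` -/
  R : T → Set T

namespace Dat

variable {T Q : Type} [MetricSpace T] (D : Dat T Q)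

/-- The class `q` of type `i` at `p`. -/
def RC (i : Bool) (q : Q) (p : T) : Set T := {x | x ∈ D.R p ∧ D.cls i p x = q}

omit [MetricSpace T] in
theorem RC_subset (i : Bool) (q : Q) (p : T) : D.RC i q p ⊆ D.R p := fun _ h => h.1

/-- The spaces attached over `I × Cm p (R p)`. -/
abbrev XE (p : T) : Type :=
  Σ a : (Bool × Q) × I × Bool,
    Cm a.2.1 (RJ a.1.1 a.2.1 a.2.2) × Cm p (D.RC a.1.1 a.1.2 p) × I

/-- The attaching map. -/
def hE (p : T) (z : D.XE p) : I × Cm p (D.R p) :=
  (Cm.toT z.2.1, Cm.incl (D.RC_subset _ _ _) z.2.2.1)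

/-- The space attached at the point `p`. -/
abbrev E (p : T) : Type := Tot (D.hE p)

/-- The comet coordinate. -/
def sec (p : T) (e : D.E p) : Cm p (D.R p) := (Tot.proj e).2

/-- The attaching map. -/
def hY (z : Σ p, D.E p) : T := Cm.toT (D.sec z.1 z.2)

/-- The normal space of the counterexample. -/
abbrev Y : Type := Tot D.hY

end Dat

end Pool.Agent.Helper520.PM
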