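import Pool.Agent.Helper520.PM.PartP
import Pool.Agent.Helper520.PM.Sq

namespace Pool.Agent.Helper520.PM

open Set Topology Filter

theorem exists_gap {s : Set ℝ} (hs : s.Finite) :
    ∃ a b : ℝ, 0 < a ∧ a < b ∧ b < 1 ∧ ∀ x ∈ s, ¬ (a < x ∧ x < b) := by
  have hinf : (Ioo (0 : ℝ) 1).Infinite := Ioo_infinite one_pos
  obtain ⟨x, hx, hxs⟩ := (hinf.sdiff hs).nonempty
  have ho : IsOpen (Ioo (0 : ℝ) 1 \ s) := isOpen_Ioo.sdiff hs.isClosed
  obtain ⟨ε, hε, hb⟩ := Metric.isOpen_iff.1 ho x ⟨hx, hxs⟩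
  rw [Real.ball_eq_Ioo] at hb
  have h1 : x - ε / 2 ∈ Ioo (x - ε) (x + ε) := ⟨by linarith, by linarith⟩
  have h2 : x + ε / 2 ∈ Ioo (x - ε) (x + ε) := ⟨by linarith, by linarith⟩
  refine ⟨x - ε / 2, x + ε / 2, (hb h1).1.1, by linarith, (hb h2).1.2, ?_⟩
  rintro y hy ⟨h3, h4⟩
  exact (hb (show y ∈ Ioo (x - ε) (x + ε) from ⟨by linarith, by linarith⟩)).2 hy

/-- The limit point of the metric factor. -/
def MM.om : MM := (none : Option _)

/-- The isolated points of the metric factor. -/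
def MM.sm (n : ℕ) (f : ℕ → ℕ) : MM := (some (n, f) : Option _)

theorem MM.cases' (m : MM) : m = MM.om ∨ ∃ n f, m = MM.sm n f := by
  rcases m with _ | ⟨n, f⟩
  · exact Or.inl rfl
  · exact Or.inr ⟨n, f, rfl⟩

theorem MM.sm_inj {n n' : ℕ} {f f' : ℕ → ℕ} (h : MM.sm n f = MM.sm n' f') : n = n' ∧ f = f' := by
  have h1 : (some (n, f) : Option (ℕ × (ℕ → ℕ))) = some (n', f') := h
  exact Prod.mk.inj (Option.some_injective _ h1)

open Classical in
theorem Comet.dist_eq {S : Type} {w : S → Ioi (0 : ℝ)} (x y : Comet w) (h : x ≠ y) :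
    dist x y = max (Comet.wt x) (Comet.wt y) := by
  show (if x = y then (0 : ℝ) else max (Comet.wt x) (Comet.wt y)) = _
  rw [if_neg h]

theorem MM.wt_sm (n : ℕ) (f : ℕ → ℕ) : Comet.wt (MM.sm n f) = 1 / ((n : ℝ) + 1) := rfl

theorem MM.dist_sm_om (n : ℕ) (f : ℕ → ℕ) : dist (MM.sm n f) MM.om = 1 / ((n : ℝ) + 1) := by
  have hne : MM.sm n f ≠ MM.om := by
    intro h
    have h1 : (some (n, f) : Option (ℕ × (ℕ → ℕ))) = none := h
    exact Option.some_ne_none _ h1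
  rw [Comet.dist_eq _ _ hne, MM.wt_sm]
  have h2 : Comet.wt MM.om = 0 := rfl
  rw [h2]
  exact max_eq_left (by positivity)

theorem MM.isOpen_sm (n : ℕ) (f : ℕ → ℕ) : IsOpen ({MM.sm n f} : Set MM) := by
  rw [Metric.isOpen_iff]
  rintro x rfl
  refine ⟨1 / ((n : ℝ) + 1), by positivity, ?_⟩
  intro y hy
  by_contra hne
  have hne' : y ≠ MM.sm n f := hne
  rw [Metric.mem_ball, Comet.dist_eq _ _ hne', MM.wt_sm] at hy
  exact absurd hy (not_lt.2 (le_max_right _ _))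

theorem isClosed_levels (C : ℕ → (ℕ → ℕ) → Set ℝ) (hC : ∀ n f, IsClosed (C n f)) :
    IsClosed {y : MM × (ℝ × ℝ) | ∃ (n : ℕ) (f : ℕ → ℕ), y.1 = MM.sm n f ∧
      y.2.2 = n ∧ y.2.1 ∈ C n f} := by
  rw [← isOpen_compl_iff, isOpen_iff_mem_nhds]
  rintro ⟨m, x⟩ hy
  rcases MM.cases' m with rfl | ⟨n, f, rfl⟩
  · obtain ⟨N, hN⟩ := exists_nat_gt (x.2 + 1)
    have h1 : Metric.ball MM.om (1 / ((N : ℝ) + 1)) ∈ 𝓝 MM.om :=
      Metric.ball_mem_nhds _ (by positivity)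
    have h2 : {z : ℝ × ℝ | z.2 < x.2 + 1} ∈ 𝓝 x :=
      (isOpen_lt continuous_snd continuous_const).mem_nhds (by simp)
    refine mem_of_superset (prod_mem_nhds h1 h2) ?_
    rintro ⟨m', z⟩ ⟨hm, hz⟩ ⟨n, f, h3, h4, -⟩
    simp only at h3 h4 hm hz
    subst h3
    rw [Metric.mem_ball, MM.dist_sm_om] at hm
    have h5 : (N : ℝ) + 1 < n + 1 := by
      rwa [one_div_lt_one_div (by positivity) (by positivity)] at hm
    have h6 : z.2 < x.2 + 1 := hz
    linarith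
  · have h1 : ({MM.sm n f} : Set MM) ∈ 𝓝 (MM.sm n f) :=
      (MM.isOpen_sm n f).mem_nhds rfl
    have h2 : {z : ℝ × ℝ | z.2 = n ∧ z.1 ∈ C n f}ᶜ ∈ 𝓝 x := by
      apply IsOpen.mem_nhds
      · rw [isOpen_compl_iff]
        exact (isClosed_eq continuous_snd continuous_const).inter ((hC n f).preimage continuous_fst)
      · intro h
        exact hy ⟨n, f, rfl, h.1, h.2⟩
    refine mem_of_superset (prod_mem_nhds h1 h2) ?_
    rintro ⟨m', z⟩ ⟨hm, hz⟩ ⟨n', f', h3, h4, h5⟩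
    simp only at h3 h4 h5 hm hz
    rw [mem_singleton_iff] at hm
    rw [hm] at h3
    obtain ⟨rfl, rfl⟩ := MM.sm_inj h3
    exact hz ⟨h4, h5⟩

namespace Col

variable (c : Col)

theorem isOpen_sector (i : Bool) (q : Prop × Prop) (p : ℝ × ℝ) : IsOpen (c.sector i q p) := by
  rw [isOpen_iff_mem_nhds]
  rintro x ⟨h1, h2, h3⟩
  have hlt : ∀ (u v : ℝ), u ≠ v → ∀ᶠ z in 𝓝 u, z ≠ v ∧ (v < z ↔ v < u) := by
    intro u v huv
    rcases lt_or_gt_of_ne huv with h | h
    · filter_upwards [Iio_mem_nhds h] with z hz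
      have hz' : z < v := hz
      exact ⟨hz'.ne, iff_of_false (not_lt.2 hz'.le) (not_lt.2 h.le)⟩
    · filter_upwards [Ioi_mem_nhds h] with z hz
      have hz' : v < z := hz
      exact ⟨hz'.ne', iff_of_true hz' h⟩
  have e1 := (continuous_fst.tendsto x).eventually (hlt x.1 p.1 h1)
  have e2 := (continuous_snd.tendsto x).eventually (hlt x.2 p.2 h2)
  filter_upwards [e1, e2] with z hz1 hz2
  refine ⟨hz1.1, hz2.1, ?_⟩
  rw [← h3]
  show ((c.mu1 i p ∧ p.1 < z.1, c.mu2 i p ∧ p.2 < z.2) : Prop × Prop) =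
    (c.mu1 i p ∧ p.1 < x.1, c.mu2 i p ∧ p.2 < x.2)
  rw [propext hz1.2, propext hz2.2]

end Col

theorem not_indLT_prod (c : Col) : ¬ IndLT 3 (MM × c.dat.Y) := by
  intro hind
  have : T2Space c.dat.Y := c.dat.t2Space_Y
  have hgap : ∀ (n : ℕ) (f : ℕ → ℕ), ∃ a b : ℝ, 0 < a ∧ a < b ∧ b < 1 ∧
      ∀ x ∈ {x | ∃ j : ℕ, j ≤ f n ∧ x = c.d f j}, ¬ (a < x ∧ x < b) := by
    intro n f
    apply exists_gap
    apply ((Set.finite_Iic (f n)).image (c.d f)).subset
    rintro x ⟨j, hj, rfl⟩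
    exact ⟨j, hj, rfl⟩
  choose a b ha0 hab hb1 hab' using hgap
  let ι : MM × (ℝ × ℝ) → MM × c.dat.Y := fun y => (y.1, (Tot.base y.2 : c.dat.Y))
  have hbase : IsClosedEmbedding (Tot.base : (ℝ × ℝ) → c.dat.Y) := Tot.isClosedEmbedding_base
  have hιc : Continuous ι :=
    continuous_fst.prodMk (hbase.continuous.comp continuous_snd)
  have hιe : IsClosedEmbedding ι := IsClosedEmbedding.id.prodMap hbase
  let A0 : Set (MM × (ℝ × ℝ)) := {y | y.2.1 ≤ 0} ∪ {y | ∃ (n : ℕ) (f : ℕ → ℕ),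
    y.1 = MM.sm n f ∧ y.2.2 = n ∧ y.2.1 ∈ Iic (a n f)}
  let B0 : Set (MM × (ℝ × ℝ)) := {y | 1 ≤ y.2.1} ∪ {y | ∃ (n : ℕ) (f : ℕ → ℕ),
    y.1 = MM.sm n f ∧ y.2.2 = n ∧ y.2.1 ∈ Ici (b n f)}
  have hA0 : IsClosed A0 := by
    apply IsClosed.union
    · exact isClosed_le (by fun_prop) continuous_const
    · exact isClosed_levels _ fun n f => isClosed_Iic
  have hB0 : IsClosed B0 := by
    apply IsClosed.union
    · exact isClosed_le continuous_const (by fun_prop)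
    · exact isClosed_levels _ fun n f => isClosed_Ici
  have hAB : Disjoint A0 B0 := by
    rw [Set.disjoint_left]
    rintro y (h1 | ⟨n, f, h1, h2, h3⟩) (h4 | ⟨n', f', h4, h5, h6⟩)
    · have h1' : y.2.1 ≤ 0 := h1
      have h4' : 1 ≤ y.2.1 := h4
      linarith
    · have h1' : y.2.1 ≤ 0 := h1
      have h6' : b n' f' ≤ y.2.1 := h6
      have := ha0 n' f'
      have := hab n' f'
      linarith
    · have h4' : 1 ≤ y.2.1 := h4
      have h3' : y.2.1 ≤ a n f := h3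
      have := hb1 n f
      have := hab n f
      linarith
    · rw [h1] at h4
      obtain ⟨rfl, rfl⟩ := MM.sm_inj h4
      have h3' : y.2.1 ≤ a n f := h3
      have h6' : b n f ≤ y.2.1 := h6
      have := hab n f
      linarith
  obtain ⟨𝒜, h𝒜, hA𝒜, h𝒜B, hfr⟩ := IndLT.sep (n := 2) hind (hιe.isClosedMap _ hA0)
    (hιe.isClosedMap _ hB0) ((Set.disjoint_image_iff hιe.injective).2 hAB)
  rw [Set.disjoint_left] at h𝒜B
  have hclo : IsOpen (closure 𝒜)ᶜ := isClosed_closure.isOpen_compl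
  have hP : c.Planar (ι ⁻¹' 𝒜) (ι ⁻¹' (closure 𝒜)ᶜ) := by
    refine ⟨h𝒜.preimage hιc, hclo.preimage hιc, ?_, ?_, ?_, ?_, ?_⟩
    · rw [Set.disjoint_left]
      intro y h1 h2
      exact h2 (subset_closure h1)
    · intro m W hW hWn
      by_contra hcon
      push Not at hcon
      obtain ⟨x, hx⟩ := hWn
      obtain ⟨ε, hε, hball⟩ := Metric.isOpen_iff.1 hW x hx
      let g : I × I → ℝ × ℝ := fun z => (x.1 + ε / 2 * (z.1 : ℝ), x.2 + ε / 2 * (z.2 : ℝ))
      have hg : ∀ z, g z ∈ W := by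
        intro z
        apply hball
        rw [Metric.mem_ball, Prod.dist_eq, Real.dist_eq, Real.dist_eq]
        have h1 := z.1.2.1
        have h2 := z.1.2.2
        have h3 := z.2.2.1
        have h4 := z.2.2.2
        apply max_lt
        · show |x.1 + ε / 2 * (z.1 : ℝ) - x.1| < ε
          rw [add_sub_cancel_left, abs_of_nonneg (by positivity)]
          nlinarith
        · show |x.2 + ε / 2 * (z.2 : ℝ) - x.2| < ε
          rw [add_sub_cancel_left, abs_of_nonneg (by positivity)]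
          nlinarith
      have hgc : Continuous g := by fun_prop
      have hginj : Function.Injective g := by
        intro z w hzw
        obtain ⟨h1, h2⟩ := Prod.mk.inj hzw
        have hε' : ε / 2 ≠ 0 := by positivity
        apply Prod.ext
        · exact Subtype.ext (mul_left_cancel₀ hε' (add_left_cancel h1))
        · exact Subtype.ext (mul_left_cancel₀ hε' (add_left_cancel h2))
      have hmem : ∀ z, ι (m, g z) ∈ frontier 𝒜 := by
        intro z
        obtain ⟨h1, h2⟩ := hcon (g z) (hg z)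
        rw [h𝒜.frontier_eq]
        exact ⟨not_not.1 h2, h1⟩
      let e : I × I → frontier 𝒜 := fun z => ⟨ι (m, g z), hmem z⟩
      have hec : Continuous e := by
        apply Continuous.subtype_mk
        exact hιc.comp (continuous_const.prodMk hgc)
      have heinj : Function.Injective e := by
        intro z w hzw
        have h1 : ι (m, g z) = ι (m, g w) := congrArg Subtype.val hzw
        exact hginj (Prod.mk.inj (hιe.injective h1)).2
      exact not_indLT_two_I_prod_I (IndLT.of_isClosedEmbedding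
        (hec.isClosedEmbedding heinj) hfr)
    · intro m x hx
      exact hA𝒜 ⟨(m, x), Or.inl hx, rfl⟩
    · intro m x hx h
      exact h𝒜B h ⟨(m, x), Or.inl hx, rfl⟩
    · intro m p
      obtain ⟨i, hi⟩ := c.dat.exists_type MM 𝒜 h𝒜 hfr (fun p => c.not_mem_R p) m p
      refine ⟨i, fun q => ?_⟩
      obtain ⟨W, hW, hWn⟩ := hi q
      refine ⟨interior W, interior_mem_nhds.2 hW, ?_⟩
      have key : ∀ Z : Set (MM × (ℝ × ℝ)), IsOpen Z →
          (∃ y ∈ interior W, y.2 ∈ c.sector i q p ∧ y ∈ Z) →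
          ∃ y ∈ W, y.2 ∈ c.dat.RC i q p ∧ y ∈ Z := by
        rintro Z hZ ⟨y, hy1, hy2, hy3⟩
        have hopen : IsOpen {x : ℝ × ℝ | x ∈ c.sector i q p ∧ (y.1, x) ∈ interior W ∩ Z} := by
          apply IsOpen.inter (c.isOpen_sector i q p)
          exact (isOpen_interior.inter hZ).preimage (continuous_const.prodMk continuous_id)
        obtain ⟨x, ⟨hx1, hx2⟩, hx3⟩ := (c.dense_R p).inter_open_nonempty _ hopen
          ⟨y.2, hy2, hy1, hy3⟩
        exact ⟨(y.1, x), interior_subset hx2.1, ⟨hx3, hx1.2.2⟩, hx2.2⟩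
      rintro ⟨h1, h2⟩
      exact hWn ⟨key _ (h𝒜.preimage hιc) h1, key _ (hclo.preimage hιc) h2⟩
  obtain ⟨Od, hOd1, hOd2, hOd3⟩ := hP.main
  obtain ⟨f, hf⟩ := hOd2 MM.om
  obtain ⟨ε, hε, hball⟩ := Metric.eventually_nhds_iff.1 (hOd1 MM.om)
  obtain ⟨n, hn⟩ := exists_nat_one_div_lt hε
  have h1 : Od (MM.sm n f) = Od MM.om := by
    apply hball
    rw [MM.dist_sm_om]
    exact hn
  obtain ⟨k, hk1, hk2, hk3, hk4⟩ := hOd3 (MM.sm n f) f n (by rw [h1]; exact hf)
  have hka : a n f < k := by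
    by_contra hle
    exact hk3 (hA𝒜 ⟨(MM.sm n f, (k, (n : ℝ))), Or.inr ⟨n, f, rfl, rfl, not_lt.1 hle⟩, rfl⟩)
  have hkb : k < b n f := by
    by_contra hle
    exact hk4 fun h => h𝒜B h ⟨(MM.sm n f, (k, (n : ℝ))), Or.inr ⟨n, f, rfl, rfl, not_lt.1 hle⟩, rfl⟩
  rcases hk2 with h | h | ⟨f', j, hj, hkj⟩
  · have := ha0 n f; linarith
  · have := hb1 n f; linarith
  · have h2 : f' = f := by
      rw [← hk1, hkj, c.col_d]
    subst h2
    exact hab' n f' k ⟨j, hj, hkj⟩ ⟨hka, hkb⟩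

end Pool.Agent.Helper520.PM
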