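import Pool.Agent.Helper520.PM.Defs

namespace Pool.Agent.Helper520.PM

open Set Topology Filter


/-! ### Part A -/
section A

theorem IndLT.of_isClosedEmbedding {n : ℕ} {X Y : Type} [TopologicalSpace X] [TopologicalSpace Y]
    {e : X → Y} (he : IsClosedEmbedding e) (hY : IndLT n Y) : IndLT n X := by
  induction n generalizing X Y with
  | zero =>
    have hY' : IsEmpty Y := hY
    exact (Function.isEmpty e : IsEmpty X)
  | succ n ih =>
    intro A U hA hU hAU
    obtain ⟨V, hV, hAV, hVU, hI⟩ := hY (e '' A) ((e '' Uᶜ)ᶜ) (he.isClosedMap A hA)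
      (he.isClosedMap Uᶜ hU.isClosed_compl).isOpen_compl (by
        rintro _ ⟨a, ha, rfl⟩ ⟨b, hb, hab⟩
        exact hb (he.injective hab ▸ hAU ha))
    have hcont := he.continuous
    refine ⟨e ⁻¹' V, hV.preimage hcont, fun a ha => hAV ⟨a, ha, rfl⟩, ?_, ?_⟩
    · intro x hx
      by_contra hxU
      exact hVU (hcont.closure_preimage_subset V hx) ⟨x, hxU, rfl⟩
    · have hfr : ∀ x : frontier (e ⁻¹' V), e x.1 ∈ frontier V := fun x =>
        hcont.frontier_preimage_subset V x.2
      refine ih (e := fun x : frontier (e ⁻¹' V) => (⟨e x.1, hfr x⟩ : frontier V)) ?_ hI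
      have h1 : IsClosedEmbedding (Subtype.val : frontier V → Y) :=
        isClosed_frontier.isClosedEmbedding_subtypeVal
      rw [← h1.of_comp_iff]
      exact he.comp isClosed_frontier.isClosedEmbedding_subtypeVal

theorem IndLT.of_isEmpty (n : ℕ) (X : Type) [TopologicalSpace X] [IsEmpty X] : IndLT n X := by
  induction n generalizing X with
  | zero => exact (inferInstance : IsEmpty X)
  | succ n ih =>
    intro A U _ _ _
    refine ⟨∅, isOpen_empty, fun x _ => isEmptyElim x, by simp, ?_⟩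
    have : IsEmpty (frontier (∅ : Set X)) := ⟨fun x => isEmptyElim x.1⟩
    exact ih _

theorem IndLT.mono {n m : ℕ} (h : n ≤ m) {X : Type} [TopologicalSpace X] (hX : IndLT n X) :
    IndLT m X := by
  induction n generalizing m X with
  | zero =>
    have : IsEmpty X := hX
    exact IndLT.of_isEmpty m X
  | succ n ih =>
    obtain ⟨k, rfl⟩ : ∃ k, m = k + 1 := ⟨m - 1, by omega⟩
    intro A U hA hU hAU
    obtain ⟨V, hV, hAV, hVU, hI⟩ := hX A U hA hU hAU
    exact ⟨V, hV, hAV, hVU, ih (by omega) hI⟩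

theorem IndLT.of_subset_range {n : ℕ} {X Y : Type} [TopologicalSpace X] [TopologicalSpace Y]
    {e : X → Y} (he : IsEmbedding e) {S : Set Y} (hS : IsClosed S) (hsub : S ⊆ range e)
    (hX : IndLT n X) : IndLT n S := by
  have hc : ∀ y : S, ∃ x, e x = y := fun y => hsub y.2
  choose g hg using hc
  have h1 : IsEmbedding g := by
    rw [← he.of_comp_iff]
    have h2 : e ∘ g = Subtype.val := funext hg
    rw [h2]
    exact IsEmbedding.subtypeVal
  refine IndLT.of_isClosedEmbedding ⟨h1, ?_⟩ hX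
  have h3 : range g = e ⁻¹' S := by
    ext x
    constructor
    · rintro ⟨y, rfl⟩
      change e (g y) ∈ S
      rw [hg]; exact y.2
    · intro hx
      exact ⟨⟨e x, hx⟩, he.injective (hg _)⟩
  rw [h3]
  exact hS.preimage he.continuous

theorem IndLT.of_subset {n : ℕ} {Y : Type} [TopologicalSpace Y]
    {S S' : Set Y} (hS : IsClosed S) (hsub : S ⊆ S') (h : IndLT n S') : IndLT n S := by
  exact IndLT.of_subset_range (e := (Subtype.val : S' → Y)) IsEmbedding.subtypeVal hS
    (by simpa using hsub) h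

theorem IndLT.of_fibers {n : ℕ} {X ι : Type} [TopologicalSpace X] (κ : X → ι)
    (hκ : ∀ i, IsOpen (κ ⁻¹' {i})) (H : ∀ i, IndLT n (κ ⁻¹' {i})) : IndLT n X := by
  induction n generalizing X with
  | zero =>
    show IsEmpty X
    refine ⟨fun x => ?_⟩
    have h : IsEmpty (κ ⁻¹' {κ x}) := H (κ x)
    exact h.false ⟨x, rfl⟩
  | succ n ih =>
    intro A U hA hU hAU
    have hi : ∀ i, ∃ V : Set (κ ⁻¹' {i}), IsOpen V ∧ (Subtype.val ⁻¹' A) ⊆ V ∧
        closure V ⊆ (Subtype.val ⁻¹' U) ∧ IndLT n (frontier V) := fun i =>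
      H i (Subtype.val ⁻¹' A) (Subtype.val ⁻¹' U) (hA.preimage continuous_subtype_val)
        (hU.preimage continuous_subtype_val) (preimage_mono hAU)
    choose V hVo hAV hVU hVfr using hi
    have hom : ∀ i, IsOpenMap (Subtype.val : κ ⁻¹' {i} → X) := fun i => (hκ i).isOpenMap_subtype_val
    let W : Set X := ⋃ i, Subtype.val '' (V i)
    have hpre : ∀ i, (Subtype.val : κ ⁻¹' {i} → X) ⁻¹' W = V i := by
      intro i
      ext ⟨x, hx⟩
      constructor
      · intro h
        obtain ⟨j, ⟨y, hy⟩, hyV, hyx⟩ := mem_iUnion.1 h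
        simp only at hyx
        subst hyx
        have hij : i = j := by
          have h1 : κ y = i := hx
          have h2 : κ y = j := hy
          rw [← h1, ← h2]
        subst hij
        exact hyV
      · intro h
        exact mem_iUnion.2 ⟨i, ⟨x, hx⟩, h, rfl⟩
    refine ⟨W, isOpen_iUnion fun i => hom i _ (hVo i), ?_, ?_, ?_⟩
    · intro x hx
      exact mem_iUnion.2 ⟨κ x, ⟨x, rfl⟩, hAV (κ x) hx, rfl⟩
    · intro x hx
      have h1 : (⟨x, rfl⟩ : κ ⁻¹' {κ x}) ∈ Subtype.val ⁻¹' (closure W) := hx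
      rw [(hom (κ x)).preimage_closure_eq_closure_preimage continuous_subtype_val, hpre] at h1
      exact hVU (κ x) h1
    · have hfr : ∀ i, (Subtype.val : κ ⁻¹' {i} → X) ⁻¹' (frontier W) = frontier (V i) := by
        intro i
        rw [(hom i).preimage_frontier_eq_frontier_preimage continuous_subtype_val, hpre]
      refine ih (X := frontier W) (fun x => κ x.1) ?_ ?_
      · intro i
        exact (hκ i).preimage continuous_subtype_val
      · intro i
        let e : ((fun x : frontier W => κ x.1) ⁻¹' {i}) → frontier (V i) := fun x =>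
          ⟨⟨x.1.1, x.2⟩, by rw [← hfr i]; exact x.1.2⟩
        have hec : Continuous e := by
          apply Continuous.subtype_mk
          apply Continuous.subtype_mk
          exact continuous_subtype_val.comp continuous_subtype_val
        have hemb : IsEmbedding e := by
          refine IsEmbedding.of_comp hec
            (continuous_subtype_val.comp continuous_subtype_val : Continuous
              (fun y : frontier (V i) => (y.1.1 : X))) ?_
          have h3 : IsEmbedding (fun x : ((fun x : frontier W => κ x.1) ⁻¹' {i}) => (x.1.1 : X)) :=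
            IsEmbedding.comp IsEmbedding.subtypeVal IsEmbedding.subtypeVal
          exact h3
        have hsurj : Function.Surjective e := by
          rintro ⟨⟨y, hy⟩, hyf⟩
          have h1 : y ∈ frontier W := by
            have h2 := hyf
            rw [← hfr i] at h2
            exact h2
          exact ⟨⟨⟨y, h1⟩, hy⟩, rfl⟩
        have hce : IsClosedEmbedding e := ⟨hemb, by rw [hsurj.range_eq]; exact isClosed_univ⟩
        exact IndLT.of_isClosedEmbedding hce (hVfr i)

theorem IndLT.sep {n : ℕ} {X : Type} [TopologicalSpace X] (h : IndLT (n + 1) X) {A A' : Set X}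
    (hA : IsClosed A) (hA' : IsClosed A') (hd : Disjoint A A') :
    ∃ U : Set X, IsOpen U ∧ A ⊆ U ∧ Disjoint (closure U) A' ∧ IndLT n (frontier U) := by
  obtain ⟨V, hV, hAV, hVU, hI⟩ := h A A'ᶜ hA hA'.isOpen_compl (disjoint_left.1 hd)
  exact ⟨V, hV, hAV, disjoint_left.2 hVU, hI⟩

theorem IndLT.succ_of_sep {n : ℕ} {X : Type} [TopologicalSpace X]
    (h : ∀ A A' : Set X, IsClosed A → IsClosed A' → Disjoint A A' →
    ∃ U : Set X, IsOpen U ∧ A ⊆ U ∧ Disjoint (closure U) A' ∧ IndLT n (frontier U)) :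
    IndLT (n + 1) X := by
  intro A U hA hU hAU
  obtain ⟨V, hV, hAV, hVU, hI⟩ := h A Uᶜ hA hU.isClosed_compl
    (disjoint_left.2 (fun x hx hx' => hx' (hAU hx)))
  refine ⟨V, hV, hAV, fun x hx => ?_, hI⟩
  by_contra hxU
  exact disjoint_left.1 hVU hx hxU

theorem IndLT.of_countable (X : Type) [TopologicalSpace X]
    [TopologicalSpace.MetrizableSpace X] [Countable X] :
    IndLT 1 X := by
  let _ := TopologicalSpace.metrizableSpaceMetric X
  refine IndLT.succ_of_sep ?_
  intro A A' hA hA' hd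
  obtain ⟨f, hf0, hf1, _⟩ := exists_continuous_zero_one_of_isClosed hA hA' hd
  obtain ⟨r, hr, hr1, hr2⟩ := ((Set.countable_range f).dense_compl ℝ).exists_between
    (zero_lt_one : (0:ℝ) < 1)
  have hU : {x | f x < r} = {x | f x ≤ r} := by
    ext x
    simp only [Set.mem_ofPred_eq]
    constructor
    · intro h
      exact h.le
    · intro h
      rcases h.lt_or_eq with h | h
      · exact h
      · exact absurd ⟨x, h⟩ hr
  have ho : IsOpen {x | f x < r} := isOpen_lt f.continuous continuous_const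
  have hc : IsClosed {x | f x < r} := by
    rw [hU]
    exact isClosed_le f.continuous continuous_const
  refine ⟨{x | f x < r}, ho, ?_, ?_, ?_⟩
  · intro x hx
    have : f x = 0 := hf0 hx
    simp only [Set.mem_ofPred_eq, this]
    exact hr1
  · rw [hc.closure_eq, Set.disjoint_left]
    intro x hx hx'
    have : f x = 1 := hf1 hx'
    simp only [Set.mem_ofPred_eq, this] at hx
    linarith
  · have hfr : frontier {x | f x < r} = ∅ := isClopen_iff_frontier_eq_empty.1 ⟨hc, ho⟩
    change IsEmpty (frontier {x | f x < r})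
    rw [hfr]
    exact Set.isEmpty_coe_sort.2 rfl

theorem sphere_countable834 (x : I) (r : ℝ) : (Metric.sphere x r).Countable := by
  have h : Metric.sphere x r ⊆ (fun y : I => (y : ℝ)) ⁻¹' {(x : ℝ) + r, (x : ℝ) - r} := by
    intro y hy
    rw [Metric.mem_sphere, Subtype.dist_eq, Real.dist_eq] at hy
    show (y : ℝ) = (x : ℝ) + r ∨ (y : ℝ) = (x : ℝ) - r
    rcases le_total 0 ((y : ℝ) - x) with h | h
    · rw [abs_of_nonneg h] at hy
      left; linarith
    · rw [abs_of_nonpos h] at hy
      right; linarith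
  refine Set.Countable.mono h ?_
  refine Set.Countable.preimage_of_injOn ?_ (Subtype.val_injective.injOn)
  exact ((Set.finite_singleton _).insert _).countable

theorem exists_open834 (K K' : Set I) (hK : IsClosed K) (hK' : IsClosed K') (hd : Disjoint K K') :
    ∃ G : Set I, IsOpen G ∧ K ⊆ G ∧ Disjoint (closure G) K' ∧ (frontier G).Countable := by
  have hr : ∀ x : I, x ∈ K → ∃ r : ℝ, 0 < r ∧ Disjoint (Metric.closedBall x r) K' := by
    intro x hx
    have hx' : x ∈ K'ᶜ := fun h => Set.disjoint_left.1 hd hx h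
    obtain ⟨r, hr, hsub⟩ := Metric.nhds_basis_closedBall.mem_iff.1 (hK'.isOpen_compl.mem_nhds hx')
    exact ⟨r, hr, Set.disjoint_left.2 fun y hy hy' => hsub hy hy'⟩
  choose! r hr0 hr1 using hr
  obtain ⟨t, ht, hcov⟩ := hK.isCompact.elim_nhds_subcover (fun x => Metric.ball x (r x))
    (fun x hx => Metric.ball_mem_nhds x (hr0 x hx))
  have hcl : closure (⋃ x ∈ t, Metric.ball x (r x)) ⊆ ⋃ x ∈ t, Metric.closedBall x (r x) := by
    apply closure_minimal
    · exact Set.iUnion₂_mono fun x _ => Metric.ball_subset_closedBall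
    · exact t.finite_toSet.isClosed_biUnion fun x _ => Metric.isClosed_closedBall
  have hop : IsOpen (⋃ x ∈ t, Metric.ball x (r x)) := isOpen_biUnion fun x _ => Metric.isOpen_ball
  refine ⟨⋃ x ∈ t, Metric.ball x (r x), hop, hcov, ?_, ?_⟩
  · rw [Set.disjoint_left]
    intro y hy hy'
    have h1 := hcl hy
    simp only [Set.mem_iUnion] at h1
    obtain ⟨x, hx, hyx⟩ := h1
    exact Set.disjoint_left.1 (hr1 x (ht x hx)) hyx hy'
  · rw [hop.frontier_eq]
    have hsub : closure (⋃ x ∈ t, Metric.ball x (r x)) \ (⋃ x ∈ t, Metric.ball x (r x)) ⊆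
        ⋃ x ∈ t, Metric.sphere x (r x) := by
      rintro y ⟨hy1, hy2⟩
      have h1 := hcl hy1
      simp only [Set.mem_iUnion] at h1 hy2 ⊢
      obtain ⟨x, hx, hyx⟩ := h1
      refine ⟨x, hx, ?_⟩
      rw [Metric.mem_sphere]
      rw [Metric.mem_closedBall] at hyx
      refine le_antisymm hyx ?_
      by_contra hcon
      push Not at hcon
      exact hy2 ⟨x, hx, Metric.mem_ball.2 hcon⟩
    refine Set.Countable.mono hsub ?_
    exact (t.countable_toSet).biUnion fun x _ => sphere_countable834 x (r x)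

theorem exists_clopen834 {C : Type} [MetricSpace C] [Countable C] (c : C) {W : Set C}
    (hW : W ∈ 𝓝 c) : ∃ V : Set C, IsClopen V ∧ c ∈ V ∧ V ⊆ W := by
  obtain ⟨ε, hε, hsub⟩ := Metric.mem_nhds_iff.1 hW
  have hcount : (Set.range fun c' : C => dist c' c).Countable := Set.countable_range _
  obtain ⟨r, ⟨hr0, hrε⟩, hrn⟩ : ∃ r ∈ Ioo (0 : ℝ) ε, r ∉ Set.range fun c' : C => dist c' c := by
    by_contra hcon
    push Not at hcon
    have h1 : (Ioo (0 : ℝ) ε).Countable := hcount.mono fun r hr => hcon r hr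
    rw [← Cardinal.le_aleph0_iff_set_countable, Cardinal.mk_Ioo_real hε] at h1
    exact absurd h1 (not_le.2 Cardinal.aleph0_lt_continuum)
  refine ⟨Metric.ball c r, ⟨?_, Metric.isOpen_ball⟩, Metric.mem_ball_self hr0,
    (Metric.ball_subset_ball hrε.le).trans hsub⟩
  have h2 : Metric.ball c r = Metric.closedBall c r := by
    ext y
    rw [Metric.mem_ball, Metric.mem_closedBall]
    refine ⟨le_of_lt, fun h => lt_of_le_of_ne h fun h3 => hrn ⟨y, h3⟩⟩
  rw [h2]
  exact Metric.isClosed_closedBall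

theorem IndLT.countable_prod_I (C : Type) [MetricSpace C] [Countable C] : IndLT 2 (C × I) := by
  classical
  rcases isEmpty_or_nonempty C with hC | hC
  · exact IndLT.of_isEmpty 2 (C × I)
  apply IndLT.succ_of_sep
  intro A A' hA hA' hd
  -- local data
  have hloc : ∀ c : C, ∃ G : Set I, ∃ W : Set C, IsOpen G ∧ (frontier G).Countable ∧
      IsClopen W ∧ c ∈ W ∧ (∀ c' ∈ W, ∀ x : I, (c', x) ∈ A → x ∈ G) ∧
      (∀ c' ∈ W, ∀ x : I, (c', x) ∈ A' → x ∉ closure G) := by
    intro c
    have hcont : Continuous (fun x : I => (c, x)) := Continuous.prodMk_right c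
    obtain ⟨G, hG, hAG, hA'G, hfr⟩ := exists_open834 ((fun x : I => (c, x)) ⁻¹' A)
      ((fun x : I => (c, x)) ⁻¹' A') (hA.preimage hcont) (hA'.preimage hcont)
      (Set.disjoint_left.2 fun x hx hx' => Set.disjoint_left.1 hd hx hx')
    have h1 : ∃ u : Set C, IsOpen u ∧ c ∈ u ∧ ∀ c' ∈ u, ∀ x : I, (c', x) ∈ A → x ∈ G := by
      obtain ⟨u, v, hu, _, hcu, hKv, huv⟩ := generalized_tube_lemma (isCompact_singleton (x := c))
        (hG.isClosed_compl.isCompact) hA.isOpen_compl (by
          rintro ⟨a, x⟩ ⟨ha, hx⟩ hmem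
          rw [Set.mem_singleton_iff] at ha
          simp only at ha hx
          subst ha
          exact hx (hAG hmem))
      refine ⟨u, hu, hcu rfl, fun c' hc' x hx => ?_⟩
      by_contra hxG
      have hxG' : x ∈ Gᶜ := hxG
      exact huv ⟨hc', hKv hxG'⟩ hx
    have h2 : ∃ u : Set C, IsOpen u ∧ c ∈ u ∧ ∀ c' ∈ u, ∀ x : I, (c', x) ∈ A' → x ∉ closure G := by
      obtain ⟨u, v, hu, _, hcu, hKv, huv⟩ := generalized_tube_lemma (isCompact_singleton (x := c))
        (isClosed_closure (s := G)).isCompact hA'.isOpen_compl (by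
          rintro ⟨a, x⟩ ⟨ha, hx⟩ hmem
          rw [Set.mem_singleton_iff] at ha
          simp only at ha hx
          subst ha
          exact Set.disjoint_left.1 hA'G hx hmem)
      refine ⟨u, hu, hcu rfl, fun c' hc' x hx hxG => ?_⟩
      exact huv ⟨hc', hKv hxG⟩ hx
    obtain ⟨u1, hu1, hc1, hh1⟩ := h1
    obtain ⟨u2, hu2, hc2, hh2⟩ := h2
    obtain ⟨V, hV, hcV, hVsub⟩ := exists_clopen834 c ((hu1.inter hu2).mem_nhds ⟨hc1, hc2⟩)
    exact ⟨G, V, hG, hfr, hV, hcV, fun c' hc' => hh1 c' (hVsub hc').1,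
      fun c' hc' => hh2 c' (hVsub hc').2⟩
  choose G W hG hfr hW hcW hWA hWA' using hloc
  obtain ⟨f, hf⟩ := exists_surjective_nat C
  have hex : ∀ c : C, ∃ n, c ∈ W (f n) := by
    intro c
    obtain ⟨n, hn⟩ := hf c
    exact ⟨n, by rw [hn]; exact hcW c⟩
  let ν : C → ℕ := fun c => Nat.find (hex c)
  have hν1 : ∀ c, c ∈ W (f (ν c)) := fun c => Nat.find_spec (hex c)
  have hνopen : ∀ n, IsOpen (ν ⁻¹' {n}) := by
    intro n
    have heq : ν ⁻¹' {n} = W (f n) ∩ ⋂ m ∈ Finset.range n, (W (f m))ᶜ := by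
      ext c
      simp only [Set.mem_preimage, Set.mem_singleton_iff, Set.mem_inter_iff, Set.mem_iInter,
        Finset.mem_range, Set.mem_compl_iff]
      exact Nat.find_eq_iff (hex c)
    rw [heq]
    exact (hW _).isOpen.inter (isOpen_biInter_finset fun m _ => (hW _).isClosed.isOpen_compl)
  have hUeq : {p : C × I | p.2 ∈ G (f (ν p.1))} = ⋃ n, (ν ⁻¹' {n}) ×ˢ G (f n) := by
    ext p
    simp only [Set.mem_iUnion, Set.mem_prod, Set.mem_preimage, Set.mem_singleton_iff,
      Set.mem_ofPred_eq]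
    constructor
    · intro h; exact ⟨_, rfl, h⟩
    · rintro ⟨n, hn, h⟩; rw [hn]; exact h
  have hUopen : IsOpen {p : C × I | p.2 ∈ G (f (ν p.1))} := by
    rw [hUeq]
    exact isOpen_iUnion fun n => (hνopen n).prod (hG _)
  have hVeq : {p : C × I | p.2 ∈ closure (G (f (ν p.1)))}ᶜ =
      ⋃ n, (ν ⁻¹' {n}) ×ˢ (closure (G (f n)))ᶜ := by
    ext p
    simp only [Set.mem_iUnion, Set.mem_prod, Set.mem_preimage, Set.mem_singleton_iff,
      Set.mem_ofPred_eq, Set.mem_compl_iff]
    constructor
    · intro h; exact ⟨_, rfl, h⟩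
    · rintro ⟨n, hn, h⟩; rw [hn]; exact h
  have hVclosed : IsClosed {p : C × I | p.2 ∈ closure (G (f (ν p.1)))} := by
    rw [← isOpen_compl_iff, hVeq]
    exact isOpen_iUnion fun n => (hνopen n).prod isClosed_closure.isOpen_compl
  have hclU : closure {p : C × I | p.2 ∈ G (f (ν p.1))} ⊆
      {p : C × I | p.2 ∈ closure (G (f (ν p.1)))} :=
    closure_minimal (fun p hp => subset_closure hp) hVclosed
  refine ⟨{p : C × I | p.2 ∈ G (f (ν p.1))}, hUopen, ?_, ?_, ?_⟩
  · rintro ⟨c, x⟩ hcx
    exact hWA (f (ν c)) c (hν1 c) x hcx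
  · rw [Set.disjoint_left]
    rintro ⟨c, x⟩ hcx hcx'
    exact hWA' (f (ν c)) c (hν1 c) x hcx' (hclU hcx)
  · have hcount : (frontier {p : C × I | p.2 ∈ G (f (ν p.1))}).Countable := by
      have hsub : frontier {p : C × I | p.2 ∈ G (f (ν p.1))} ⊆
          ⋃ c : C, (fun x : I => (c, x)) '' frontier (G (f (ν c))) := by
        rw [hUopen.frontier_eq]
        rintro ⟨c, x⟩ ⟨h1, h2⟩
        rw [Set.mem_iUnion]
        refine ⟨c, x, ?_, rfl⟩
        rw [(hG _).frontier_eq]
        exact ⟨hclU h1, h2⟩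
      refine Set.Countable.mono hsub ?_
      exact Set.countable_iUnion fun c => (hfr _).image _
    haveI : Countable (frontier {p : C × I | p.2 ∈ G (f (ν p.1))}) := hcount.to_subtype
    exact IndLT.of_countable _

theorem not_indLT_one_I : ¬ IndLT 1 I := by
  intro h
  obtain ⟨U, hU, h0, hd, hf⟩ := IndLT.sep (n := 0) h (A := ({0} : Set I)) (A' := ({1} : Set I))
    isClosed_singleton isClosed_singleton (by
      rw [Set.disjoint_singleton]
      exact zero_ne_one)
  have hf' : IsEmpty (frontier U) := hf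
  have hfr : frontier U = ∅ := Set.isEmpty_coe_sort.1 hf'
  have hcl : IsClopen U := isClopen_iff_frontier_eq_empty.2 hfr
  rcases isClopen_iff.1 hcl with h1 | h1
  · have : (0 : I) ∈ U := h0 (mem_singleton _)
    rw [h1] at this
    exact this
  · rw [h1, closure_univ] at hd
    exact (Set.disjoint_left.1 hd) (mem_univ (1 : I)) (mem_singleton _)

end A

end Pool.Agent.Helper520.PM
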