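import Pool.Agent.Helper520.PM.PartT

namespace Pool.Agent.Helper520.PM

open Set Topology Filter

/-! ### Part C -/
namespace Cm

variable {T : Type} [MetricSpace T] {p : T} {R R' : Set T}

theorem aux_dist_eq (x y : Cm p R) (h : x ≠ y) : dist x y = max (Comet.wt x) (Comet.wt y) :=
  if_neg h

theorem aux_wt (x : Cm p R) : Comet.wt x = dist (toT x) p := by
  cases x with
  | none => exact (dist_self p).symm
  | some x => rfl

theorem aux_dist_ctr (x : Cm p R) : dist x ctr = dist (toT x) p := by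
  by_cases h : x = ctr
  · subst h
    rw [dist_self]
    exact (dist_self p).symm
  · rw [aux_dist_eq x ctr h, ← aux_wt x]
    exact max_eq_left (Comet.wt_nonneg x)

theorem aux_wt_pos (x : T) (h : x ∈ R ∧ x ≠ p) : 0 < Comet.wt (pt x h : Cm p R) :=
  dist_pos.2 h.2

theorem aux_eq_of_dist_lt (x y : Cm p R)
    (h : dist x y < Comet.wt y) : x = y := by
  by_contra hne
  rw [aux_dist_eq x y hne] at h
  exact absurd h (not_lt.2 (le_max_right _ _))

theorem continuous_toT : Continuous (toT : Cm p R → T) := by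
  rw [Metric.continuous_iff]
  intro b ε hε
  cases b with
  | none =>
    refine ⟨ε, hε, fun a ha => ?_⟩
    have h1 : dist a ctr = dist (toT a) p := aux_dist_ctr a
    have h2 : dist a (ctr : Cm p R) < ε := ha
    rw [h1] at h2
    exact h2
  | some s =>
    refine ⟨Comet.wt (pt s.1 s.2 : Cm p R), aux_wt_pos s.1 s.2, fun a ha => ?_⟩
    have := aux_eq_of_dist_lt a (pt s.1 s.2 : Cm p R) ha
    subst this
    rw [show toT (some s) = toT (pt s.1 s.2 : Cm p R) from rfl, dist_self]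
    exact hε

theorem continuous_incl (h : R ⊆ R') : Continuous (incl h : Cm p R → Cm p R') := by
  refine (LipschitzWith.mk_one (fun a b => ?_)).continuous
  by_cases hab : a = b
  · subst hab
    rw [dist_self, dist_self]
  · have hw : ∀ x : Cm p R, Comet.wt (incl h x) = Comet.wt x := by
      intro x
      cases x with
      | none => rfl
      | some s => rfl
    rw [aux_dist_eq a b hab]
    by_cases hab' : incl h a = incl h b
    · rw [hab', dist_self]
      exact (Comet.wt_nonneg a).trans (le_max_left _ _)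
    · rw [aux_dist_eq _ _ hab', hw, hw]

theorem isOpen_pt (x : T) (h : x ∈ R ∧ x ≠ p) : IsOpen ({pt x h} : Set (Cm p R)) := by
  rw [Metric.isOpen_singleton_iff]
  exact ⟨Comet.wt (pt x h : Cm p R), aux_wt_pos x h, fun y hy =>
    aux_eq_of_dist_lt y (pt x h) hy⟩

theorem nhds_ctr : 𝓝 (ctr : Cm p R) = comap toT (𝓝 p) := by
  refine (Metric.nhds_basis_ball (x := (ctr : Cm p R))).eq_of_same_basis ?_
  refine (Metric.nhds_basis_ball.comap (toT : Cm p R → T)).congr (fun _ => Iff.rfl) ?_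
  intro ε _
  ext x
  rw [Metric.mem_ball, mem_preimage, Metric.mem_ball, aux_dist_ctr]

theorem countable (h : R.Countable) : Countable (Cm p R) := by
  have h1 : ({x : T | x ∈ R ∧ x ≠ p} : Set T).Countable := h.mono (fun x hx => hx.1)
  have h2 : Countable {x : T // x ∈ R ∧ x ≠ p} := h1.to_subtype
  have h3 : Countable (Option {x : T // x ∈ R ∧ x ≠ p}) := inferInstance
  exact h3

/-- Every point of the class `R` near `p` is in `O`, or every such point is outside `O`. -/
def EC (O : Set T) (p : T) (R : Set T) : Prop :=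
  (∀ᶠ x in 𝓝 p, x ∈ R → x ∈ O) ∨ (∀ᶠ x in 𝓝 p, x ∈ R → x ∉ O)

/-- The part of the comet which belongs to the open set `O`. -/
def st (p : T) (R O : Set T) : Set (Cm p R) :=
  {y | match y with
    | none => (∀ᶠ x in 𝓝 p, x ∈ R → x ∈ O) ∧ p ∈ closure O
    | some x => x.1 ∈ O}

theorem ctr_mem_st {O : Set T} : (ctr : Cm p R) ∈ st p R O ↔
    (∀ᶠ x in 𝓝 p, x ∈ R → x ∈ O) ∧ p ∈ closure O := Iff.rfl

theorem pt_mem_st {O : Set T} {x : T} {h : x ∈ R ∧ x ≠ p} :
    (pt x h : Cm p R) ∈ st p R O ↔ x ∈ O := Iff.rfl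

theorem isOpen_st (O : Set T) : IsOpen (st p R O) := by
  rw [isOpen_iff_mem_nhds]
  rintro (_ | x) hx
  · change st p R O ∈ 𝓝 (ctr : Cm p R)
    rw [nhds_ctr]
    have h1 : ∀ᶠ y in comap (toT : Cm p R → T) (𝓝 p), toT y ∈ R → toT y ∈ O :=
      Filter.Eventually.comap hx.1 toT
    filter_upwards [h1] with y hy
    rcases y with _ | y
    · exact hx
    · exact hy y.2.1
  · have h1 : IsOpen ({pt x.1 x.2} : Set (Cm p R)) := isOpen_pt x.1 x.2
    have h2 : ({pt x.1 x.2} : Set (Cm p R)) ∈ 𝓝 (pt x.1 x.2 : Cm p R) := h1.mem_nhds rfl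
    refine Filter.mem_of_superset h2 ?_
    intro y hy
    rw [mem_singleton_iff] at hy
    rw [hy]
    exact hx

theorem preimage_subset_st {O : Set T} (hO : IsOpen O) :
    (toT : Cm p R → T) ⁻¹' O ⊆ st p R O := by
  rintro (_ | x) hx
  · have hp : p ∈ O := hx
    have h1 : ∀ᶠ x in 𝓝 p, x ∈ O := hO.mem_nhds hp
    exact ⟨h1.mono fun x h _ => h, subset_closure hp⟩
  · exact hx

theorem st_subset (O : Set T) : st p R O ⊆ (toT : Cm p R → T) ⁻¹' closure O := by
  rintro (_ | x) hx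
  · exact hx.2
  · exact subset_closure (show x.1 ∈ O from hx)

theorem incl_preimage_st (h : R ⊆ R') (O : Set T) :
    (incl h : Cm p R → Cm p R') ⁻¹' (st p R' O) ⊆ st p R O := by
  rintro (_ | x) hx
  · exact ⟨hx.1.mono fun x h1 h2 => h1 (h h2), hx.2⟩
  · exact hx

theorem frontier_st (O : Set T) : frontier (st p R O) ⊆ {ctr} := by
  rintro (_ | x) hx
  · exact rfl
  · exfalso
    rw [(isOpen_st O).frontier_eq] at hx
    obtain ⟨h1, h2⟩ := hx
    obtain ⟨y, hy1, hy2⟩ := mem_closure_iff.1 h1 {pt x.1 x.2} (isOpen_pt x.1 x.2) rfl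
    rw [mem_singleton_iff] at hy1
    rw [hy1] at hy2
    exact h2 hy2

theorem ctr_notMem_closure_st {O : Set T} (h : ∀ᶠ x in 𝓝 p, x ∈ R → x ∉ O)
    (hc : (ctr : Cm p R) ∉ st p R O) : (ctr : Cm p R) ∉ closure (st p R O) := by
  intro h1
  rw [mem_closure_iff_frequently, nhds_ctr] at h1
  have h2 : ∀ᶠ y in comap (toT : Cm p R → T) (𝓝 p), toT y ∈ R → toT y ∉ O :=
    Filter.Eventually.comap h toT
  obtain ⟨y, hy1, hy2⟩ := (h1.and_eventually h2).exists
  rcases y with _ | y
  · exact hc hy1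
  · exact hy2 y.2.1 hy1

theorem frontier_st_of_EC {O : Set T} (h : EC O p R) :
    frontier (st p R O) = ∅ := by
  rw [Set.eq_empty_iff_forall_notMem]
  intro y hy
  have hy2 : y = ctr := frontier_st O hy
  subst hy2
  rw [(isOpen_st O).frontier_eq] at hy
  obtain ⟨h1, h2⟩ := hy
  rcases h with h | h
  · by_cases hp : p ∈ closure O
    · exact h2 ⟨h, hp⟩
    · have h3 : ∀ᶠ x in 𝓝 p, x ∈ R → x ∉ O := by
        have : ∀ᶠ x in 𝓝 p, x ∈ (closure O)ᶜ := isClosed_closure.isOpen_compl.mem_nhds hp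
        exact this.mono fun x h4 _ h5 => h4 (subset_closure h5)
      exact ctr_notMem_closure_st h3 h2 h1
  · exact ctr_notMem_closure_st h h2 h1

theorem ctr_mem_closure_st {O : Set T} (hO : IsOpen O) (hR : Dense R)
    (hp : p ∈ closure O) : (ctr : Cm p R) ∈ closure (st p R O) := by
  by_cases hpO : p ∈ O
  · exact subset_closure (preimage_subset_st hO hpO)
  rw [mem_closure_iff_nhds]
  intro t ht
  rw [nhds_ctr, mem_comap] at ht
  obtain ⟨u, hu, hut⟩ := ht
  obtain ⟨v, hvu, hv, hpv⟩ := mem_nhds_iff.1 hu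
  have h1 : (v ∩ O).Nonempty := mem_closure_iff.1 hp v hv hpv
  obtain ⟨x, ⟨hxv, hxO⟩, hxR⟩ := hR.inter_open_nonempty (v ∩ O) (hv.inter hO) h1
  have hxp : x ≠ p := fun h => hpO (h ▸ hxO)
  exact ⟨pt x ⟨hxR, hxp⟩, hut (hvu hxv), hxO⟩

end Cm

end Pool.Agent.Helper520.PM
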