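import Pool.Agent.Helper520.PM.PartC

namespace Pool.Agent.Helper520.PM

open Set Topology Filter

/-! ### Part F -/

theorem dense_G (i : Bool) : Dense (G i) := by
  apply dense_of_exists_between
  intro a b hab
  have hab' : (a : ℝ) < (b : ℝ) := hab
  cases i with
  | false =>
    obtain ⟨q, hq1, hq2⟩ := exists_rat_btwn hab'
    have h0 : (0 : ℝ) ≤ (q : ℝ) := le_trans a.2.1 hq1.le
    have h1 : (q : ℝ) ≤ 1 := le_trans hq2.le b.2.2
    refine ⟨⟨(q : ℝ), h0, h1⟩, ?_, ?_, ?_⟩
    · show RatI _ ↔ false = false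
      exact ⟨fun _ => rfl, fun _ => ⟨q, rfl⟩⟩
    · exact hq1
    · exact hq2
  | true =>
    obtain ⟨r, hr, hr1, hr2⟩ := exists_irrational_btwn hab'
    have h0 : (0 : ℝ) ≤ r := le_trans a.2.1 hr1.le
    have h1 : r ≤ 1 := le_trans hr2.le b.2.2
    refine ⟨⟨r, h0, h1⟩, ?_, ?_, ?_⟩
    · show RatI _ ↔ true = false
      refine ⟨?_, fun h => absurd h (by decide)⟩
      rintro ⟨q, hq⟩
      exact absurd ⟨q, hq.symm⟩ hr
    · exact hr1
    · exact hr2

theorem continuous_hG {S : Type} (τ : S → Bool) : Continuous (hG τ) := by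
  refine continuous_sigma fun a => ?_
  exact Cm.continuous_toT.comp continuous_fst


theorem f2_noI {Y : Type} [TopologicalSpace Y] [T2Space Y] {S : Set Y} (hS : IndLT 1 S)
    (f : I → Y) (hf : Continuous f) (hi : Function.Injective f) (hr : ∀ s, f s ∈ S) : False := by
  refine not_indLT_one_I ?_
  have hg : Continuous (fun s : I => (⟨f s, hr s⟩ : S)) := hf.subtype_mk hr
  have hgi : Function.Injective (fun s : I => (⟨f s, hr s⟩ : S)) := by
    intro x y hxy
    exact hi (congrArg Subtype.val hxy)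
  exact IndLT.of_isClosedEmbedding (hg.isClosedEmbedding hgi) hS

theorem f2_interval (W : Set I) (hW : IsOpen W) (hne : W.Nonempty) :
    ∃ f : I → I, Continuous f ∧ Function.Injective f ∧ ∀ s, f s ∈ W := by
  obtain ⟨x, hx⟩ := hne
  obtain ⟨ε, hε, hball⟩ := Metric.isOpen_iff.1 hW x hx
  -- choose y ≠ x with the segment in the ball
  obtain ⟨y, hyx, hy⟩ : ∃ y : I, y ≠ x ∧ dist y x < ε := by
    by_cases h : (x : ℝ) < 1
    · refine ⟨⟨min 1 ((x : ℝ) + ε / 2), ⟨?_, min_le_left _ _⟩⟩, ?_, ?_⟩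
      · have := x.2.1
        exact le_min zero_le_one (by linarith)
      · intro heq
        have h2 : min 1 ((x : ℝ) + ε / 2) = x := congrArg Subtype.val heq
        rcases min_choice 1 ((x : ℝ) + ε / 2) with h3 | h3 <;> rw [h3] at h2 <;> linarith
      · rw [Subtype.dist_eq, Real.dist_eq]
        have h4 : min 1 ((x : ℝ) + ε / 2) ≤ (x : ℝ) + ε / 2 := min_le_right _ _
        have h5 : (x : ℝ) ≤ min 1 ((x : ℝ) + ε / 2) := le_min x.2.2 (by linarith)
        rw [abs_lt]
        constructor <;> simp only <;> linarith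
    · have hx1 : (x : ℝ) = 1 := le_antisymm x.2.2 (not_lt.1 h)
      refine ⟨⟨max 0 ((x : ℝ) - ε / 2), ⟨le_max_left _ _, ?_⟩⟩, ?_, ?_⟩
      · have := x.2.2
        exact max_le zero_le_one (by linarith)
      · intro heq
        have h2 : max 0 ((x : ℝ) - ε / 2) = x := congrArg Subtype.val heq
        rcases max_choice 0 ((x : ℝ) - ε / 2) with h3 | h3 <;> rw [h3] at h2 <;> linarith
      · rw [Subtype.dist_eq, Real.dist_eq]
        have h4 : (x : ℝ) - ε / 2 ≤ max 0 ((x : ℝ) - ε / 2) := le_max_right _ _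
        have h5 : max 0 ((x : ℝ) - ε / 2) ≤ (x : ℝ) := max_le x.2.1 (by linarith)
        rw [abs_lt]
        constructor <;> simp only <;> linarith
  have hne' : (y : ℝ) - x ≠ 0 := by
    intro h
    exact hyx (Subtype.ext (by linarith))
  have hmem : ∀ s : I, (x : ℝ) + s * ((y : ℝ) - x) ∈ unitInterval := by
    intro s
    have h1 := s.2.1
    have h2 := s.2.2
    have h3 := x.2.1
    have h4 := x.2.2
    have h5 := y.2.1
    have h6 := y.2.2
    constructor
    · nlinarith
    · nlinarith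
  refine ⟨fun s => ⟨(x : ℝ) + s * ((y : ℝ) - x), hmem s⟩, ?_, ?_, ?_⟩
  · exact Continuous.subtype_mk (by fun_prop) _
  · intro s t hst
    have h1 : (x : ℝ) + s * ((y : ℝ) - x) = (x : ℝ) + t * ((y : ℝ) - x) :=
      congrArg Subtype.val hst
    have h2 : ((s : ℝ) - t) * ((y : ℝ) - x) = 0 := by linarith
    rcases mul_eq_zero.1 h2 with h3 | h3
    · exact Subtype.ext (by linarith)
    · exact absurd h3 hne'
  · intro s
    apply hball
    rw [Metric.mem_ball, Subtype.dist_eq, Real.dist_eq]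
    rw [Subtype.dist_eq, Real.dist_eq] at hy
    have h1 : (x : ℝ) + s * ((y : ℝ) - x) - x = s * ((y : ℝ) - x) := by ring
    show |(x : ℝ) + s * ((y : ℝ) - x) - x| < ε
    rw [h1, abs_mul, abs_of_nonneg s.2.1]
    have h2 : (s : ℝ) * |(y : ℝ) - x| ≤ 1 * |(y : ℝ) - x| :=
      mul_le_mul_of_nonneg_right s.2.2 (abs_nonneg _)
    linarith

theorem f2_countable_rat : {x : I | RatI x}.Countable := by
  have h1 : (Set.range (fun q : ℚ => (q : ℝ))).Countable := Set.countable_range _
  have h2 : {x : I | RatI x} = Subtype.val ⁻¹' (Set.range (fun q : ℚ => (q : ℝ))) := by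
    ext x
    simp only [Set.mem_ofPred_eq, Set.mem_preimage, Set.mem_range, RatI]
    constructor
    · rintro ⟨q, hq⟩
      exact ⟨q, hq.symm⟩
    · rintro ⟨q, hq⟩
      exact ⟨q, hq.symm⟩
  rw [h2]
  exact h1.preimage Subtype.val_injective

/-- limit points -/
theorem f2_limit (i : Bool) (j : I) (hj : j ∉ G i) (a : ℝ)
    (W : Set (Tot (hG (id : Bool → Bool)))) (Wb : Set I) (hWb : IsOpen Wb)
    (hjW : j ∉ Wb) (hjc : j ∈ closure Wb)
    (hW : ∀ x ∈ Wb, RatI x → ∀ z : XG (id : Bool → Bool), hG id z = x → Tot.fib a z ∈ W) (s : I) :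
    (Tot.fib a ⟨(i, j, false), (Cm.ctr, s)⟩ : Tot (hG (id : Bool → Bool))) ∈ closure W := by
  rw [mem_closure_iff]
  intro O hO hPO
  have hcont : Continuous (fun c : Cm j (RJ i j false) =>
      (Tot.fib a ⟨(i, j, false), (c, s)⟩ : Tot (hG (id : Bool → Bool)))) := by
    have h1 : Continuous (fun c : Cm j (RJ i j false) => (c, s)) := by fun_prop
    have h2 : Continuous (fun c : Cm j (RJ i j false) =>
      (⟨(i, j, false), (c, s)⟩ : XG (id : Bool → Bool))) :=
      (continuous_sigmaMk (σ := fun a : Bool × I × Bool =>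
        Cm a.2.1 (RJ (id a.1) a.2.1 a.2.2) × I)).comp h1
    exact (Tot.isOpenEmbedding_fib a).continuous.comp h2
  have hnh : (fun c : Cm j (RJ i j false) =>
      (Tot.fib a ⟨(i, j, false), (c, s)⟩ : Tot (hG (id : Bool → Bool)))) ⁻¹' O ∈
      𝓝 (Cm.ctr : Cm j (RJ i j false)) := (hO.preimage hcont).mem_nhds hPO
  rw [Cm.nhds_ctr, mem_comap] at hnh
  obtain ⟨t, ht, hts⟩ := hnh
  obtain ⟨O', hO't, hO', hjO'⟩ := mem_nhds_iff.1 ht
  have hne : (O' ∩ Wb).Nonempty := mem_closure_iff.1 hjc O' hO' hjO'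
  obtain ⟨x, hxO, hxG⟩ := (dense_G false).inter_open_nonempty _ (hO'.inter hWb) hne
  have hxr : RatI x := by
    have : RatI x ↔ (false = false) := hxG
    exact this.2 rfl
  have hxj : x ≠ j := by
    rintro rfl
    exact hjW hxO.2
  have hxR : x ∈ RJ i j false ∧ x ≠ j := by
    refine ⟨⟨hxr, hxj, ?_⟩, hxj⟩
    constructor
    · rintro ⟨h, _⟩
      exact absurd h hj
    · intro h
      exact absurd h (by decide)
  refine ⟨Tot.fib a ⟨(i, j, false), (Cm.pt x hxR, s)⟩, ?_, ?_⟩
  · apply hts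
    show Cm.toT (Cm.pt x hxR) ∈ t
    exact hO't hxO.1
  · exact hW x hxO.2 hxr _ rfl

/-- Both types together: dimension at least two. -/
theorem not_indLT_two_F : ¬ IndLT 2 (Tot (hG (id : Bool → Bool))) := by
  intro h
  have : T2Space (Tot (hG (id : Bool → Bool))) := Tot.t2Space (continuous_hG _)
  obtain ⟨U, hU, hAU, hdis, hfr⟩ := IndLT.sep (n := 1) h
    (A := {Tot.base (0 : I)}) (A' := {Tot.base (1 : I)}) isClosed_singleton isClosed_singleton (by
      rw [Set.disjoint_singleton]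
      intro h
      injection h with h
      exact zero_ne_one h)
  have h0 : (Tot.base (0 : I) : Tot (hG (id : Bool → Bool))) ∈ U := hAU rfl
  have h1 : (Tot.base (1 : I) : Tot (hG (id : Bool → Bool))) ∉ closure U :=
    fun h => Set.disjoint_left.1 hdis h rfl
  have hV : IsOpen (closure U)ᶜ := isClosed_closure.isOpen_compl
  set V : Set (Tot (hG (id : Bool → Bool))) := (closure U)ᶜ with hVdef
  have hUb : IsOpen {b : I | (Tot.base b : Tot (hG (id : Bool → Bool))) ∈ U} :=
    (Tot.isOpen_iff.1 hU).1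
  have hVb : IsOpen {b : I | (Tot.base b : Tot (hG (id : Bool → Bool))) ∈ V} :=
    (Tot.isOpen_iff.1 hV).1
  set Ub : Set I := {b : I | (Tot.base b : Tot (hG (id : Bool → Bool))) ∈ U} with hUbdef
  set Vb : Set I := {b : I | (Tot.base b : Tot (hG (id : Bool → Bool))) ∈ V} with hVbdef
  have hdUV : ∀ b, b ∈ Ub → b ∈ Vb → False := fun b hb hb' => hb' (subset_closure hb)
  have hfrU : frontier U = closure U \ U := hU.frontier_eq
  -- density
  have hdense : Dense (Ub ∪ Vb) := by
    by_contra hnd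
    rw [dense_iff_inter_open] at hnd
    push Not at hnd
    obtain ⟨W, hW, hWne, hWe⟩ := hnd
    obtain ⟨f, hf, hfi, hfW⟩ := f2_interval W hW hWne
    refine f2_noI hfr (fun s => Tot.base (f s)) (Tot.isClosedEmbedding_base.continuous.comp hf) ?_ ?_
    · intro s t hst
      injection hst with hst
      exact hfi hst
    · intro s
      rw [hfrU]
      have hs : f s ∉ Ub ∪ Vb := by
        intro hs
        have : f s ∈ W ∩ (Ub ∪ Vb) := ⟨hfW s, hs⟩
        rw [hWe] at this
        exact this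
      refine ⟨?_, fun hs' => hs (Or.inl hs')⟩
      by_contra hc
      exact hs (Or.inr hc)
  -- connectedness
  obtain ⟨j, -, hjU, hjV⟩ : (Set.univ ∩ (closure Ub ∩ closure Vb)).Nonempty := by
    refine (isPreconnected_closed_iff.1 (isPreconnected_univ (α := I))) _ _ isClosed_closure
      isClosed_closure ?_ ⟨0, mem_univ _, subset_closure h0⟩ ⟨1, mem_univ _, subset_closure h1⟩
    rw [← closure_union, hdense.closure_eq]
  have hjU' : j ∉ Ub := by
    intro hj
    obtain ⟨x, hx, hx'⟩ := mem_closure_iff.1 hjV Ub hUb hj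
    exact hdUV x hx hx'
  have hjV' : j ∉ Vb := by
    intro hj
    obtain ⟨x, hx, hx'⟩ := mem_closure_iff.1 hjU Vb hVb hj
    exact hdUV x hx' hx
  obtain ⟨i, hi⟩ : ∃ i, j ∉ G i := by
    by_cases hj : RatI j
    · refine ⟨true, fun h => ?_⟩
      have h' : RatI j ↔ (true = false) := h
      exact absurd (h'.1 hj) (by decide)
    · refine ⟨false, fun h => ?_⟩
      have h' : RatI j ↔ (false = false) := h
      exact hj (h'.2 rfl)
  -- choose a
  have hN : ∀ x : I, ∃ N : Set ℝ, N.Countable ∧ ∀ a ∉ N, ∀ z : XG (id : Bool → Bool),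
      hG id z = x → (x ∈ Ub → Tot.fib a z ∈ U) ∧ (x ∈ Vb → Tot.fib a z ∈ V) := by
    intro x
    by_cases hxU : x ∈ Ub
    · obtain ⟨O, hO, hxO, N, hNc, hN⟩ := (Tot.isOpen_iff.1 hU).2.2 x hxU
      refine ⟨N, hNc, fun a ha z hz => ⟨fun _ => hN a ha z (by rw [hz]; exact hxO), fun hxV =>
        absurd hxV (fun h => hdUV x hxU h)⟩⟩
    · by_cases hxV : x ∈ Vb
      · obtain ⟨O, hO, hxO, N, hNc, hN⟩ := (Tot.isOpen_iff.1 hV).2.2 x hxV
        refine ⟨N, hNc, fun a ha z hz => ⟨fun h => absurd h hxU, fun _ =>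
          hN a ha z (by rw [hz]; exact hxO)⟩⟩
      · exact ⟨∅, Set.countable_empty, fun a _ z _ => ⟨fun h => absurd h hxU,
          fun h => absurd h hxV⟩⟩
  choose N hNc hN using hN
  have hNN : (⋃ x ∈ {x : I | RatI x}, N x).Countable :=
    f2_countable_rat.biUnion (fun x _ => hNc x)
  obtain ⟨a, ha⟩ : ∃ a : ℝ, a ∉ ⋃ x ∈ {x : I | RatI x}, N x := by
    by_contra hcon
    push Not at hcon
    exact Cardinal.not_countable_real (hNN.mono (fun a _ => hcon a))
  have ha' : ∀ x : I, RatI x → a ∉ N x := by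
    intro x hx hax
    exact ha (Set.mem_biUnion hx hax)
  refine f2_noI hfr (fun s => (Tot.fib a ⟨(i, j, false), (Cm.ctr, s)⟩ :
    Tot (hG (id : Bool → Bool)))) ?_ ?_ ?_
  · have h1 : Continuous (fun s : I => ((Cm.ctr : Cm j (RJ i j false)), s)) := by fun_prop
    have h2 : Continuous (fun s : I =>
      (⟨(i, j, false), (Cm.ctr, s)⟩ : XG (id : Bool → Bool))) :=
      (continuous_sigmaMk (σ := fun a : Bool × I × Bool =>
        Cm a.2.1 (RJ (id a.1) a.2.1 a.2.2) × I)).comp h1
    exact (Tot.isOpenEmbedding_fib a).continuous.comp h2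
  · intro s t hst
    injection hst with h1 h2
    have h3 := eq_of_heq (Sigma.mk.inj h2).2
    exact congrArg Prod.snd h3
  · intro s
    rw [hfrU]
    refine ⟨f2_limit i j hi a U Ub hUb hjU' hjU
      (fun x hx hr z hz => (hN x a (ha' x hr) z hz).1 hx) s, fun hs => ?_⟩
    have hs2 := f2_limit i j hi a V Vb hVb hjV' hjV
      (fun x hx hr z hz => (hN x a (ha' x hr) z hz).2 hx) s
    obtain ⟨y, hy, hy'⟩ := mem_closure_iff.1 hs2 U hU hs
    exact hy' (subset_closure hy)

/-- admissible open sets of the interval -/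
def GdI (i : Bool) (O : Set I) : Prop :=
  IsOpen O ∧ (frontier O).Finite ∧ frontier O ⊆ G i ∧
      ∀ j : I, Cm.EC O j {x | j < x} ∧ Cm.EC O j {x | x < j}

theorem EC_union {T : Type} [MetricSpace T] {O O' : Set T} {p : T} {R : Set T}
    (h : Cm.EC O p R) (h' : Cm.EC O' p R) : Cm.EC (O ∪ O') p R := by
  rcases h with h | h
  · left; filter_upwards [h] with x hx hR using Or.inl (hx hR)
  · rcases h' with h' | h'
    · left; filter_upwards [h'] with x hx hR using Or.inr (hx hR)
    · right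
      filter_upwards [h, h'] with x hx hx' hR hO
      rcases hO with hO | hO
      · exact hx hR hO
      · exact hx' hR hO

theorem EC_inter {T : Type} [MetricSpace T] {O O' : Set T} {p : T} {R : Set T}
    (h : Cm.EC O p R) (h' : Cm.EC O' p R) : Cm.EC (O ∩ O') p R := by
  rcases h with h | h
  · rcases h' with h' | h'
    · left; filter_upwards [h, h'] with x hx hx' hR using ⟨hx hR, hx' hR⟩
    · right; filter_upwards [h'] with x hx hR hO using hx hR hO.2
  · right; filter_upwards [h] with x hx hR hO using hx hR hO.1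

theorem frontier_union_sub {T : Type} [TopologicalSpace T] (O O' : Set T) :
    frontier (O ∪ O') ⊆ frontier O ∪ frontier O' := fun x hx => by
  rcases frontier_union_subset O O' hx with h | h
  · exact Or.inl h.1
  · exact Or.inr h.2

theorem frontier_inter_sub {T : Type} [TopologicalSpace T] (O O' : Set T) :
    frontier (O ∩ O') ⊆ frontier O ∪ frontier O' := fun x hx => by
  rcases frontier_inter_subset O O' hx with h | h
  · exact Or.inl h.1
  · exact Or.inr h.2

theorem GdI.union {i : Bool} {O O' : Set I} (h : GdI i O) (h' : GdI i O') : GdI i (O ∪ O') :=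
  ⟨h.1.union h'.1, (h.2.1.union h'.2.1).subset (frontier_union_sub _ _),
    (frontier_union_sub _ _).trans (union_subset h.2.2.1 h'.2.2.1), fun j =>
    ⟨EC_union (h.2.2.2 j).1 (h'.2.2.2 j).1, EC_union (h.2.2.2 j).2 (h'.2.2.2 j).2⟩⟩

theorem GdI.inter {i : Bool} {O O' : Set I} (h : GdI i O) (h' : GdI i O') : GdI i (O ∩ O') :=
  ⟨h.1.inter h'.1, (h.2.1.union h'.2.1).subset (frontier_inter_sub _ _),
    (frontier_inter_sub _ _).trans (union_subset h.2.2.1 h'.2.2.1), fun j =>
    ⟨EC_inter (h.2.2.2 j).1 (h'.2.2.2 j).1, EC_inter (h.2.2.2 j).2 (h'.2.2.2 j).2⟩⟩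

theorem GdI_empty (i : Bool) : GdI i (∅ : Set I) := by
  refine ⟨isOpen_empty, by simp, by simp, fun j => ⟨Or.inr ?_, Or.inr ?_⟩⟩
  · exact Filter.Eventually.of_forall fun x _ h => h
  · exact Filter.Eventually.of_forall fun x _ h => h

theorem GdI_univ (i : Bool) : GdI i (univ : Set I) := by
  refine ⟨isOpen_univ, by simp, by simp, fun j => ⟨Or.inl ?_, Or.inl ?_⟩⟩
  · exact Filter.Eventually.of_forall fun x _ => mem_univ x
  · exact Filter.Eventually.of_forall fun x _ => mem_univ x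

theorem closure_Ioi_sub (a : I) : closure (Ioi a) ⊆ Ici a :=
  closure_minimal Ioi_subset_Ici_self isClosed_Ici

theorem closure_Iio_sub (a : I) : closure (Iio a) ⊆ Iic a :=
  closure_minimal Iio_subset_Iic_self isClosed_Iic

theorem frontier_Ioi_sub (a : I) : frontier (Ioi a) ⊆ {a} := by
  intro x hx
  rw [isOpen_Ioi.frontier_eq] at hx
  have h1 := closure_Ioi_sub a hx.1
  have h2 : x ≤ a := not_lt.1 hx.2
  exact le_antisymm h2 h1

theorem frontier_Iio_sub (a : I) : frontier (Iio a) ⊆ {a} := by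
  intro x hx
  rw [isOpen_Iio.frontier_eq] at hx
  have h1 := closure_Iio_sub a hx.1
  have h2 : a ≤ x := not_lt.1 hx.2
  exact le_antisymm h1 h2

theorem GdI_Ioi {i : Bool} {a : I} (ha : a ∈ G i) : GdI i (Ioi a) := by
  refine ⟨isOpen_Ioi, (finite_singleton a).subset (frontier_Ioi_sub a),
    (frontier_Ioi_sub a).trans (singleton_subset_iff.2 ha), fun j => ⟨?_, ?_⟩⟩
  · rcases le_or_gt a j with h | h
    · left
      exact Filter.Eventually.of_forall fun x hx => lt_of_le_of_lt h hx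
    · right
      filter_upwards [Iio_mem_nhds h] with x hx _ hx'
      exact lt_asymm (show x < a from hx) (show a < x from hx')
  · rcases lt_or_ge a j with h | h
    · left
      filter_upwards [Ioi_mem_nhds h] with x hx _
      exact hx
    · right
      exact Filter.Eventually.of_forall fun x hx hx' =>
        absurd (lt_of_lt_of_le hx h) (not_lt.2 (le_of_lt hx'))

theorem GdI_Iio {i : Bool} {a : I} (ha : a ∈ G i) : GdI i (Iio a) := by
  refine ⟨isOpen_Iio, (finite_singleton a).subset (frontier_Iio_sub a),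
    (frontier_Iio_sub a).trans (singleton_subset_iff.2 ha), fun j => ⟨?_, ?_⟩⟩
  · rcases lt_or_ge j a with h | h
    · left
      filter_upwards [Iio_mem_nhds h] with x hx _
      exact hx
    · right
      exact Filter.Eventually.of_forall fun x hx hx' =>
        absurd (lt_of_le_of_lt h hx) (not_lt.2 (le_of_lt hx'))
  · rcases le_or_gt j a with h | h
    · left
      exact Filter.Eventually.of_forall fun x hx => lt_of_lt_of_le hx h
    · right
      filter_upwards [Ioi_mem_nhds h] with x hx _ hx'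
      exact lt_asymm (show a < x from hx) (show x < a from hx')

theorem left_set (i : Bool) {F' : Set I} (hF' : IsClosed F') {x : I} (hx : x ∉ F') :
    ∃ A : Set I, GdI i A ∧ x ∈ A ∧ ∀ y ∈ closure A, y ≤ x → y ∉ F' := by
  have hn : F'ᶜ ∈ 𝓝 x := hF'.isOpen_compl.mem_nhds hx
  by_cases h : ∃ l, l < x
  · obtain ⟨l, hl, hsub⟩ := exists_Ioc_subset_of_mem_nhds hn h
    obtain ⟨a, ha, hla, hax⟩ := (dense_G i).exists_between hl
    refine ⟨Ioi a, GdI_Ioi ha, hax, fun y hy hyx => ?_⟩
    exact hsub ⟨lt_of_lt_of_le hla (closure_Ioi_sub a hy), hyx⟩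
  · push Not at h
    refine ⟨univ, GdI_univ i, mem_univ x, fun y _ hyx => ?_⟩
    rw [le_antisymm hyx (h y)]
    exact hx

theorem right_set (i : Bool) {F' : Set I} (hF' : IsClosed F') {x : I} (hx : x ∉ F') :
    ∃ A : Set I, GdI i A ∧ x ∈ A ∧ ∀ y ∈ closure A, x ≤ y → y ∉ F' := by
  have hn : F'ᶜ ∈ 𝓝 x := hF'.isOpen_compl.mem_nhds hx
  by_cases h : ∃ l, x < l
  · obtain ⟨l, hl, hsub⟩ := exists_Ico_subset_of_mem_nhds hn h
    obtain ⟨a, ha, hla, hax⟩ := (dense_G i).exists_between hl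
    refine ⟨Iio a, GdI_Iio ha, hla, fun y hy hyx => ?_⟩
    exact hsub ⟨hyx, lt_of_le_of_lt (closure_Iio_sub a hy) hax⟩
  · push Not at h
    refine ⟨univ, GdI_univ i, mem_univ x, fun y _ hyx => ?_⟩
    rw [le_antisymm (h y) hyx]
    exact hx

/-- cutting the interval at points of a dense set -/
theorem interval_sep (i : Bool) {F F' : Set I} (hF : IsClosed F) (hF' : IsClosed F')
    (hd : Disjoint F F') : ∃ O : Set I, IsOpen O ∧ F ⊆ O ∧ Disjoint (closure O) F' ∧
      (frontier O).Finite ∧ frontier O ⊆ G i ∧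
      ∀ j : I, Cm.EC O j {x | j < x} ∧ Cm.EC O j {x | x < j} := by
  have key : ∃ O : Set I, GdI i O ∧ F ⊆ O ∧ Disjoint (closure O) F' := by
    refine hF.isCompact.induction_on (p := fun S => ∃ O : Set I, GdI i O ∧ S ⊆ O ∧
      Disjoint (closure O) F') ?_ ?_ ?_ ?_
    · exact ⟨∅, GdI_empty i, Subset.rfl, by simp⟩
    · rintro s t hst ⟨O, h1, h2, h3⟩
      exact ⟨O, h1, hst.trans h2, h3⟩
    · rintro s t ⟨O, h1, h2, h3⟩ ⟨O', h1', h2', h3'⟩
      refine ⟨O ∪ O', h1.union h1', union_subset_union h2 h2', ?_⟩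
      rw [closure_union]
      exact Disjoint.union_left h3 h3'
    · intro x hx
      have hxF' : x ∉ F' := fun h => disjoint_left.1 hd hx h
      obtain ⟨A, hA1, hA2, hA3⟩ := left_set i hF' hxF'
      obtain ⟨B, hB1, hB2, hB3⟩ := right_set i hF' hxF'
      refine ⟨A ∩ B, mem_nhdsWithin_of_mem_nhds ((hA1.inter hB1).1.mem_nhds ⟨hA2, hB2⟩),
        A ∩ B, hA1.inter hB1, Subset.rfl, ?_⟩
      rw [disjoint_left]
      intro y hy hyF
      rcases le_total y x with h | h
      · exact hA3 y (closure_mono inter_subset_left hy) h hyF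
      · exact hB3 y (closure_mono inter_subset_right hy) h hyF
  obtain ⟨O, ⟨h1, h2, h3, h4⟩, h5, h6⟩ := key
  exact ⟨O, h1, h5, h6, h2, h3, h4⟩

theorem indLT_two_F_base_emb {B X : Type} {h : X → B} [TopologicalSpace B] [TopologicalSpace X]
    (hh : Continuous h) : IsEmbedding (Tot.base : B → Tot h) := by
  have h1 : Continuous (Tot.base : B → Tot h) := by
    rw [continuous_def]
    intro U hU
    exact (Tot.isOpen_iff.1 hU).1
  have h2 : Continuous (Tot.proj : Tot h → B) := by
    rw [continuous_def]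
    intro O hO
    rw [Tot.isOpen_iff]
    refine ⟨hO, fun a => hO.preimage hh, fun b hb => ⟨O, hO, hb, ∅, countable_empty, ?_⟩⟩
    intro a _ x hx
    exact hx
  exact Function.LeftInverse.isEmbedding (f := Tot.proj) (fun b => rfl) h2 h1

theorem indLT_two_F_RJ_countable (i : Bool) (j : I) (r : Bool) : (RJ i j r).Countable := by
  have h1 : {x : I | RatI x}.Countable := by
    have h2 : (range (fun q : ℚ => (q : ℝ))).Countable := countable_range _
    have h3 := h2.preimage (f := (Subtype.val : I → ℝ)) Subtype.val_injective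
    refine h3.mono ?_
    rintro x ⟨q, hq⟩
    exact ⟨q, hq.symm⟩
  exact h1.mono fun x hx => hx.1

theorem indLT_two_F_EC_mono {T : Type} [MetricSpace T] {O : Set T} {p : T} {R R' : Set T}
    (hR : R' ⊆ R) (h : Cm.EC O p R) : Cm.EC O p R' := by
  rcases h with h | h
  · exact Or.inl (h.mono fun x hx hxR => hx (hR hxR))
  · exact Or.inr (h.mono fun x hx hxR => hx (hR hxR))

theorem indLT_two_F_EC (i : Bool) (O : Set I) (hfr : frontier O ⊆ G i)
    (hEC : ∀ j : I, Cm.EC O j {x | j < x} ∧ Cm.EC O j {x | x < j}) (j : I) (r : Bool) :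
    Cm.EC O j (RJ i j r) := by
  by_cases hj : j ∈ G i
  · cases r with
    | true =>
      refine indLT_two_F_EC_mono ?_ (hEC j).1
      rintro x ⟨-, -, h3⟩
      exact (h3.2 rfl).2
    | false =>
      refine indLT_two_F_EC_mono ?_ (hEC j).2
      rintro x ⟨-, h2, h3⟩
      have h4 : ¬ (j ∈ G i ∧ j < x) := fun h => Bool.false_ne_true (h3.1 h)
      have h5 : ¬ j < x := fun h => h4 ⟨hj, h⟩
      exact lt_of_le_of_ne (not_lt.1 h5) h2
  · have h1 : j ∉ frontier O := fun h => hj (hfr h)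
    by_cases h2 : j ∈ closure O
    · left
      have h3 : j ∈ interior O := by
        by_contra h4
        exact h1 ⟨h2, h4⟩
      filter_upwards [mem_interior_iff_mem_nhds.1 h3] with x hx _
      exact hx
    · right
      have h3 : (closure O)ᶜ ∈ 𝓝 j := isClosed_closure.isOpen_compl.mem_nhds h2
      filter_upwards [h3] with x hx _ hxO
      exact hx (subset_closure hxO)

/-- One type alone: dimension at most one. -/
theorem indLT_two_F {S : Type} (i : Bool) : IndLT 2 (Tot (hG (fun _ : S => i))) := by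
  have hh := continuous_hG (fun _ : S => i)
  apply Tot.indLT_tot hh (n := 1)
  · apply IndLT.of_fibers (Sigma.fst : XG (fun _ : S => i) → S × I × Bool)
    · intro a
      exact isOpen_sigma_fst_preimage _
    · intro a
      have : Countable (Cm a.2.1 (RJ i a.2.1 a.2.2)) :=
        Cm.countable (indLT_two_F_RJ_countable i a.2.1 a.2.2)
      have h1 : IndLT 2 (Cm a.2.1 (RJ i a.2.1 a.2.2) × I) := IndLT.countable_prod_I _
      refine IndLT.of_subset_range (e := (Sigma.mk a : _ → XG (fun _ : S => i)))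
        Topology.IsEmbedding.sigmaMk ?_ ?_ h1
      · rw [← isOpen_compl_iff, ← preimage_compl]
        exact isOpen_sigma_fst_preimage _
      · rintro ⟨b, x⟩ hb
        have hb' : b = a := hb
        subst hb'
        exact ⟨x, rfl⟩
  · intro F F' hF hF' hd
    obtain ⟨O, hO, hFO, hd', hfin, hfr, hEC⟩ := interval_sep i hF hF' hd
    refine ⟨O, hO, hFO, hd', ?_⟩
    have hclopen : ∀ a : S × I × Bool, IsClopen (Cm.st a.2.1 (RJ i a.2.1 a.2.2) O) := by
      intro a
      rw [isClopen_iff_frontier_eq_empty]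
      exact Cm.frontier_st_of_EC (indLT_two_F_EC i O hfr hEC a.2.1 a.2.2)
    let V : Set (XG (fun _ : S => i)) :=
      {z | z.2.1 ∈ Cm.st z.1.2.1 (RJ i z.1.2.1 z.1.2.2) O}
    have hVo : IsOpen V := by
      rw [isOpen_sigma_iff]
      intro a
      exact (hclopen a).isOpen.preimage continuous_fst
    have hVc : IsClosed V := by
      rw [isClosed_sigma_iff]
      intro a
      exact (hclopen a).isClosed.preimage continuous_fst
    refine ⟨V, hVo, ?_, ?_, ?_⟩
    · intro z hz
      exact Cm.preimage_subset_st hO hz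
    · rw [hVc.closure_eq]
      intro z hz
      exact Cm.st_subset O hz
    · have hVf : frontier V = ∅ := isClopen_iff_frontier_eq_empty.1 ⟨hVc, hVo⟩
      have hcount : Countable (frontier O) := hfin.countable.to_subtype
      have h1 : IndLT 1 (frontier O) := IndLT.of_countable _
      refine IndLT.of_subset_range
        (e := fun b : frontier O => (Tot.base b.1 : Tot (hG (fun _ : S => i))))
        ((indLT_two_F_base_emb hh).comp IsEmbedding.subtypeVal) ?_ ?_ h1
      · rw [← isOpen_compl_iff, Tot.isOpen_iff]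
        refine ⟨isClosed_frontier.isOpen_compl, fun a => ?_, fun b hb => ?_⟩
        · have : {x | (Tot.fib a x : Tot (hG (fun _ : S => i))) ∈
              (Tot.sub (hG (fun _ : S => i)) (frontier O) (frontier V))ᶜ} = (frontier V)ᶜ := rfl
          rw [this]
          exact isClosed_frontier.isOpen_compl
        · refine ⟨univ, isOpen_univ, mem_univ _, ∅, countable_empty, ?_⟩
          intro a _ x _ hx
          have hx' : x ∈ frontier V := hx
          rw [hVf] at hx'
          exact hx'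
      · intro y hy
        cases y with
        | base b => exact ⟨⟨b, hy⟩, rfl⟩
        | fib a x =>
          have hx' : x ∈ frontier V := hy
          rw [hVf] at hx'
          exact absurd hx' (notMem_empty x)

namespace Dat

variable {T Q : Type} [MetricSpace T] (D : Dat T Q)

theorem continuous_hE (p : T) : Continuous (D.hE p) := by
  apply continuous_sigma
  intro a
  have h1 : Continuous (fun z : Cm a.2.1 (RJ a.1.1 a.2.1 a.2.2) ×
      Cm p (D.RC a.1.1 a.1.2 p) × I => Cm.toT z.1) :=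
    Cm.continuous_toT.comp continuous_fst
  have h2 : Continuous (fun z : Cm a.2.1 (RJ a.1.1 a.2.1 a.2.2) ×
      Cm p (D.RC a.1.1 a.1.2 p) × I => Cm.incl (D.RC_subset a.1.1 a.1.2 p) z.2.1) :=
    (Cm.continuous_incl _).comp (continuous_fst.comp continuous_snd)
  exact h1.prodMk h2

theorem continuous_sec (p : T) : Continuous (D.sec p) :=
  continuous_snd.comp (Tot.continuous_proj (D.continuous_hE p))

theorem continuous_hY : Continuous D.hY := by
  apply continuous_sigma
  intro p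
  exact Cm.continuous_toT.comp (D.continuous_sec p)

theorem countable_RJ (i : Bool) (j : I) (r : Bool) : (RJ i j r).Countable := by
  have h1 : (RJ i j r) ⊆ (fun x : I => (x : ℝ)) ⁻¹' (range (fun q : ℚ => (q : ℝ))) := by
    intro x hx
    obtain ⟨q, hq⟩ := hx.1
    exact ⟨q, hq.symm⟩
  exact ((countable_range _).preimage_of_injOn (Subtype.val_injective.injOn)).mono h1

theorem indLT_XE (p : T) (hR : (D.R p).Countable) : IndLT 2 (D.XE p) := by
  refine IndLT.of_fibers (fun z : D.XE p => z.1) (fun i => isOpen_sigma_fst_preimage {i}) ?_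
  intro i
  have hcl : IsClosed ((fun z : D.XE p => z.1) ⁻¹' {i}) := by
    rw [← isOpen_compl_iff, ← preimage_compl]
    exact isOpen_sigma_fst_preimage _
  have he : IsEmbedding (fun y : Cm i.2.1 (RJ i.1.1 i.2.1 i.2.2) × Cm p (D.RC i.1.1 i.1.2 p) × I =>
      (⟨i, y⟩ : D.XE p)) :=
    IsEmbedding.sigmaMk (σ := fun a : (Bool × Q) × I × Bool =>
      Cm a.2.1 (RJ a.1.1 a.2.1 a.2.2) × Cm p (D.RC a.1.1 a.1.2 p) × I)
  refine IndLT.of_subset_range he hcl ?_ ?_
  · rintro ⟨j, y⟩ hy
    obtain rfl : j = i := hy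
    exact ⟨y, rfl⟩
  · have : Countable (Cm i.2.1 (RJ i.1.1 i.2.1 i.2.2)) := Cm.countable (countable_RJ _ _ _)
    have : Countable (Cm p (D.RC i.1.1 i.1.2 p)) :=
      Cm.countable (hR.mono (D.RC_subset _ _ _))
    exact IndLT.of_isClosedEmbedding (Homeomorph.prodAssoc _ _ _).symm.isClosedEmbedding
      (IndLT.countable_prod_I (Cm i.2.1 (RJ i.1.1 i.2.1 i.2.2) × Cm p (D.RC i.1.1 i.1.2 p)))

theorem indLT_E (p : T) (hR : (D.R p).Countable) : IndLT 3 (D.E p) := by
  have : Countable (Cm p (D.R p)) := Cm.countable hR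
  have : SecondCountableTopology (Cm p (D.R p)) :=
    UniformSpace.secondCountable_of_separable _
  exact Tot.indLT_tot_one (D.continuous_hE p) (D.indLT_XE p hR)
    (IndLT.of_isClosedEmbedding (Homeomorph.prodComm _ _).isClosedEmbedding
      (IndLT.countable_prod_I (Cm p (D.R p))))

/-- The copies of the spaces over `I` in the attached space at `p`. -/
def gE {S : Type} (p : T) (g : S → Bool × Q) (z : XG (fun s => (g s).1)) : D.XE p :=
  ⟨(g z.1.1, z.1.2), (z.2.1, (Cm.ctr, z.2.2))⟩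

theorem job10215_sigma {ι κ : Type*} {σ : ι → Type*} {τ : κ → Type*}
    [∀ i, TopologicalSpace (σ i)] [∀ k, TopologicalSpace (τ k)] {f₁ : ι → κ}
    {f₂ : ∀ i, σ i → τ (f₁ i)} (h : Function.Injective f₁) (hf : ∀ i, IsClosedEmbedding (f₂ i)) :
    IsClosedEmbedding (Sigma.map f₁ f₂) := by
  refine ⟨(isEmbedding_sigmaMap h).2 (fun i => (hf i).isEmbedding), ?_⟩
  rw [isClosed_sigma_iff]
  intro k
  by_cases hk : ∃ i, f₁ i = k
  · obtain ⟨i, rfl⟩ := hk
    have : Sigma.mk (f₁ i) ⁻¹' (range (Sigma.map f₁ f₂)) = range (f₂ i) := by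
      ext y
      constructor
      · rintro ⟨⟨i', x⟩, hx⟩
        have h1 : f₁ i' = f₁ i := congrArg Sigma.fst hx
        have h2 := h h1
        subst h2
        have h3 : f₂ i' x = y := by
          simpa [Sigma.map] using hx
        exact ⟨x, h3⟩
      · rintro ⟨x, rfl⟩
        exact ⟨⟨i, x⟩, rfl⟩
    rw [this]
    exact (hf i).isClosed_range
  · have : Sigma.mk k ⁻¹' (range (Sigma.map f₁ f₂)) = ∅ := by
      ext y
      simp only [mem_preimage, mem_range, mem_empty_iff_false, iff_false]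
      rintro ⟨⟨i', x⟩, hx⟩
      exact hk ⟨i', congrArg Sigma.fst hx⟩
    rw [this]
    exact isClosed_empty

theorem isClosedEmbedding_gE {S : Type} (p : T) {g : S → Bool × Q} (hg : Function.Injective g) :
    IsClosedEmbedding (D.gE p g) := by
  have h1 : Function.Injective (fun a : S × I × Bool => ((g a.1, a.2) : (Bool × Q) × I × Bool)) := by
    rintro ⟨s, a⟩ ⟨s', a'⟩ h
    simp only [Prod.mk.injEq] at h
    obtain ⟨h2, h3⟩ := h
    rw [hg h2, h3]
  exact job10215_sigma (f₁ := fun a : S × I × Bool => ((g a.1, a.2) : (Bool × Q) × I × Bool))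
    (σ := fun a : S × I × Bool => Cm a.2.1 (RJ (g a.1).1 a.2.1 a.2.2) × I)
    (τ := fun a : (Bool × Q) × I × Bool =>
      Cm a.2.1 (RJ a.1.1 a.2.1 a.2.2) × Cm p (D.RC a.1.1 a.1.2 p) × I)
    (f₂ := fun a z => (z.1, (Cm.ctr, z.2))) h1
    (fun a => Function.LeftInverse.isClosedEmbedding (f := fun y => (y.1, y.2.2))
      (fun z => rfl) (by fun_prop) (by fun_prop))

/-- The copy of `Tot (hG τ)` over the centre of the comet. -/
def mE {S : Type} (p : T) (g : S → Bool × Q) : Tot (hG (fun s => (g s).1)) → D.E p :=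
  Tot.map (fun j => (j, Cm.ctr)) (D.gE p g)

theorem isClosedEmbedding_mE {S : Type} (p : T) {g : S → Bool × Q} (hg : Function.Injective g) :
    IsClosedEmbedding (D.mE p g) := by
  refine Tot.isClosedEmbedding_map ?_ (D.isClosedEmbedding_gE p hg) ?_
  · exact Function.LeftInverse.isClosedEmbedding (f := Prod.fst)
      (fun z => rfl) (by fun_prop) (by fun_prop)
  · intro x
    rfl

/-- The open set over `O` in the attached space at `p`. -/
def Vset (p : T) (O : Set T) : Set (D.E p) :=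
  Tot.sub (D.hE p) {b | b.2 ∈ Cm.st p (D.R p) O} {z | z.2.2.1 ∈ Cm.st p (D.RC z.1.1.1 z.1.1.2 p) O}

theorem isOpen_Vset (p : T) (O : Set T) : IsOpen (D.Vset p O) := by
  apply Tot.isOpen_sub
  · exact (Cm.isOpen_st O).preimage continuous_snd
  · rw [isOpen_sigma_iff]
    intro a
    have h : Continuous (fun w : Cm a.2.1 (RJ a.1.1 a.2.1 a.2.2) × Cm p (D.RC a.1.1 a.1.2 p) × I =>
        w.2.1) := continuous_fst.comp continuous_snd
    exact (Cm.isOpen_st (p := p) (R := D.RC a.1.1 a.1.2 p) O).preimage h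
  · intro z hz
    exact Cm.incl_preimage_st (D.RC_subset _ _ _) O hz

omit [MetricSpace T] in
theorem aux_toT_incl {T' : Type} [MetricSpace T'] {p : T'} {R R' : Set T'} (h : R ⊆ R')
    (y : Cm p R) : Cm.toT (Cm.incl h y) = Cm.toT y := by
  cases y <;> rfl

theorem preimage_subset_Vset (p : T) {O : Set T} (hO : IsOpen O) :
    {e : D.E p | Cm.toT (D.sec p e) ∈ O} ⊆ D.Vset p O := by
  intro e he
  cases e with
  | base b =>
    exact Cm.preimage_subset_st hO he
  | fib a z =>
    have he' : Cm.toT (Cm.incl (D.RC_subset z.1.1.1 z.1.1.2 p) z.2.2.1) ∈ O := he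
    rw [aux_toT_incl] at he'
    exact Cm.preimage_subset_st hO he'

theorem closure_Vset_subset (p : T) (O : Set T) :
    closure (D.Vset p O) ⊆ {e : D.E p | Cm.toT (D.sec p e) ∈ closure O} := by
  apply closure_minimal
  · intro e he
    cases e with
    | base b =>
      exact Cm.st_subset O he
    | fib a z =>
      have h1 : z.2.2.1 ∈ Cm.st p (D.RC z.1.1.1 z.1.1.2 p) O := he
      have h2 : Cm.toT z.2.2.1 ∈ closure O := Cm.st_subset O h1
      show Cm.toT (Cm.incl (D.RC_subset z.1.1.1 z.1.1.2 p) z.2.2.1) ∈ closure O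
      rw [aux_toT_incl]
      exact h2
  · exact isClosed_closure.preimage (Cm.continuous_toT.comp (D.continuous_sec p))

theorem mem_frontier_st_10217 {p : T} {R O : Set T} {c : Cm p R}
    (h1 : c ∈ closure (Cm.st p R O)) (h2 : c ∉ Cm.st p R O) : c ∈ frontier (Cm.st p R O) := by
  rw [frontier, (Cm.isOpen_st O).interior_eq]
  exact ⟨h1, h2⟩

theorem isOpen_K_10217 (p : T) (O : Set T) :
    IsOpen {z : D.XE p | z.2.2.1 ∈ Cm.st p (D.RC z.1.1.1 z.1.1.2 p) O} := by
  rw [isOpen_sigma_iff]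
  intro a
  exact (Cm.isOpen_st O).preimage (continuous_fst.comp continuous_snd)

theorem closure_K_10217 (p : T) (O : Set T) :
    closure {z : D.XE p | z.2.2.1 ∈ Cm.st p (D.RC z.1.1.1 z.1.1.2 p) O} ⊆
      {z : D.XE p | z.2.2.1 ∈ closure (Cm.st p (D.RC z.1.1.1 z.1.1.2 p) O)} := by
  apply closure_minimal
  · intro z hz
    exact subset_closure hz
  · rw [isClosed_sigma_iff]
    intro a
    have hc : Continuous (fun y : Cm a.2.1 (RJ a.1.1 a.2.1 a.2.2) ×
        Cm p (D.RC a.1.1 a.1.2 p) × I => y.2.1) := continuous_fst.comp continuous_snd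
    exact (isClosed_closure (s := Cm.st p (D.RC a.1.1 a.1.2 p) O)).preimage hc

theorem isOpen_D_10217 (p : T) (O : Set T) :
    IsOpen {b : I × Cm p (D.R p) | b.2 ∈ Cm.st p (D.R p) O} :=
  (Cm.isOpen_st O).preimage continuous_snd

theorem hsub_10217 (p : T) (O : Set T) :
    D.hE p ⁻¹' {b : I × Cm p (D.R p) | b.2 ∈ Cm.st p (D.R p) O} ⊆
      {z : D.XE p | z.2.2.1 ∈ Cm.st p (D.RC z.1.1.1 z.1.1.2 p) O} := by
  intro z hz
  exact Cm.incl_preimage_st (D.RC_subset _ _ _) O hz

theorem incl_closure_10217 (p : T) {O : Set T} (hO : IsOpen O) (hR : Dense (D.R p)) (i : Bool)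
    (q : Q) (c : Cm p (D.RC i q p)) (hc : c ∈ closure (Cm.st p (D.RC i q p) O)) :
    Cm.incl (D.RC_subset i q p) c ∈ closure (Cm.st p (D.R p) O) := by
  by_cases hst : c ∈ Cm.st p (D.RC i q p) O
  · cases c with
    | none =>
      obtain ⟨_, hp⟩ := hst
      exact Cm.ctr_mem_closure_st hO hR hp
    | some x =>
      apply subset_closure
      exact hst
  · have h1 := Cm.frontier_st O (mem_frontier_st_10217 hc hst)
    have h2 : c = Cm.ctr := h1
    subst h2
    have h3 : closure (Cm.st p (D.RC i q p) O) ⊆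
        (Cm.toT : Cm p (D.RC i q p) → T) ⁻¹' closure O :=
      closure_minimal (Cm.st_subset O) (isClosed_closure.preimage Cm.continuous_toT)
    have hp : p ∈ closure O := h3 hc
    exact Cm.ctr_mem_closure_st hO hR hp

/-- The boundary lies over the centre and in the bad classes. -/
theorem frontier_Vset_subset (p : T) {O : Set T} (hO : IsOpen O) (hR : Dense (D.R p)) (i0 : Bool)
    (hEC : ∀ i, i ≠ i0 → ∀ q, Cm.EC O p (D.RC i q p)) :
    frontier (D.Vset p O) ⊆ range (D.mE p (fun q : Q => (i0, q))) := by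
  have hcl : closure {z : D.XE p | z.2.2.1 ∈ Cm.st p (D.RC z.1.1.1 z.1.1.2 p) O} ⊆
      D.hE p ⁻¹' (closure {b : I × Cm p (D.R p) | b.2 ∈ Cm.st p (D.R p) O}) := by
    intro z hz
    have h1 := D.closure_K_10217 p O hz
    have h2 := D.incl_closure_10217 p hO hR _ _ _ h1
    have h3 : closure {b : I × Cm p (D.R p) | b.2 ∈ Cm.st p (D.R p) O} =
        Prod.snd ⁻¹' closure (Cm.st p (D.R p) O) :=
      (isOpenMap_snd.preimage_closure_eq_closure_preimage continuous_snd _).symm
    rw [h3]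
    exact h2
  have hfr := Tot.frontier_sub_subset (D.isOpen_D_10217 p O) (D.isOpen_K_10217 p O)
    (D.hsub_10217 p O) hcl
  intro e he
  have he2 := hfr he
  cases e with
  | base b =>
    have h1 : b ∈ frontier {b : I × Cm p (D.R p) | b.2 ∈ Cm.st p (D.R p) O} := he2
    have h3 : frontier {b : I × Cm p (D.R p) | b.2 ∈ Cm.st p (D.R p) O} =
        Prod.snd ⁻¹' frontier (Cm.st p (D.R p) O) :=
      (isOpenMap_snd.preimage_frontier_eq_frontier_preimage continuous_snd _).symm
    rw [h3] at h1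
    have h4 : b.2 = Cm.ctr := Cm.frontier_st O h1
    refine ⟨Tot.base b.1, ?_⟩
    obtain ⟨b1, b2⟩ := b
    simp only at h4
    subst h4
    rfl
  | fib a z =>
    have h1 : z ∈ frontier {z : D.XE p | z.2.2.1 ∈ Cm.st p (D.RC z.1.1.1 z.1.1.2 p) O} := he2
    rw [frontier, (D.isOpen_K_10217 p O).interior_eq] at h1
    obtain ⟨h5, h6⟩ := h1
    have h7 := D.closure_K_10217 p O h5
    have h8 : z.2.2.1 ∈ frontier (Cm.st p (D.RC z.1.1.1 z.1.1.2 p) O) :=
      mem_frontier_st_10217 h7 h6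
    have h9 : z.2.2.1 = Cm.ctr := Cm.frontier_st O h8
    have h10 : z.1.1.1 = i0 := by
      by_contra hne
      rw [Cm.frontier_st_of_EC (hEC _ hne z.1.1.2)] at h8
      exact h8
    obtain ⟨⟨⟨i, q⟩, j, r⟩, x, c, s⟩ := z
    simp only at h9 h10
    subst h9
    subst h10
    exact ⟨Tot.fib a ⟨(q, j, r), (x, s)⟩, rfl⟩

theorem mem_Vset_of_sec_10217 (p : T) (O : Set T) (x : T) (h : x ∈ D.R p ∧ x ≠ p) (e : D.E p)
    (he : D.sec p e = Cm.pt x h) : e ∈ D.Vset p O ↔ x ∈ O := by
  cases e with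
  | base b =>
    have h1 : b.2 = Cm.pt x h := he
    show b.2 ∈ Cm.st p (D.R p) O ↔ x ∈ O
    rw [h1]
    exact Cm.pt_mem_st
  | fib a z =>
    obtain ⟨⟨⟨i, q⟩, j, r⟩, y, c, s⟩ := z
    have h1 : Cm.incl (D.RC_subset i q p) c = Cm.pt x h := he
    show c ∈ Cm.st p (D.RC i q p) O ↔ x ∈ O
    cases c with
    | none => exact absurd h1 (by intro h2; cases h2)
    | some w =>
      have h2 : (some ⟨w.1, (D.RC_subset i q p) w.2.1, w.2.2⟩ :
          Option {x : T // x ∈ D.R p ∧ x ≠ p}) = some ⟨x, h⟩ := h1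
      have h3 : w.1 = x := by
        have := Option.some.inj h2
        exact congrArg Subtype.val this
      rw [← h3]
      exact Iff.rfl

theorem frontier_Vset_sec (p : T) {O : Set T} (hO : IsOpen O) {e : D.E p}
    (he : e ∈ frontier (D.Vset p O)) : D.sec p e = Cm.ctr := by
  by_contra hne
  obtain ⟨x, h, hx⟩ : ∃ (x : T) (h : x ∈ D.R p ∧ x ≠ p), D.sec p e = Cm.pt x h := by
    generalize D.sec p e = c at hne
    cases c with
    | none => exact absurd rfl hne
    | some w => exact ⟨w.1, w.2, rfl⟩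
  have hW : IsOpen (D.sec p ⁻¹' ({Cm.pt x h} : Set (Cm p (D.R p)))) :=
    (Cm.isOpen_pt x h).preimage (D.continuous_sec p)
  have heW : e ∈ D.sec p ⁻¹' ({Cm.pt x h} : Set (Cm p (D.R p))) := hx
  by_cases hxO : x ∈ O
  · have h1 : D.sec p ⁻¹' ({Cm.pt x h} : Set (Cm p (D.R p))) ⊆ D.Vset p O := fun e' he' =>
      (D.mem_Vset_of_sec_10217 p O x h e' he').2 hxO
    exact he.2 (interior_maximal h1 hW heW)
  · have h1 : e ∈ closure (D.Vset p O) := he.1
    rw [mem_closure_iff] at h1
    obtain ⟨e', he'W, he'V⟩ := h1 _ hW heW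
    exact hxO ((D.mem_Vset_of_sec_10217 p O x h e' he'W).1 he'V)

/-- The union of the sets `Vset`. -/
def VV (O : Set T) : Set (Σ p, D.E p) := {z | z.2 ∈ D.Vset z.1 O}

theorem isOpen_VV (O : Set T) : IsOpen (D.VV O) := by
  rw [isOpen_sigma_iff]
  intro p
  exact D.isOpen_Vset p O

theorem preimage_subset_VV {O : Set T} (hO : IsOpen O) : D.hY ⁻¹' O ⊆ D.VV O := by
  intro z hz
  exact D.preimage_subset_Vset z.1 hO hz

theorem closure_VV_subset_aux (O : Set T) :
    closure (D.VV O) ⊆ {z | z.2 ∈ closure (D.Vset z.1 O)} := by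
  apply closure_minimal
  · intro z hz
    exact subset_closure hz
  · rw [isClosed_sigma_iff]
    intro p
    exact (isClosed_closure : IsClosed (closure (D.Vset p O)))

theorem closure_VV_subset (O : Set T) : closure (D.VV O) ⊆ D.hY ⁻¹' (closure O) := by
  intro z hz
  exact D.closure_Vset_subset z.1 O (D.closure_VV_subset_aux O hz)

theorem frontier_VV_subset (O : Set T) :
    frontier (D.VV O) ⊆ {z | z.2 ∈ frontier (D.Vset z.1 O)} := by
  intro z hz
  refine ⟨D.closure_VV_subset_aux O hz.1, fun h => hz.2 ?_⟩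
  rw [(D.isOpen_VV O).interior_eq]
  have h2 : z.2 ∈ D.Vset z.1 O := interior_subset h
  exact h2

/-- The planar condition. -/
def PL : Prop := ∀ A A' : Set T, IsClosed A → IsClosed A' → Disjoint A A' →
  ∃ O : Set T, IsOpen O ∧ A ⊆ O ∧ Disjoint (closure O) A' ∧ IndLT 2 (frontier O) ∧
    ∀ p, ∃ i0 : Bool, ∀ i, i ≠ i0 → ∀ q, Cm.EC O p (D.RC i q p)

theorem indLT_frontier_VV {O : Set T} (hO : IsOpen O) (hR : ∀ p, Dense (D.R p))
    (hp : ∀ p, ∃ i0 : Bool, ∀ i, i ≠ i0 → ∀ q, Cm.EC O p (D.RC i q p)) :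
    IndLT 2 (frontier (D.VV O)) := by
  refine IndLT.of_fibers (κ := fun z : frontier (D.VV O) => z.1.1) ?_ ?_
  · intro p
    have h1 : IsOpen {z : Σ p, D.E p | z.1 = p} := by
      have h2 : {z : Σ p, D.E p | z.1 = p} = range (Sigma.mk p) := by
        ext ⟨q, x⟩
        constructor
        · intro h
          have h' : q = p := h
          subst h'
          exact ⟨x, rfl⟩
        · rintro ⟨y, hy⟩
          have := congrArg Sigma.fst hy
          exact this.symm
      rw [h2]
      exact isOpen_range_sigmaMk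
    exact h1.preimage continuous_subtype_val
  · intro p
    have hcl : IsClosed (Sigma.mk p ⁻¹' frontier (D.VV O) : Set (D.E p)) :=
      isClosed_frontier.preimage continuous_sigmaMk
    obtain ⟨i0, hi0⟩ := hp p
    have hsub : (Sigma.mk p ⁻¹' frontier (D.VV O) : Set (D.E p)) ⊆
        range (D.mE p (fun q : Q => (i0, q))) := by
      intro x hx
      exact D.frontier_Vset_subset p hO (hR p) i0 hi0 (D.frontier_VV_subset O hx)
    have hinj : Function.Injective (fun q : Q => ((i0, q) : Bool × Q)) := by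
      intro a b hab
      exact congrArg Prod.snd hab
    have hI : IndLT 2 (Sigma.mk p ⁻¹' frontier (D.VV O) : Set (D.E p)) :=
      IndLT.of_subset_range (D.isClosedEmbedding_mE p hinj).isEmbedding hcl hsub (indLT_two_F i0)
    let j : (Sigma.mk p ⁻¹' frontier (D.VV O) : Set (D.E p)) →
        ((fun z : frontier (D.VV O) => z.1.1) ⁻¹' {p} : Set (frontier (D.VV O))) :=
      fun x => ⟨⟨⟨p, x.1⟩, x.2⟩, rfl⟩
    have hj : IsEmbedding j := by
      have hc : Continuous j := by
        apply Continuous.subtype_mk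
        apply Continuous.subtype_mk
        exact continuous_sigmaMk.comp continuous_subtype_val
      have he : IsEmbedding ((Subtype.val ∘ Subtype.val) ∘ j) :=
        IsEmbedding.sigmaMk.comp IsEmbedding.subtypeVal
      exact IsEmbedding.of_comp hc (continuous_subtype_val.comp continuous_subtype_val) he
    have hs : Function.Surjective j := by
      rintro ⟨⟨⟨q, x⟩, hx⟩, hq⟩
      have hq' : q = p := hq
      subst hq'
      exact ⟨⟨x, hx⟩, rfl⟩
    exact IndLT.of_isClosedEmbedding (hj.toHomeomorphOfSurjective hs).symm.isClosedEmbedding hI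

/-- the disjoint sum of the attached spaces -/
theorem indLT_sigmaE (hR : ∀ p, (D.R p).Countable) : IndLT 3 (Σ p, D.E p) := by
  refine IndLT.of_fibers (Sigma.fst : (Σ p, D.E p) → T) (fun i => isOpen_sigma_fst_preimage {i})
    (fun i => ?_)
  have hemb : IsEmbedding (Sigma.mk i : D.E i → Σ p, D.E p) :=
    IsOpenEmbedding.sigmaMk.isEmbedding
  refine IndLT.of_subset_range hemb ?_ ?_ (D.indLT_E i (hR i))
  · have h := isOpen_sigma_fst_preimage (σ := fun p => D.E p) ({i}ᶜ : Set T)
    rw [preimage_compl] at h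
    exact isOpen_compl_iff.mp h
  · rw [range_sigmaMk]

theorem hY_of_frontier {O : Set T} (hO : IsOpen O) {z : Σ p, D.E p}
    (hz : z ∈ frontier (D.VV O)) : D.hY z = z.1 := by
  have h1 : z.2 ∈ frontier (D.Vset z.1 O) := D.frontier_VV_subset O hz
  have h2 := D.frontier_Vset_sec z.1 hO h1
  change Cm.toT (D.sec z.1 z.2) = z.1
  rw [h2]
  rfl

theorem mapsTo_frontier_VV {O : Set T} (hO : IsOpen O) :
    MapsTo D.hY (frontier (D.VV O)) (frontier O) := by
  intro z hz
  rw [(D.isOpen_VV O).frontier_eq] at hz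
  rw [hO.frontier_eq]
  exact ⟨D.closure_VV_subset O hz.1, fun h => hz.2 (D.preimage_subset_VV hO h)⟩

/-- The upper bound. -/
theorem indLT_Y [SecondCountableTopology T] (hR : ∀ p, (D.R p).Countable)
    (hR' : ∀ p, Dense (D.R p)) (hPL : D.PL) : IndLT 3 D.Y := by
  refine Tot.indLT_tot (h := D.hY) D.continuous_hY (n := 2) (D.indLT_sigmaE hR) ?_
  intro F F' hF hF' hd
  obtain ⟨O, hO, hFO, hOF', hfr, hp⟩ := hPL F F' hF hF' hd
  refine ⟨O, hO, hFO, hOF', D.VV O, D.isOpen_VV O, D.preimage_subset_VV hO,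
    D.closure_VV_subset O, ?_⟩
  have hm := D.mapsTo_frontier_VV hO
  refine Tot.indLT_sub isClosed_frontier isClosed_frontier hm ?_
  refine Tot.indLT_tot_const (n := 1) ?_ (D.indLT_frontier_VV hO hR' hp) hfr
  intro s
  have e : hm.restrict D.hY (frontier (D.VV O)) (frontier O) ⁻¹' s =
      (Subtype.val : frontier (D.VV O) → Σ p, D.E p) ⁻¹'
        ((Sigma.fst : (Σ p, D.E p) → T) ⁻¹' ((Subtype.val : frontier O → T) '' s)) := by
    ext w
    have h1 : D.hY w.1 = w.1.1 := D.hY_of_frontier hO w.2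
    constructor
    · intro h
      exact ⟨_, h, h1⟩
    · rintro ⟨y, hy, hyw⟩
      have h2 : hm.restrict D.hY (frontier (D.VV O)) (frontier O) w = y := by
        apply Subtype.ext
        rw [hyw, ← h1]
        rfl
      change hm.restrict D.hY (frontier (D.VV O)) (frontier O) w ∈ s
      rw [h2]
      exact hy
  rw [e]
  exact (isOpen_sigma_fst_preimage _).preimage continuous_subtype_val

omit [MetricSpace T] in
/-- a sum of normal spaces is normal -/
theorem sigma_normal_10221 {ι : Type} {X : ι → Type} [∀ i, TopologicalSpace (X i)]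
    (h : ∀ i, NormalSpace (X i)) : NormalSpace (Σ i, X i) := by
  refine ⟨fun s t hs ht hst => ?_⟩
  have h1 : ∀ i, SeparatedNhds (Sigma.mk i ⁻¹' s) (Sigma.mk i ⁻¹' t) := fun i =>
    (h i).normal _ _ (hs.preimage continuous_sigmaMk) (ht.preimage continuous_sigmaMk)
      (hst.preimage _)
  choose U V hU hV hsU htV hUV using h1
  refine ⟨{x | x.2 ∈ U x.1}, {x | x.2 ∈ V x.1}, isOpen_sigma_iff.2 (fun i => hU i),
    isOpen_sigma_iff.2 (fun i => hV i), ?_, ?_, ?_⟩
  · rintro ⟨i, x⟩ hx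
    exact hsU i hx
  · rintro ⟨i, x⟩ hx
    exact htV i hx
  · rw [Set.disjoint_left]
    rintro ⟨i, x⟩ hx hy
    exact Set.disjoint_left.1 (hUV i) hx hy

omit [MetricSpace T] in
theorem prod_sigma_normal_10221 {ι M : Type} {X : ι → Type} [TopologicalSpace M]
    [∀ i, TopologicalSpace (X i)] (h : ∀ i, NormalSpace (M × X i)) :
    NormalSpace (M × Σ i, X i) := by
  have h1 : NormalSpace (Σ i, X i × M) := sigma_normal_10221 (fun i => by
    have := h i
    exact (Homeomorph.prodComm M (X i)).normalSpace)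
  exact ((Homeomorph.prodComm M (Σ i, X i)).trans Homeomorph.sigmaProdDistrib).symm.normalSpace

theorem normal_E_10221 (M : Type) [MetricSpace M] (p : T) : NormalSpace (M × D.E p) := by
  obtain ⟨e⟩ := Tot.nonempty_prodHomeo (D.continuous_hE p) M
  have h1 : NormalSpace (M × D.XE p) := prod_sigma_normal_10221 (fun a => inferInstance)
  have h2 : Continuous (fun z : M × D.XE p => ((z.1, D.hE p z.2) : M × (I × Cm p (D.R p)))) :=
    continuous_fst.prodMk ((D.continuous_hE p).comp continuous_snd)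
  have h3 := Tot.normalSpace h2
  exact e.symm.normalSpace

/-- Normality of the product. -/
theorem normalSpace_prod (M : Type) [MetricSpace M] : NormalSpace (M × D.Y) := by
  obtain ⟨e⟩ := Tot.nonempty_prodHomeo D.continuous_hY M
  have h1 : NormalSpace (M × Σ p, D.E p) :=
    prod_sigma_normal_10221 (fun p => D.normal_E_10221 M p)
  have h2 : Continuous (fun z : M × (Σ p, D.E p) => ((z.1, D.hY z.2) : M × T)) :=
    continuous_fst.prodMk (D.continuous_hY.comp continuous_snd)
  have h3 := Tot.normalSpace h2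
  exact e.symm.normalSpace

theorem t2Space_Y : T2Space D.Y := by
  have h1 : ∀ p, T2Space (D.E p) := fun p => Tot.t2Space (D.continuous_hE p)
  exact Tot.t2Space D.continuous_hY

theorem et_L1 (M : Type) [MetricSpace M] (O : Set (M × D.Y)) (hO : IsOpen O) (m' : M) (x : T)
    (h : (m', (Tot.base x : D.Y)) ∈ O) :
    ∃ N : Set ℝ, N.Countable ∧ ∀ a, a ∉ N → ∀ z, D.hY z = x → (m', (Tot.fib a z : D.Y)) ∈ O := by
  have h1 : IsOpen {z : D.Y | (m', z) ∈ O} :=
    hO.preimage (continuous_const.prodMk continuous_id)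
  obtain ⟨-, -, h2⟩ := Tot.isOpen_iff.mp h1
  obtain ⟨O', hO', hx, N, hN, h3⟩ := h2 x h
  exact ⟨N, hN, fun a ha z hz => h3 a ha z (hz ▸ hx)⟩

theorem et_L2 (M : Type) [MetricSpace M] (𝒜 : Set (M × D.Y)) (hA : IsOpen 𝒜) (m : M) (p : T)
    (i : Bool) (q : Q) (a : ℝ) (yA yB : ℕ → M × T) (hyA : Tendsto yA atTop (𝓝 (m, p)))
    (hyB : Tendsto yB atTop (𝓝 (m, p)))
    (hA1 : ∀ l, (yA l).2 ∈ D.RC i q p ∧ (yA l).2 ≠ p)
    (hB1 : ∀ l, (yB l).2 ∈ D.RC i q p ∧ (yB l).2 ≠ p)
    (hA2 : ∀ l, ∀ z, D.hY z = (yA l).2 → ((yA l).1, (Tot.fib a z : D.Y)) ∈ 𝒜)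
    (hB2 : ∀ l, ∀ z, D.hY z = (yB l).2 → ((yB l).1, (Tot.fib a z : D.Y)) ∈ (closure 𝒜)ᶜ)
    (φ : Cm p (D.RC i q p) → D.E p) (hφ : Continuous φ)
    (hφ2 : ∀ c, Cm.toT (D.sec p (φ c)) = Cm.toT c) :
    (m, (Tot.fib a ⟨p, φ Cm.ctr⟩ : D.Y)) ∈ frontier 𝒜 := by
  have key : ∀ (y : ℕ → M × T) (hy : Tendsto y atTop (𝓝 (m, p)))
      (h1 : ∀ l, (y l).2 ∈ D.RC i q p ∧ (y l).2 ≠ p),
      Tendsto (fun l => ((y l).1, (Tot.fib a ⟨p, φ (Cm.pt (y l).2 (h1 l))⟩ : D.Y))) atTop
        (𝓝 (m, (Tot.fib a ⟨p, φ Cm.ctr⟩ : D.Y))) := by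
    intro y hy h1
    have hfst : Tendsto (fun l => (y l).1) atTop (𝓝 m) := (continuous_fst.tendsto _).comp hy
    have hsnd : Tendsto (fun l => (y l).2) atTop (𝓝 p) := (continuous_snd.tendsto _).comp hy
    have hpt : Tendsto (fun l => (Cm.pt (y l).2 (h1 l) : Cm p (D.RC i q p))) atTop
        (𝓝 Cm.ctr) := by
      rw [Cm.nhds_ctr, tendsto_comap_iff]
      exact hsnd
    have hc : Continuous (fun c => (Tot.fib a ⟨p, φ c⟩ : D.Y)) :=
      (Tot.isClosedEmbedding_fib a).continuous.comp (continuous_sigmaMk.comp hφ)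
    exact hfst.prodMk_nhds ((hc.tendsto _).comp hpt)
  have hz : ∀ (x : T) (h : x ∈ D.RC i q p ∧ x ≠ p), D.hY ⟨p, φ (Cm.pt x h)⟩ = x :=
    fun x h => hφ2 _
  have hcl := mem_closure_of_tendsto (key yA hyA hA1)
    (Eventually.of_forall fun l => hA2 l _ (hz _ _))
  have hcl2 := mem_closure_of_tendsto (key yB hyB hB1)
    (Eventually.of_forall fun l => hB2 l _ (hz _ _))
  refine ⟨hcl, fun hin => ?_⟩
  have hsub : closure (closure 𝒜)ᶜ ⊆ 𝒜ᶜ :=
    closure_minimal (compl_subset_compl.mpr subset_closure) hA.isClosed_compl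
  exact hsub hcl2 (interior_subset hin)

theorem et_emb (M : Type) [MetricSpace M] (S : Set (M × D.Y)) (m : M) (p : T) (q : Bool → Q)
    (a : ℝ)
    (hS : ∀ y, (m, (Tot.fib a ⟨p, D.mE p (fun i : Bool => (i, q i)) y⟩ : D.Y)) ∈ S) :
    IsClosedEmbedding (fun y => (⟨(m, (Tot.fib a ⟨p, D.mE p (fun i : Bool => (i, q i)) y⟩ : D.Y)),
      hS y⟩ : S)) := by
  have hinj : Function.Injective (fun i : Bool => (i, q i)) := by
    intro i j h
    exact (Prod.ext_iff.mp h).1
  have h1 : IsClosedEmbedding (D.mE p (fun i : Bool => (i, q i))) := D.isClosedEmbedding_mE p hinj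
  have h2 : IsClosedEmbedding (fun y => (⟨p, D.mE p (fun i : Bool => (i, q i)) y⟩ : Σ p, D.E p)) :=
    IsClosedEmbedding.sigmaMk.comp h1
  have h3 : IsClosedEmbedding
      (fun y => (Tot.fib a ⟨p, D.mE p (fun i : Bool => (i, q i)) y⟩ : D.Y)) :=
    (Tot.isClosedEmbedding_fib a).comp h2
  have h4 : IsClosedEmbedding (fun y : D.Y => (m, y)) := by
    refine ⟨isEmbedding_prodMkRight m, ?_⟩
    have e : range (fun y : D.Y => (m, y)) = {m} ×ˢ univ := by
      ext ⟨m', y⟩
      constructor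
      · rintro ⟨y', hy'⟩
        have := (Prod.ext_iff.mp hy').1
        exact ⟨this.symm, mem_univ _⟩
      · rintro ⟨h, -⟩
        exact ⟨y, Prod.ext (Eq.symm h) rfl⟩
    rw [e]
    exact isClosed_singleton.prod isClosed_univ
  have h5 : IsClosedEmbedding
      (fun y => (m, (Tot.fib a ⟨p, D.mE p (fun i : Bool => (i, q i)) y⟩ : D.Y))) := h4.comp h3
  refine ⟨?_, ?_⟩
  · rw [← IsEmbedding.subtypeVal.of_comp_iff]
    exact h5.isEmbedding
  · have e : range (fun y => (⟨(m, (Tot.fib a ⟨p, D.mE p (fun i : Bool => (i, q i)) y⟩ : D.Y)),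
        hS y⟩ : S)) = Subtype.val ⁻¹'
        (range (fun y => (m, (Tot.fib a ⟨p, D.mE p (fun i : Bool => (i, q i)) y⟩ : D.Y)))) := by
      ext z
      constructor
      · rintro ⟨y, rfl⟩
        exact ⟨y, rfl⟩
      · rintro ⟨y, hy⟩
        exact ⟨y, Subtype.ext hy⟩
    rw [e]
    exact h5.isClosed_range.preimage continuous_subtype_val

/-- The local consequence of a boundary of dimension at most one. -/
theorem exists_type (M : Type) [MetricSpace M] (𝒜 : Set (M × D.Y)) (hA : IsOpen 𝒜)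
    (hind : IndLT 2 (frontier 𝒜)) (hRp : ∀ p, p ∉ D.R p) (m : M) (p : T) :
    ∃ i : Bool, ∀ q : Q, ∃ W ∈ 𝓝 (m, p),
      ¬ ((∃ y ∈ W, y.2 ∈ D.RC i q p ∧ (y.1, (Tot.base y.2 : D.Y)) ∈ 𝒜) ∧
        (∃ y ∈ W, y.2 ∈ D.RC i q p ∧ (y.1, (Tot.base y.2 : D.Y)) ∉ closure 𝒜)) := by
  by_contra hcon
  push Not at hcon
  choose q hq using hcon
  obtain ⟨W, hW⟩ := (𝓝 (m, p)).exists_antitone_basis
  have hWm : ∀ l, W l ∈ 𝓝 (m, p) := fun l => hW.1.mem_of_mem trivial
  choose yA hyAW hyA1 hyA2 using fun (i : Bool) (l : ℕ) => (hq i (W l) (hWm l)).1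
  choose yB hyBW hyB1 hyB2 using fun (i : Bool) (l : ℕ) => (hq i (W l) (hWm l)).2
  have hne : ∀ (i : Bool) (x : T), x ∈ D.RC i (q i) p → x ≠ p := by
    intro i x hx h
    subst h
    exact hRp _ hx.1
  choose NA hNA hNA2 using fun (i : Bool) (l : ℕ) => D.et_L1 M 𝒜 hA _ _ (hyA2 i l)
  choose NB hNB hNB2 using fun (i : Bool) (l : ℕ) =>
    D.et_L1 M (closure 𝒜)ᶜ isClosed_closure.isOpen_compl _ _ (hyB2 i l)
  obtain ⟨a, ha⟩ : ∃ a : ℝ, a ∉ ⋃ i : Bool, ⋃ l : ℕ, (NA i l ∪ NB i l) := by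
    by_contra hcon2
    push Not at hcon2
    have h1 : (⋃ i : Bool, ⋃ l : ℕ, (NA i l ∪ NB i l)).Countable :=
      countable_iUnion fun i => countable_iUnion fun l => (hNA i l).union (hNB i l)
    apply Cardinal.not_countable_real
    rw [← Set.eq_univ_of_forall hcon2]
    exact h1
  have haA : ∀ i l, a ∉ NA i l := fun i l h =>
    ha (mem_iUnion.mpr ⟨i, mem_iUnion.mpr ⟨l, Or.inl h⟩⟩)
  have haB : ∀ i l, a ∉ NB i l := fun i l h =>
    ha (mem_iUnion.mpr ⟨i, mem_iUnion.mpr ⟨l, Or.inr h⟩⟩)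
  have hL2 : ∀ (i : Bool) (φ : Cm p (D.RC i (q i) p) → D.E p), Continuous φ →
      (∀ c, Cm.toT (D.sec p (φ c)) = Cm.toT c) →
      (m, (Tot.fib a ⟨p, φ Cm.ctr⟩ : D.Y)) ∈ frontier 𝒜 := by
    intro i φ hφ hφ2
    exact D.et_L2 M 𝒜 hA m p i (q i) a (yA i) (yB i) (hW.tendsto (hyAW i)) (hW.tendsto (hyBW i))
      (fun l => ⟨hyA1 i l, hne i _ (hyA1 i l)⟩) (fun l => ⟨hyB1 i l, hne i _ (hyB1 i l)⟩)
      (fun l => hNA2 i l a (haA i l)) (fun l => hNB2 i l a (haB i l)) φ hφ hφ2
  have htoT : ∀ (i : Bool) (c : Cm p (D.RC i (q i) p)),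
      Cm.toT (Cm.incl (D.RC_subset i (q i) p) c) = Cm.toT c := by
    intro i c
    cases c with
    | none => rfl
    | some x => rfl
  have hS : ∀ y, (m, (Tot.fib a ⟨p, D.mE p (fun i : Bool => (i, q i)) y⟩ : D.Y)) ∈ frontier 𝒜 := by
    intro y
    cases y with
    | base j =>
      exact hL2 false
        (fun c => (Tot.base (j, Cm.incl (D.RC_subset false (q false) p) c) : D.E p))
        (Tot.isClosedEmbedding_base.continuous.comp
          (continuous_const.prodMk (Cm.continuous_incl _)))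
        (fun c => htoT false c)
    | fib b z =>
      obtain ⟨⟨i, j, r⟩, x, s⟩ := z
      exact hL2 i
        (fun c => (Tot.fib b ⟨((i, q i), (j, r)), (x, (c, s))⟩ : D.E p))
        ((Tot.isClosedEmbedding_fib b).continuous.comp
          ((continuous_sigmaMk (σ := fun a : (Bool × Q) × I × Bool =>
            Cm a.2.1 (RJ a.1.1 a.2.1 a.2.2) × Cm p (D.RC a.1.1 a.1.2 p) × I)
            (i := ((i, q i), (j, r)))).comp
          (continuous_const.prodMk (continuous_id.prodMk continuous_const))))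
        (fun c => htoT i c)
  have hfin := IndLT.of_isClosedEmbedding (D.et_emb M (frontier 𝒜) m p q a hS) hind
  exact not_indLT_two_F hfin

end Dat

end Pool.Agent.Helper520.PM
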