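import Pool.Agent.Helper520.PM.PartF

namespace Pool.Agent.Helper520.PM

open Set Topology Filter

/-! ### Part P: the plane -/

/-- Colours, and marked points of each colour. -/
structure Col where
  /-- the colour of a real number -/
  col : ℝ → (ℕ → ℕ)
  /-- marked points -/
  d : (ℕ → ℕ) → ℕ → ℝ
  dense : ∀ (f : ℕ → ℕ) (a b : ℝ), a < b → ∃ x, a < x ∧ x < b ∧ col x = f
  col_d : ∀ f j, col (d f j) = f
  window : ∀ δ : ℝ, 0 < δ → ∃ g : ℕ, ∀ k : ℝ, 0 ≤ k → k ≤ 1 → ∀ f : ℕ → ℕ,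
    (∃ j ≤ g, k - δ < d f j ∧ d f j < k) ∧ (∃ j ≤ g, k < d f j ∧ d f j < k + δ)

theorem colour_exists : ∃ col : ℝ → (ℕ → ℕ), ∀ (f : ℕ → ℕ) (a b : ℝ), a < b →
    ∃ x, a < x ∧ x < b ∧ col x = f := by
  classical
  let H : AddSubgroup ℝ := ((Rat.castHom ℝ).toAddMonoidHom).range
  have hqH : ∀ q : ℚ, (q : ℝ) ∈ H := fun q => AddMonoidHom.mem_range.2 ⟨q, rfl⟩
  have hHc : Countable H := by
    have h1 : (H : Set ℝ) ⊆ Set.range (fun q : ℚ => (q : ℝ)) := by
      intro x hx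
      obtain ⟨q, hq⟩ := AddMonoidHom.mem_range.1 hx
      exact ⟨q, hq⟩
    have h2 : (H : Set ℝ).Countable := (Set.countable_range _).mono h1
    exact h2.to_subtype
  have hcard : Cardinal.mk ℝ = Cardinal.mk (ℝ ⧸ H) * Cardinal.mk H := by
    rw [Cardinal.mul_def]
    exact Cardinal.mk_congr AddSubgroup.addGroupEquivQuotientProdAddSubgroup
  have hle : Cardinal.mk (ℕ → ℕ) ≤ Cardinal.mk (ℝ ⧸ H) := by
    have h1 : Cardinal.mk (ℕ → ℕ) = Cardinal.continuum := by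
      rw [← Cardinal.power_def, Cardinal.mk_nat]
      exact Cardinal.aleph0_power_aleph0
    rw [h1]
    by_contra hcon
    push Not at hcon
    have h2 : Cardinal.mk H ≤ Cardinal.aleph0 := Cardinal.mk_le_aleph0_iff.2 hHc
    have h3 : Cardinal.mk (ℝ ⧸ H) * Cardinal.mk H < Cardinal.continuum :=
      Cardinal.mul_lt_of_lt Cardinal.aleph0_le_continuum hcon
        (lt_of_le_of_lt h2 Cardinal.aleph0_lt_continuum)
    rw [← hcard, Cardinal.mk_real] at h3
    exact lt_irrefl _ h3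
  obtain ⟨emb⟩ : Nonempty ((ℕ → ℕ) ↪ (ℝ ⧸ H)) := hle
  refine ⟨fun x => Function.invFun emb (QuotientAddGroup.mk x), fun f a b hab => ?_⟩
  obtain ⟨y, hy⟩ := QuotientAddGroup.mk_surjective (emb f)
  obtain ⟨q, hq1, hq2⟩ := exists_rat_btwn (show a - y < b - y by linarith)
  refine ⟨y + q, by linarith, by linarith, ?_⟩
  have h4 : (QuotientAddGroup.mk (y + (q : ℝ)) : ℝ ⧸ H) = emb f := by
    rw [← hy]
    exact QuotientAddGroup.mk_add_of_mem y (hqH q)
  show Function.invFun emb (QuotientAddGroup.mk (y + (q : ℝ))) = f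
  rw [h4]
  exact Function.leftInverse_invFun emb.injective f

theorem nonempty_col : Nonempty Col := by
  classical
  obtain ⟨col, hcol⟩ := colour_exists
  obtain ⟨e, he⟩ := exists_surjective_nat (ℚ × ℚ)
  have hd : ∀ (f : ℕ → ℕ) (j : ℕ), ∃ x : ℝ, col x = f ∧
      ((e j).1 < (e j).2 → ((e j).1 : ℝ) < x ∧ x < ((e j).2 : ℝ)) := by
    intro f j
    by_cases h : (e j).1 < (e j).2
    · obtain ⟨x, h1, h2, h3⟩ := hcol f (e j).1 (e j).2 (by exact_mod_cast h)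
      exact ⟨x, h3, fun _ => ⟨h1, h2⟩⟩
    · obtain ⟨x, h1, h2, h3⟩ := hcol f 0 1 one_pos
      exact ⟨x, h3, fun h' => absurd h' h⟩
  choose d hd1 hd2 using hd
  refine ⟨⟨col, d, hcol, hd1, ?_⟩⟩
  intro δ hδ
  obtain ⟨m, hm⟩ := exists_nat_gt (2 / δ)
  have hm0 : (0 : ℝ) < m := lt_trans (by positivity) hm
  have hmδ : 2 / (m : ℝ) < δ := by
    rw [div_lt_iff₀ hm0]
    rw [div_lt_iff₀ hδ] at hm
    linarith
  choose J hJ using fun i : ℤ => he ((i : ℚ) / m, ((i : ℚ) + 1) / m)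
  have hJd : ∀ (f : ℕ → ℕ) (i : ℤ), (i : ℝ) / m < d f (J i) ∧ d f (J i) < ((i : ℝ) + 1) / m := by
    intro f i
    have hmq : (0 : ℚ) < m := by exact_mod_cast hm0
    have h1 := hd2 f (J i) (by
      rw [hJ i]
      show (i : ℚ) / m < ((i : ℚ) + 1) / m
      rw [div_lt_div_iff_of_pos_right hmq]
      linarith)
    rw [hJ i] at h1
    simp only at h1
    push_cast at h1
    exact h1
  refine ⟨(Finset.Icc (-1 : ℤ) (m + 1)).sup J, fun k hk0 hk1 f => ?_⟩
  set i : ℤ := ⌊k * m⌋ with hi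
  have hi1 : (i : ℝ) ≤ k * m := Int.floor_le _
  have hi2 : k * m < i + 1 := Int.lt_floor_add_one _
  have hi0 : 0 ≤ i := Int.floor_nonneg.2 (by positivity)
  have him : i ≤ m := by
    have h1 : (i : ℝ) ≤ m := by nlinarith
    exact_mod_cast h1
  have h2m : 2 < δ * m := by
    rw [div_lt_iff₀ hm0] at hmδ; exact hmδ
  constructor
  · refine ⟨J (i - 1), Finset.le_sup (f := J) (Finset.mem_Icc.2 ⟨by omega, by omega⟩), ?_⟩
    obtain ⟨h3, h4⟩ := hJd f (i - 1)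
    push_cast at h3 h4
    rw [div_lt_iff₀ hm0] at h3
    rw [lt_div_iff₀ hm0] at h4
    constructor
    · have h5 : (k - δ) * m < d f (J (i - 1)) * m := by nlinarith
      exact lt_of_mul_lt_mul_right h5 hm0.le
    · have h5 : d f (J (i - 1)) * m < k * m := by linarith
      exact lt_of_mul_lt_mul_right h5 hm0.le
  · refine ⟨J (i + 1), Finset.le_sup (f := J) (Finset.mem_Icc.2 ⟨by omega, by omega⟩), ?_⟩
    obtain ⟨h3, h4⟩ := hJd f (i + 1)
    push_cast at h3 h4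
    rw [div_lt_iff₀ hm0] at h3
    rw [lt_div_iff₀ hm0] at h4
    constructor
    · have h5 : k * m < d f (J (i + 1)) * m := by linarith
      exact lt_of_mul_lt_mul_right h5 hm0.le
    · have h5 : d f (J (i + 1)) * m < (k + δ) * m := by nlinarith
      exact lt_of_mul_lt_mul_right h5 hm0.le

namespace Col

variable (c : Col)

/-- The positions where the level `n` may be crossed. -/
def S (n : ℕ) : Set ℝ := {x | x ≤ 0 ∨ 1 ≤ x ∨ ∃ (f : ℕ → ℕ) (j : ℕ), j ≤ f n ∧ x = c.d f j}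

/-- The point `x` sees the side of the vertical line. -/
def mu1 (i : Bool) (p : ℝ × ℝ) : Prop :=
  (∃ n : ℕ, p.2 = n ∧ p.1 ∈ c.S n) ∨
    ((∀ n : ℕ, p.2 ≠ n) ∧ (c.col p.1 = c.col p.2 ∨ i = false))

/-- The point `x` sees the side of the horizontal line. -/
def mu2 (i : Bool) (p : ℝ × ℝ) : Prop :=
  (∀ n : ℕ, p.2 ≠ n) ∧ (c.col p.1 = c.col p.2 ∨ i = true)

/-- The sector data of the plane. -/
def dat : Dat (ℝ × ℝ) (Prop × Prop) where
  cls i p x := (c.mu1 i p ∧ p.1 < x.1, c.mu2 i p ∧ p.2 < x.2)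
  R p := {x | (∃ q : ℚ, x.1 = q) ∧ (∃ q : ℚ, x.2 = q) ∧ x.1 ≠ p.1 ∧ x.2 ≠ p.2}

theorem countable_R (p : ℝ × ℝ) : (c.dat.R p).Countable := by
  refine (Set.countable_range (fun q : ℚ × ℚ => (((q.1 : ℝ), (q.2 : ℝ)) : ℝ × ℝ))).mono ?_
  rintro x ⟨⟨q1, h1⟩, ⟨q2, h2⟩, -, -⟩
  exact ⟨(q1, q2), Prod.ext h1.symm h2.symm⟩

theorem dense_R_aux (a b z : ℝ) (hab : a < b) : ∃ q : ℚ, a < q ∧ (q : ℝ) < b ∧ (q : ℝ) ≠ z := by
  obtain ⟨q, h1, h2⟩ := exists_rat_btwn hab
  by_cases hq : (q : ℝ) = z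
  · obtain ⟨q', h3, h4⟩ := exists_rat_btwn h2
    exact ⟨q', h1.trans h3, h4, fun h => by rw [h, hq] at h3; exact lt_irrefl _ h3⟩
  · exact ⟨q, h1, h2, hq⟩

theorem dense_R (p : ℝ × ℝ) : Dense (c.dat.R p) := by
  rw [Metric.dense_iff]
  intro x r hr
  obtain ⟨q1, h1, h2, h3⟩ := dense_R_aux (x.1 - r) (x.1 + r) p.1 (by linarith)
  obtain ⟨q2, h4, h5, h6⟩ := dense_R_aux (x.2 - r) (x.2 + r) p.2 (by linarith)
  refine ⟨((q1 : ℝ), (q2 : ℝ)), ?_, ⟨q1, rfl⟩, ⟨q2, rfl⟩, h3, h6⟩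
  rw [Metric.mem_ball, Prod.dist_eq, max_lt_iff, Real.dist_eq, Real.dist_eq]
  exact ⟨abs_lt.2 ⟨by linarith, by linarith⟩, abs_lt.2 ⟨by linarith, by linarith⟩⟩

theorem not_mem_R (p : ℝ × ℝ) : p ∉ c.dat.R p := fun h => h.2.2.1 rfl

end Col

/-- An open rectangle, given by its coordinates. -/
def box (r : ℝ × ℝ × ℝ × ℝ) : Set (ℝ × ℝ) := Ioo r.1 r.2.1 ×ˢ Ioo r.2.2.1 r.2.2.2

theorem exists_locallyFinite {A A' : Set (ℝ × ℝ)} (hA : IsClosed A)
    (P : Set (ℝ × ℝ × ℝ × ℝ)) (hP : ∀ x ∈ A, ∃ r ∈ P, x ∈ box r ∧ box r ⊆ Metric.ball x 1 ∧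
      Disjoint (closure (box r)) A') :
    ∃ P' ⊆ P, P'.Countable ∧ LocallyFinite (fun r : P' => box r.1) ∧ A ⊆ (⋃ r ∈ P', box r) ∧
      ∀ r ∈ P', Disjoint (closure (box r)) A' := by
  choose! f hfP hfx hfb hfd using hP
  let K : ℕ → Set (ℝ × ℝ) := fun n => A ∩ {x | (n : ℝ) ≤ ‖x‖ ∧ ‖x‖ ≤ n + 1}
  have hKc : ∀ n, IsCompact (K n) := by
    intro n
    refine IsCompact.of_isClosed_subset (isCompact_closedBall (0 : ℝ × ℝ) (n + 1)) ?_ ?_
    · exact hA.inter ((isClosed_le continuous_const continuous_norm).inter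
        (isClosed_le continuous_norm continuous_const))
    · rintro x ⟨-, -, hx⟩
      rw [mem_closedBall_zero_iff]
      exact hx
  have hbox : ∀ r : ℝ × ℝ × ℝ × ℝ, IsOpen (box r) := fun r => isOpen_Ioo.prod isOpen_Ioo
  have hfin : ∀ n, ∃ t : Set (ℝ × ℝ), t.Finite ∧ t ⊆ K n ∧ K n ⊆ ⋃ x ∈ t, box (f x) := by
    intro n
    obtain ⟨t, ht, ht2⟩ := (hKc n).elim_nhds_subcover (fun x => box (f x))
      (fun x hx => (hbox _).mem_nhds (hfx x hx.1))
    exact ⟨t, t.finite_toSet, fun x hx => ht x hx, ht2⟩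
  choose t ht1 ht2 ht3 using hfin
  refine ⟨⋃ n, f '' (t n), ?_, ?_, ?_, ?_, ?_⟩
  · intro r hr
    obtain ⟨n, x, hx, rfl⟩ := mem_iUnion.1 hr
    exact hfP x (ht2 n hx).1
  · exact countable_iUnion fun n => ((ht1 n).image f).countable
  · intro y
    refine ⟨Metric.ball y 1, Metric.ball_mem_nhds y one_pos, ?_⟩
    have hfin2 : (⋃ n ∈ Finset.range (⌈‖y‖ + 2⌉₊ + 1), f '' (t n)).Finite :=
      Set.Finite.biUnion (Finset.finite_toSet _) fun n _ => (ht1 n).image f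
    refine (hfin2.preimage (f := Subtype.val) Subtype.val_injective.injOn).subset ?_
    rintro ⟨r, hr⟩ ⟨z, hz1, hz2⟩
    obtain ⟨n, x, hx, rfl⟩ := mem_iUnion.1 hr
    have hxK := ht2 n hx
    have h1 := hfb x hxK.1 hz1
    rw [Metric.mem_ball] at h1 hz2
    have h2 : ‖x‖ < ‖y‖ + 2 := by
      have h3 : dist x y < 2 := by
        have := dist_triangle_left x y z
        linarith
      have h4 := norm_sub_norm_le x y
      rw [← dist_eq_norm] at h4
      linarith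
    have h5 : (n : ℝ) < ‖y‖ + 2 := lt_of_le_of_lt hxK.2.1 h2
    have h6 : n ≤ ⌈‖y‖ + 2⌉₊ := by
      have := Nat.le_ceil (‖y‖ + 2)
      exact_mod_cast h5.le.trans this
    refine mem_iUnion₂.2 ⟨n, ?_, x, hx, rfl⟩
    rw [Finset.mem_range]; omega
  · intro x hx
    have hxK : x ∈ K ⌊‖x‖⌋₊ :=
      ⟨hx, Nat.floor_le (norm_nonneg _), (Nat.lt_floor_add_one _).le⟩
    obtain ⟨y, hy, hy2⟩ := mem_iUnion₂.1 (ht3 _ hxK)
    exact mem_iUnion₂.2 ⟨f y, mem_iUnion.2 ⟨_, y, hy, rfl⟩, hy2⟩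
  · intro r hr
    obtain ⟨n, x, hx, rfl⟩ := mem_iUnion.1 hr
    exact hfd x (ht2 n hx).1

theorem indLT_grid {K : Set (ℝ × ℝ)} (hK : IsClosed K) {C : Set ℝ} (hC : C.Countable)
    (hsub : ∀ x ∈ K, x.1 ∈ C ∨ x.2 ∈ C) : IndLT 2 K := by
  apply IndLT.succ_of_sep
  intro A A' hA hA' hd
  have hBc : IsClosed (Subtype.val '' A : Set (ℝ × ℝ)) := hK.isClosedMap_subtype_val A hA
  have hBc' : IsClosed (Subtype.val '' A' : Set (ℝ × ℝ)) := hK.isClosedMap_subtype_val A' hA'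
  have hBd : Disjoint (Subtype.val '' A : Set (ℝ × ℝ)) (Subtype.val '' A') :=
    (Set.disjoint_image_iff Subtype.val_injective).mpr hd
  have hdense : Dense Cᶜ := hC.dense_compl ℝ
  obtain ⟨P', hP'P, hP'c, hlf, hcov, hdis⟩ := exists_locallyFinite (A' := Subtype.val '' A') hBc
    {r : ℝ × ℝ × ℝ × ℝ | r.1 ∉ C ∧ r.2.1 ∉ C ∧ r.2.2.1 ∉ C ∧ r.2.2.2 ∉ C} (by
      intro x hx
      have hx' : x ∉ (Subtype.val '' A' : Set (ℝ × ℝ)) := fun h => Set.disjoint_left.mp hBd hx h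
      obtain ⟨ε, hε, hball⟩ := Metric.isOpen_iff.mp hBc'.isOpen_compl x hx'
      set η : ℝ := min (ε / 2) (1 / 2) with hη
      have hη0 : 0 < η := lt_min (by positivity) (by norm_num)
      have hη1 : η ≤ 1 / 2 := min_le_right _ _
      have hηε : η ≤ ε / 2 := min_le_left _ _
      obtain ⟨a, haC, ha1, ha2⟩ := hdense.exists_between (show x.1 - η < x.1 by linarith)
      obtain ⟨b, hbC, hb1, hb2⟩ := hdense.exists_between (show x.1 < x.1 + η by linarith)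
      obtain ⟨a', haC', ha1', ha2'⟩ := hdense.exists_between (show x.2 - η < x.2 by linarith)
      obtain ⟨b', hbC', hb1', hb2'⟩ := hdense.exists_between (show x.2 < x.2 + η by linarith)
      refine ⟨(a, b, a', b'), ⟨haC, hbC, haC', hbC'⟩, ?_, ?_, ?_⟩
      · exact ⟨⟨ha2, hb1⟩, ⟨ha2', hb1'⟩⟩
      · rintro y ⟨⟨h1, h2⟩, ⟨h3, h4⟩⟩
        rw [Metric.mem_ball, Prod.dist_eq, max_lt_iff, Real.dist_eq, Real.dist_eq, abs_lt, abs_lt]
        simp only at h1 h2 h3 h4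
        refine ⟨⟨by linarith, by linarith⟩, ⟨by linarith, by linarith⟩⟩
      · rw [Set.disjoint_left]
        intro y hy hyA
        have hy2 : y ∈ closure (Ioo a b) ×ˢ closure (Ioo a' b') := by
          rw [← closure_prod_eq]
          exact hy
        obtain ⟨hy3, hy4⟩ := hy2
        rw [closure_Ioo (by linarith)] at hy3
        rw [closure_Ioo (by linarith)] at hy4
        apply hball (a := y) _ hyA
        rw [Metric.mem_ball, Prod.dist_eq, max_lt_iff, Real.dist_eq, Real.dist_eq, abs_lt, abs_lt]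
        refine ⟨⟨by linarith [hy3.1], by linarith [hy3.2]⟩,
          ⟨by linarith [hy4.1], by linarith [hy4.2]⟩⟩)
  have hopen : ∀ r : ℝ × ℝ × ℝ × ℝ, IsOpen (box r) := fun r => isOpen_Ioo.prod isOpen_Ioo
  have hcl : closure (⋃ r ∈ P', box r) = ⋃ r ∈ P', closure (box r) := by
    have h1 := hlf.closure_iUnion
    rw [biUnion_eq_iUnion, h1, biUnion_eq_iUnion]
  have hO'open : IsOpen (⋃ r ∈ P', box r) := isOpen_biUnion fun r _ => hopen r
  refine ⟨Subtype.val ⁻¹' (⋃ r ∈ P', box r), hO'open.preimage continuous_subtype_val, ?_, ?_, ?_⟩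
  · intro x hx
    exact hcov ⟨x, hx, rfl⟩
  · rw [Set.disjoint_left]
    intro x hx hxA
    have h1 : (x : ℝ × ℝ) ∈ closure (⋃ r ∈ P', box r) :=
      (continuous_subtype_val.closure_preimage_subset _) hx
    rw [hcl] at h1
    simp only [mem_iUnion] at h1
    obtain ⟨r, hr, hxr⟩ := h1
    exact Set.disjoint_left.mp (hdis r hr) hxr ⟨x, hxA, rfl⟩
  · have hcount : (frontier (Subtype.val ⁻¹' (⋃ r ∈ P', box r) : Set K)).Countable := by
      have h1 : (Subtype.val '' (frontier (Subtype.val ⁻¹' (⋃ r ∈ P', box r) : Set K)) :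
          Set (ℝ × ℝ)) ⊆ ⋃ r ∈ P', (({r.1, r.2.1} : Set ℝ) ×ˢ C ∪
            C ×ˢ ({r.2.2.1, r.2.2.2} : Set ℝ)) := by
        rintro _ ⟨x, hx, rfl⟩
        have hx1 : (x : ℝ × ℝ) ∈ closure (⋃ r ∈ P', box r) :=
          (continuous_subtype_val.closure_preimage_subset _) hx.1
        have hx2 : (x : ℝ × ℝ) ∉ ⋃ r ∈ P', box r := by
          intro h
          apply hx.2
          rw [(hO'open.preimage continuous_subtype_val).interior_eq]
          exact h
        rw [hcl] at hx1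
        simp only [mem_iUnion] at hx1
        obtain ⟨r, hr, hxr⟩ := hx1
        have hxr2 : (x : ℝ × ℝ) ∉ box r := by
          intro h
          apply hx2
          simp only [mem_iUnion]
          exact ⟨r, hr, h⟩
        have hxr3 : (x : ℝ × ℝ) ∈ Icc r.1 r.2.1 ×ˢ Icc r.2.2.1 r.2.2.2 := by
          have hc : IsClosed (Icc r.1 r.2.1 ×ˢ Icc r.2.2.1 r.2.2.2) :=
            isClosed_Icc.prod isClosed_Icc
          refine (closure_minimal ?_ hc) hxr
          exact Set.prod_mono Ioo_subset_Icc_self Ioo_subset_Icc_self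
        obtain ⟨⟨h1, h2⟩, ⟨h3, h4⟩⟩ := hxr3
        have hCx := hsub x x.2
        have hrP := hP'P hr
        obtain ⟨hr1, hr2, hr3, hr4⟩ := hrP
        simp only [mem_iUnion]
        refine ⟨r, hr, ?_⟩
        rcases eq_or_lt_of_le h1 with e1 | e1
        · left
          refine ⟨by left; exact e1.symm, ?_⟩
          rcases hCx with h | h
          · exact absurd (e1 ▸ h) hr1
          · exact h
        rcases eq_or_lt_of_le h2 with e2 | e2
        · left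
          refine ⟨by right; exact e2, ?_⟩
          rcases hCx with h | h
          · exact absurd (e2 ▸ h) hr2
          · exact h
        rcases eq_or_lt_of_le h3 with e3 | e3
        · right
          refine ⟨?_, by left; exact e3.symm⟩
          rcases hCx with h | h
          · exact h
          · exact absurd (e3 ▸ h) hr3
        rcases eq_or_lt_of_le h4 with e4 | e4
        · right
          refine ⟨?_, by right; exact e4⟩
          rcases hCx with h | h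
          · exact h
          · exact absurd (e4 ▸ h) hr4
        exact absurd ⟨⟨e1, e2⟩, ⟨e3, e4⟩⟩ hxr2
      have h2 : (⋃ r ∈ P', (({r.1, r.2.1} : Set ℝ) ×ˢ C ∪
            C ×ˢ ({r.2.2.1, r.2.2.2} : Set ℝ))).Countable := by
        refine hP'c.biUnion fun r _ => ?_
        exact ((Set.to_countable _).prod hC).union (hC.prod (Set.to_countable _))
      exact Set.countable_of_injective_of_countable_image Subtype.val_injective.injOn (h2.mono h1)
    haveI : Countable (frontier (Subtype.val ⁻¹' (⋃ r ∈ P', box r) : Set K)) := hcount.to_subtype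
    exact IndLT.of_countable _

theorem EC_biUnion {P : Set (ℝ × ℝ × ℝ × ℝ)} (hP : LocallyFinite (fun r : P => box r.1))
    {p : ℝ × ℝ} {R : Set (ℝ × ℝ)} (h : ∀ r ∈ P, Cm.EC (box r) p R) :
    Cm.EC (⋃ r ∈ P, box r) p R := by
  by_cases hex : ∃ r ∈ P, ∀ᶠ x in 𝓝 p, x ∈ R → x ∈ box r
  · obtain ⟨r, hr, hx⟩ := hex
    left
    filter_upwards [hx] with x hx hxR
    exact mem_iUnion₂.2 ⟨r, hr, hx hxR⟩
  · right
    have hout : ∀ r ∈ P, ∀ᶠ x in 𝓝 p, x ∈ R → x ∉ box r := by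
      intro r hr
      rcases h r hr with h1 | h1
      · exact absurd ⟨r, hr, h1⟩ hex
      · exact h1
    obtain ⟨t, ht, hfin⟩ := hP p
    have h2 : ∀ᶠ x in 𝓝 p, ∀ i ∈ {i : P | ((fun r : P => box r.1) i ∩ t).Nonempty},
        x ∈ R → x ∉ box i.1 :=
      (Filter.eventually_all_finite hfin).2 (fun i _ => hout i.1 i.2)
    filter_upwards [h2, ht] with x hx hxt hxR hxU
    obtain ⟨r, hr, hxr⟩ := mem_iUnion₂.1 hxU
    exact hx ⟨r, hr⟩ ⟨x, hxr, hxt⟩ hxR hxr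

theorem EC_mono {O : Set (ℝ × ℝ)} {p : ℝ × ℝ} {R R' : Set (ℝ × ℝ)} (hR : R' ⊆ R)
    (h : Cm.EC O p R) : Cm.EC O p R' := by
  rcases h with h | h
  · left
    filter_upwards [h] with x hx hxR
    exact hx (hR hxR)
  · right
    filter_upwards [h] with x hx hxR
    exact hx (hR hxR)

theorem EC_box_quad_comb (r : ℝ × ℝ × ℝ × ℝ) (p : ℝ × ℝ) (R : Set (ℝ × ℝ)) (A B : Set ℝ)
    (h1 : (∀ᶠ y in 𝓝 p.1, y ∈ A → y ∈ Ioo r.1 r.2.1) ∨
      (∀ᶠ y in 𝓝 p.1, y ∈ A → y ∉ Ioo r.1 r.2.1))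
    (h2 : (∀ᶠ y in 𝓝 p.2, y ∈ B → y ∈ Ioo r.2.2.1 r.2.2.2) ∨
      (∀ᶠ y in 𝓝 p.2, y ∈ B → y ∉ Ioo r.2.2.1 r.2.2.2))
    (hR : ∀ x ∈ R, x.1 ∈ A ∧ x.2 ∈ B) : Cm.EC (box r) p R := by
  have t1 : Tendsto (fun x : ℝ × ℝ => x.1) (𝓝 p) (𝓝 p.1) := continuous_fst.tendsto p
  have t2 : Tendsto (fun x : ℝ × ℝ => x.2) (𝓝 p) (𝓝 p.2) := continuous_snd.tendsto p
  rcases h1 with h1 | h1
  · rcases h2 with h2 | h2
    · left
      filter_upwards [t1.eventually h1, t2.eventually h2] with x hx1 hx2 hxR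
      exact ⟨hx1 (hR x hxR).1, hx2 (hR x hxR).2⟩
    · right
      filter_upwards [t2.eventually h2] with x hx2 hxR hxb
      exact hx2 (hR x hxR).2 hxb.2
  · right
    filter_upwards [t1.eventually h1] with x hx1 hxR hxb
    exact hx1 (hR x hxR).1 hxb.1

theorem EC_box_quad_side (a b t : ℝ) (s : Prop) :
    (∀ᶠ y in 𝓝 t, y ∈ {y : ℝ | y ≠ t ∧ (t < y ↔ s)} → y ∈ Ioo a b) ∨
      (∀ᶠ y in 𝓝 t, y ∈ {y : ℝ | y ≠ t ∧ (t < y ↔ s)} → y ∉ Ioo a b) := by
  by_cases hs : s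
  · by_cases h1 : t < b
    · by_cases h2 : a ≤ t
      · left
        filter_upwards [gt_mem_nhds h1] with y hy hyA
        exact ⟨h2.trans_lt (hyA.2.2 hs), hy⟩
      · right
        filter_upwards [gt_mem_nhds (not_le.1 h2)] with y hy _ hyI
        exact absurd hyI.1 (not_lt.2 (le_of_lt hy))
    · right
      refine Filter.Eventually.of_forall fun y hyA hyI => ?_
      have := hyA.2.2 hs
      linarith [hyI.2, not_lt.1 h1]
  · by_cases h1 : a < t
    · by_cases h2 : t ≤ b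
      · left
        filter_upwards [lt_mem_nhds h1] with y hy hyA
        have h3 : ¬ t < y := fun h => hs (hyA.2.1 h)
        have h4 : y < t := lt_of_le_of_ne (not_lt.1 h3) hyA.1
        exact ⟨hy, h4.trans_le h2⟩
      · right
        filter_upwards [lt_mem_nhds (not_le.1 h2)] with y hy _ hyI
        exact absurd hyI.2 (not_lt.2 (le_of_lt hy))
    · right
      refine Filter.Eventually.of_forall fun y hyA hyI => ?_
      have h3 : ¬ t < y := fun h => hs (hyA.2.1 h)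
      linarith [hyI.1, not_lt.1 h1, not_lt.1 h3]

theorem EC_box_quad_full (a b t : ℝ) (ha : t ≠ a) (hb : t ≠ b) :
    (∀ᶠ y in 𝓝 t, y ∈ (univ : Set ℝ) → y ∈ Ioo a b) ∨
      (∀ᶠ y in 𝓝 t, y ∈ (univ : Set ℝ) → y ∉ Ioo a b) := by
  rcases lt_or_gt_of_ne ha with h1 | h1
  · right
    filter_upwards [gt_mem_nhds h1] with y hy _ hyI
    exact absurd hyI.1 (not_lt.2 (le_of_lt hy))
  · rcases lt_or_gt_of_ne hb with h2 | h2
    · left
      filter_upwards [gt_mem_nhds h2, lt_mem_nhds h1] with y hy hy2 _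
      exact ⟨hy2, hy⟩
    · right
      filter_upwards [lt_mem_nhds h2] with y hy _ hyI
      exact absurd hyI.2 (not_lt.2 (le_of_lt hy))

theorem EC_box_quad (r : ℝ × ℝ × ℝ × ℝ) (p : ℝ × ℝ) (a b : Prop) :
    Cm.EC (box r) p {x | x.1 ≠ p.1 ∧ x.2 ≠ p.2 ∧ (p.1 < x.1 ↔ a) ∧ (p.2 < x.2 ↔ b)} :=
  EC_box_quad_comb r p _ _ _ (EC_box_quad_side _ _ _ a) (EC_box_quad_side _ _ _ b)
    (fun _ hx => ⟨⟨hx.1, hx.2.2.1⟩, ⟨hx.2.1, hx.2.2.2⟩⟩)

theorem EC_box_LR (r : ℝ × ℝ × ℝ × ℝ) (p : ℝ × ℝ) (a : Prop) (h1 : p.2 ≠ r.2.2.1)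
    (h2 : p.2 ≠ r.2.2.2) : Cm.EC (box r) p {x | x.1 ≠ p.1 ∧ (p.1 < x.1 ↔ a)} :=
  EC_box_quad_comb r p _ _ _ (EC_box_quad_side _ _ _ a) (EC_box_quad_full _ _ _ h1 h2)
    (fun _ hx => ⟨hx, mem_univ _⟩)

theorem EC_box_UD (r : ℝ × ℝ × ℝ × ℝ) (p : ℝ × ℝ) (b : Prop) (h1 : p.1 ≠ r.1)
    (h2 : p.1 ≠ r.2.1) : Cm.EC (box r) p {x | x.2 ≠ p.2 ∧ (p.2 < x.2 ↔ b)} :=
  EC_box_quad_comb r p _ _ _ (EC_box_quad_full _ _ _ h1 h2) (EC_box_quad_side _ _ _ b)
    (fun _ hx => ⟨mem_univ _, hx⟩)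

theorem EC_box_triv (r : ℝ × ℝ × ℝ × ℝ) (p : ℝ × ℝ) (h1 : p.2 ≠ r.2.2.1) (h2 : p.2 ≠ r.2.2.2)
    (h3 : r.2.2.1 < p.2 → p.2 < r.2.2.2 → p.1 ≠ r.1 ∧ p.1 ≠ r.2.1) :
    Cm.EC (box r) p univ := by
  by_cases h4 : r.2.2.1 < p.2
  · by_cases h5 : p.2 < r.2.2.2
    · obtain ⟨h6, h7⟩ := h3 h4 h5
      exact EC_box_quad_comb r p _ _ _ (EC_box_quad_full _ _ _ h6 h7)
        (EC_box_quad_full _ _ _ h1 h2) (fun _ _ => ⟨mem_univ _, mem_univ _⟩)
    · right
      have h6 : r.2.2.2 < p.2 := lt_of_le_of_ne (not_lt.1 h5) (Ne.symm h2)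
      have t2 : Tendsto (fun x : ℝ × ℝ => x.2) (𝓝 p) (𝓝 p.2) := continuous_snd.tendsto p
      filter_upwards [t2.eventually (lt_mem_nhds h6)] with x hx _ hxb
      exact absurd hxb.2.2 (not_lt.2 (le_of_lt hx))
  · right
    have h6 : p.2 < r.2.2.1 := lt_of_le_of_ne (not_lt.1 h4) h1
    have t2 : Tendsto (fun x : ℝ × ℝ => x.2) (𝓝 p) (𝓝 p.2) := continuous_snd.tendsto p
    filter_upwards [t2.eventually (gt_mem_nhds h6)] with x hx _ hxb
    exact absurd hxb.2.1 (not_lt.2 (le_of_lt hx))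

namespace Col

variable (c : Col)

/-- The rectangle is admissible for the colour `f`. -/
def Good (f : ℕ → ℕ) (r : ℝ × ℝ × ℝ × ℝ) : Prop :=
  c.col r.1 = f ∧ c.col r.2.1 = f ∧ c.col r.2.2.1 = f ∧ c.col r.2.2.2 = f ∧
    (∀ n : ℕ, r.2.2.1 ≠ n ∧ r.2.2.2 ≠ n) ∧
    ∀ n : ℕ, r.2.2.1 < n → (n : ℝ) < r.2.2.2 → r.1 ∈ c.S n ∧ r.2.1 ∈ c.S n

theorem exists_colour_aux {A' : Set (ℝ × ℝ)} (f : ℕ → ℕ) (x : ℝ × ℝ) (η a b s s' : ℝ)
    (hη : η < 1 / 2) (hdisj : Disjoint (Metric.closedBall x η) A')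
    (ha1 : x.1 - η < a) (ha2 : a < x.1) (hb1 : x.1 < b) (hb2 : b < x.1 + η)
    (hs1 : x.2 - η < s) (hs2 : s < x.2) (ht1 : x.2 < s') (ht2 : s' < x.2 + η)
    (ca : c.col a = f) (cb : c.col b = f) (cs : c.col s = f) (ct : c.col s' = f)
    (hN : ∀ n : ℕ, |(n : ℝ) - x.2| < η → x.2 = n ∧ a ∈ c.S n ∧ b ∈ c.S n) :
    ∃ r, c.Good f r ∧ x ∈ box r ∧ box r ⊆ Metric.ball x 1 ∧ Disjoint (closure (box r)) A' := by
  have hsub : box (a, b, s, s') ⊆ Metric.closedBall x η := by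
    rintro ⟨y1, y2⟩ ⟨⟨h1, h2⟩, ⟨h3, h4⟩⟩
    simp only at h1 h2 h3 h4
    rw [Metric.mem_closedBall, Prod.dist_eq, Real.dist_eq, Real.dist_eq]
    apply max_le
    · rw [abs_le]; constructor <;> simp only <;> linarith
    · rw [abs_le]; constructor <;> simp only <;> linarith
  refine ⟨(a, b, s, s'), ⟨ca, cb, cs, ct, ?_, ?_⟩, ⟨⟨ha2, hb1⟩, ⟨hs2, ht1⟩⟩, ?_, ?_⟩
  · intro n
    constructor
    · intro h
      simp only at h
      have := (hN n (by rw [← h, abs_lt]; constructor <;> linarith)).1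
      linarith
    · intro h
      simp only at h
      have := (hN n (by rw [← h, abs_lt]; constructor <;> linarith)).1
      linarith
  · intro n h1 h2
    simp only at h1 h2
    exact (hN n (by rw [abs_lt]; constructor <;> linarith)).2
  · exact hsub.trans (Metric.closedBall_subset_ball (by linarith))
  · exact hdisj.mono_left (closure_minimal hsub Metric.isClosed_closedBall)

theorem exists_colour {A A' : Set (ℝ × ℝ)} (hA : IsClosed A) (hA' : IsClosed A')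
    (hd : Disjoint A A') : ∃ f : ℕ → ℕ, ∀ x ∈ A, ∃ r, c.Good f r ∧ x ∈ box r ∧
      box r ⊆ Metric.ball x 1 ∧ Disjoint (closure (box r)) A' := by
  -- the numbers `δ n`
  have hδ : ∀ n : ℕ, ∃ δ : ℝ, 0 < δ ∧ δ < 1 / 2 ∧ ∀ x ∈ A, x.2 = n → 0 ≤ x.1 → x.1 ≤ 1 →
      Disjoint (Metric.closedBall x δ) A' := by
    intro n
    have hK : IsCompact (A ∩ (Icc (0 : ℝ) 1 ×ˢ {(n : ℝ)})) :=
      (isCompact_Icc.prod isCompact_singleton).inter_left hA
    obtain ⟨δ, hδ, hdis⟩ := (hd.mono_left (inter_subset_left (t := Icc (0 : ℝ) 1 ×ˢ {(n : ℝ)}))).exists_cthickenings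
      hK hA'
    refine ⟨min δ (1 / 4), by positivity, lt_of_le_of_lt (min_le_right _ _) (by norm_num), ?_⟩
    intro x hx h1 h2 h3
    refine hdis.mono ?_ (Metric.self_subset_cthickening _)
    refine Subset.trans (Metric.closedBall_subset_closedBall (min_le_left _ _)) ?_
    exact Metric.closedBall_subset_cthickening (show x ∈ A ∩ (Icc (0 : ℝ) 1 ×ˢ {(n : ℝ)}) from
      ⟨hx, ⟨h2, h3⟩, h1⟩) δ
  choose δ hδ0 hδ1 hδ2 using hδ
  choose g hg using fun n => c.window (δ n) (hδ0 n)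
  refine ⟨g, ?_⟩
  intro x hx
  have hxA' : x ∈ A'ᶜ := fun h => (Set.disjoint_left.1 hd) hx h
  obtain ⟨ε, hε, hεA'⟩ := Metric.nhds_basis_closedBall.mem_iff.1 (hA'.isOpen_compl.mem_nhds hxA')
  -- columns of colour `g`
  have dn : ∀ (u v : ℝ), u < v → ∃ y, u < y ∧ y < v ∧ c.col y = g := c.dense g
  have gen : ∀ η : ℝ, 0 < η → η < 1 / 2 → η ≤ ε →
      (∀ n : ℕ, |(n : ℝ) - x.2| < η → x.2 = n ∧ ∀ a : ℝ, |a - x.1| < η → a ∈ c.S n) →
      ∃ r, c.Good g r ∧ x ∈ box r ∧ box r ⊆ Metric.ball x 1 ∧ Disjoint (closure (box r)) A' := by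
    intro η h0 h1 h2 hN
    obtain ⟨a, ha1, ha2, ca⟩ := dn (x.1 - η) x.1 (by linarith)
    obtain ⟨b, hb1, hb2, cb⟩ := dn x.1 (x.1 + η) (by linarith)
    obtain ⟨s, hs1, hs2, cs⟩ := dn (x.2 - η) x.2 (by linarith)
    obtain ⟨s', ht1, ht2, ct⟩ := dn x.2 (x.2 + η) (by linarith)
    refine c.exists_colour_aux g x η a b s s' h1 ?_ ha1 ha2 hb1 hb2 hs1 hs2 ht1 ht2 ca cb cs ct ?_
    · rw [← Set.subset_compl_iff_disjoint_right]
      exact (Metric.closedBall_subset_closedBall h2).trans hεA'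
    · intro n hn
      obtain ⟨q1, q2⟩ := hN n hn
      refine ⟨q1, q2 a ?_, q2 b ?_⟩
      · rw [abs_lt]; constructor <;> linarith
      · rw [abs_lt]; constructor <;> linarith
  by_cases hnat : ∃ n : ℕ, x.2 = n
  · obtain ⟨n, hn⟩ := hnat
    have huniq : ∀ m : ℕ, |(m : ℝ) - x.2| < 1 → m = n := by
      intro m hm
      rw [hn] at hm
      have h4 : |((m : ℤ) - (n : ℤ))| < 1 := by exact_mod_cast hm
      rw [Int.abs_lt_one_iff] at h4
      omega
    by_cases hk0 : x.1 < 0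
    · have hm : 0 < min (min ε (1 / 4)) (-x.1) := by
        refine lt_min (by positivity) (by linarith)
      refine gen (min (min ε (1 / 4)) (-x.1)) hm
        (lt_of_le_of_lt ((min_le_left _ _).trans (min_le_right _ _)) (by norm_num))
        ((min_le_left _ _).trans (min_le_left _ _)) ?_
      intro m hm'
      have h1 : m = n := huniq m (lt_of_lt_of_le hm' (((min_le_left _ _).trans (min_le_right _ _)).trans (by norm_num)))
      subst h1
      refine ⟨hn, ?_⟩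
      intro a ha
      left
      have h2 : |a - x.1| < -x.1 := lt_of_lt_of_le ha (min_le_right _ _)
      rw [abs_lt] at h2
      linarith [h2.2]
    · by_cases hk1 : 1 < x.1
      · have hm : 0 < min (min ε (1 / 4)) (x.1 - 1) := by
          refine lt_min (by positivity) (by linarith)
        refine gen (min (min ε (1 / 4)) (x.1 - 1)) hm
          (lt_of_le_of_lt ((min_le_left _ _).trans (min_le_right _ _)) (by norm_num))
          ((min_le_left _ _).trans (min_le_left _ _)) ?_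
        intro m hm'
        have h1 : m = n := huniq m (lt_of_lt_of_le hm' (((min_le_left _ _).trans (min_le_right _ _)).trans (by norm_num)))
        subst h1
        refine ⟨hn, ?_⟩
        intro a ha
        right; left
        have h2 : |a - x.1| < x.1 - 1 := lt_of_lt_of_le ha (min_le_right _ _)
        rw [abs_lt] at h2
        linarith [h2.1]
      · push Not at hk0 hk1
        obtain ⟨⟨j, hj, hj1, hj2⟩, ⟨j', hj', hj1', hj2'⟩⟩ := hg n x.1 hk0 hk1 g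
        obtain ⟨s, hs1, hs2, cs⟩ := dn (x.2 - δ n) x.2 (by linarith [hδ0 n])
        obtain ⟨s', ht1, ht2, ct⟩ := dn x.2 (x.2 + δ n) (by linarith [hδ0 n])
        refine c.exists_colour_aux g x (δ n) (c.d g j) (c.d g j') s s' (hδ1 n)
          (hδ2 n x hx hn hk0 hk1) hj1 hj2 hj1' hj2' hs1 hs2 ht1 ht2 (c.col_d g j) (c.col_d g j')
          cs ct ?_
        intro m hm'
        have h1 : m = n := huniq m (lt_trans hm' ((hδ1 n).trans (by norm_num)))
        subst h1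
        exact ⟨hn, Or.inr (Or.inr ⟨g, j, hj, rfl⟩), Or.inr (Or.inr ⟨g, j', hj', rfl⟩)⟩
  · have hcl : IsClosed (range ((↑) : ℕ → ℝ)) := Nat.isClosedEmbedding_coe_real.isClosed_range
    have hx2 : x.2 ∈ (range ((↑) : ℕ → ℝ))ᶜ := by
      rintro ⟨m, hm⟩
      exact hnat ⟨m, hm.symm⟩
    obtain ⟨e, he, heN⟩ := Metric.mem_nhds_iff.1 (hcl.isOpen_compl.mem_nhds hx2)
    refine gen (min (min ε (1 / 4)) e) (by positivity)
      (lt_of_le_of_lt ((min_le_left _ _).trans (min_le_right _ _)) (by norm_num))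
      ((min_le_left _ _).trans (min_le_left _ _)) ?_
    intro m hm
    exfalso
    have h1 : (m : ℝ) ∈ Metric.ball x.2 e := by
      rw [Metric.mem_ball, Real.dist_eq]
      exact lt_of_lt_of_le hm (min_le_right _ _)
    exact heN h1 ⟨m, rfl⟩

theorem RC_LR {i : Bool} (q : Prop × Prop) (p : ℝ × ℝ) (h : c.mu1 i p) :
    c.dat.RC i q p ⊆ {x | x.1 ≠ p.1 ∧ (p.1 < x.1 ↔ q.1)} := by
  rintro x ⟨hR, hq⟩
  refine ⟨hR.2.2.1, ?_⟩
  have h1 : (c.mu1 i p ∧ p.1 < x.1) = q.1 := congrArg Prod.fst hq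
  rw [← h1]
  exact ⟨fun h2 => ⟨h, h2⟩, fun h2 => h2.2⟩

theorem RC_UD {i : Bool} (q : Prop × Prop) (p : ℝ × ℝ) (h : c.mu2 i p) :
    c.dat.RC i q p ⊆ {x | x.2 ≠ p.2 ∧ (p.2 < x.2 ↔ q.2)} := by
  rintro x ⟨hR, hq⟩
  refine ⟨hR.2.2.2, ?_⟩
  have h1 : (c.mu2 i p ∧ p.2 < x.2) = q.2 := congrArg Prod.snd hq
  rw [← h1]
  exact ⟨fun h2 => ⟨h, h2⟩, fun h2 => h2.2⟩

theorem RC_quad {i : Bool} (q : Prop × Prop) (p : ℝ × ℝ) (h : c.mu1 i p) (h' : c.mu2 i p) :
    c.dat.RC i q p ⊆ {x | x.1 ≠ p.1 ∧ x.2 ≠ p.2 ∧ (p.1 < x.1 ↔ q.1) ∧ (p.2 < x.2 ↔ q.2)} := by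
  intro x hx
  exact ⟨(c.RC_LR q p h hx).1, (c.RC_UD q p h' hx).1, (c.RC_LR q p h hx).2,
    (c.RC_UD q p h' hx).2⟩

theorem EC_union {f : ℕ → ℕ} {P : Set (ℝ × ℝ × ℝ × ℝ)}
    (hP : LocallyFinite (fun r : P => box r.1)) (hG : ∀ r ∈ P, c.Good f r) (p : ℝ × ℝ) :
    ∃ i0 : Bool, ∀ i, i ≠ i0 → ∀ q, Cm.EC (⋃ r ∈ P, box r) p (c.dat.RC i q p) := by
  classical
  by_cases hnat : ∃ n : ℕ, p.2 = n
  · obtain ⟨n, hn⟩ := hnat
    by_cases hS : p.1 ∈ c.S n
    · refine ⟨false, fun i _ q => EC_biUnion hP fun r hr => ?_⟩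
      obtain ⟨-, -, -, -, h5, h6⟩ := hG r hr
      exact EC_mono (c.RC_LR q p (Or.inl ⟨n, hn, hS⟩))
        (EC_box_LR r p q.1 (by rw [hn]; exact (h5 n).1.symm) (by rw [hn]; exact (h5 n).2.symm))
    · refine ⟨false, fun i _ q => EC_biUnion hP fun r hr => ?_⟩
      obtain ⟨-, -, -, -, h5, h6⟩ := hG r hr
      refine EC_mono (subset_univ _) (EC_box_triv r p (by rw [hn]; exact (h5 n).1.symm)
        (by rw [hn]; exact (h5 n).2.symm) ?_)
      intro h7 h8
      rw [hn] at h7 h8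
      obtain ⟨h9, h10⟩ := h6 n h7 h8
      constructor
      · intro h
        rw [h] at hS
        exact hS h9
      · intro h
        rw [h] at hS
        exact hS h10
  · have hnat' : ∀ n : ℕ, p.2 ≠ n := fun n hn => hnat ⟨n, hn⟩
    by_cases hcol : c.col p.1 = c.col p.2
    · refine ⟨false, fun i _ q => EC_biUnion hP fun r hr => ?_⟩
      exact EC_mono (c.RC_quad q p (Or.inr ⟨hnat', Or.inl hcol⟩) ⟨hnat', Or.inl hcol⟩)
        (EC_box_quad r p q.1 q.2)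
    · by_cases hf : c.col p.1 = f
      · refine ⟨true, fun i hi q => EC_biUnion hP fun r hr => ?_⟩
        have hi' : i = false := by
          cases i
          · rfl
          · exact absurd rfl hi
        obtain ⟨h1, h2, h3, h4, -, -⟩ := hG r hr
        refine EC_mono (c.RC_LR q p (Or.inr ⟨hnat', Or.inr hi'⟩)) (EC_box_LR r p q.1 ?_ ?_)
        · intro h
          rw [← h] at h3
          exact hcol (hf.trans h3.symm)
        · intro h
          rw [← h] at h4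
          exact hcol (hf.trans h4.symm)
      · refine ⟨false, fun i hi q => EC_biUnion hP fun r hr => ?_⟩
        have hi' : i = true := by
          cases i
          · exact absurd rfl hi
          · rfl
        obtain ⟨h1, h2, h3, h4, -, -⟩ := hG r hr
        refine EC_mono (c.RC_UD q p ⟨hnat', Or.inr hi'⟩) (EC_box_UD r p q.2 ?_ ?_)
        · intro h
          rw [← h] at h1
          exact hf h1
        · intro h
          rw [← h] at h2
          exact hf h2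

theorem PL_aux_isOpen_box (r : ℝ × ℝ × ℝ × ℝ) : IsOpen (box r) := isOpen_Ioo.prod isOpen_Ioo

theorem PL_aux_frontier (r : ℝ × ℝ × ℝ × ℝ) (x : ℝ × ℝ) (h1 : x ∈ closure (box r))
    (h2 : x ∉ box r) : (x.1 = r.1 ∨ x.1 = r.2.1) ∨ (x.2 = r.2.2.1 ∨ x.2 = r.2.2.2) := by
  unfold box at h1 h2
  rw [closure_prod_eq] at h1
  have h3 : x.1 ∈ Icc r.1 r.2.1 := closure_minimal Ioo_subset_Icc_self isClosed_Icc h1.1
  have h4 : x.2 ∈ Icc r.2.2.1 r.2.2.2 := closure_minimal Ioo_subset_Icc_self isClosed_Icc h1.2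
  by_contra hcon
  push Not at hcon
  obtain ⟨⟨h5, h6⟩, h7, h8⟩ := hcon
  exact h2 ⟨⟨lt_of_le_of_ne h3.1 (Ne.symm h5), lt_of_le_of_ne h3.2 h6⟩,
    ⟨lt_of_le_of_ne h4.1 (Ne.symm h7), lt_of_le_of_ne h4.2 h8⟩⟩

theorem PL : c.dat.PL := by
  intro A A' hA hA' hd
  obtain ⟨f, hf⟩ := c.exists_colour hA hA' hd
  obtain ⟨P', hP'sub, hcount, hlf, hcover, hdisj⟩ :=
    exists_locallyFinite hA {r | c.Good f r} hf
  have hOo : IsOpen (⋃ r ∈ P', box r) := isOpen_biUnion fun r _ => PL_aux_isOpen_box r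
  have hcl : closure (⋃ r ∈ P', box r) = ⋃ r ∈ P', closure (box r) := by
    rw [biUnion_eq_iUnion, biUnion_eq_iUnion]
    exact hlf.closure_iUnion
  refine ⟨⋃ r ∈ P', box r, hOo, hcover, ?_, ?_, fun p => ?_⟩
  · rw [hcl, disjoint_iUnion₂_left]
    exact hdisj
  · refine indLT_grid isClosed_frontier
      (C := ⋃ r ∈ P', {r.1, r.2.1, r.2.2.1, r.2.2.2}) (hcount.biUnion fun r _ => ?_) ?_
    · exact (Set.toFinite _).countable
    · intro x hx
      rw [hOo.frontier_eq, hcl] at hx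
      obtain ⟨hx1, hx2⟩ := hx
      simp only [mem_iUnion] at hx1 hx2
      push Not at hx2
      obtain ⟨r, hr, hxr⟩ := hx1
      rcases PL_aux_frontier r x hxr (hx2 r hr) with (h | h) | (h | h)
      · left
        simp only [mem_iUnion]
        exact ⟨r, hr, by simp [h]⟩
      · left
        simp only [mem_iUnion]
        exact ⟨r, hr, by simp [h]⟩
      · right
        simp only [mem_iUnion]
        exact ⟨r, hr, by simp [h]⟩
      · right
        simp only [mem_iUnion]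
        exact ⟨r, hr, by simp [h]⟩
  · exact c.EC_union hlf (fun r hr => hP'sub hr) p

end Col

/-- An open quadrant at `p`: the first flag is `true` for the right side, the second one is `true`
for the upper side. -/
def quad (p : ℝ × ℝ) (a b : Bool) : Set (ℝ × ℝ) :=
  {x | x.1 ≠ p.1 ∧ x.2 ≠ p.2 ∧ (p.1 < x.1 ↔ a = true) ∧ (p.2 < x.2 ↔ b = true)}

/-- The quadrant has the first label: near `(m, p)` it does not meet `𝒱`. -/
def lam {M : Type} [TopologicalSpace M] (𝒱 : Set (M × (ℝ × ℝ))) (m : M) (p : ℝ × ℝ)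
    (a b : Bool) : Prop :=
  ∃ W ∈ 𝓝 (m, p), ∀ y ∈ W, y.2 ∈ quad p a b → y ∉ 𝒱

/-- The transfer property of a labelling of quadrants. -/
def Trans {M : Type} [TopologicalSpace M] (L : M → ℝ × ℝ → Bool → Bool → Prop) : Prop :=
  ∀ (m : M) (p : ℝ × ℝ) (a b : Bool), ∀ᶠ y in 𝓝 (m, p), ∀ a' b' : Bool,
    (∀ᶠ x in 𝓝 (y : M × (ℝ × ℝ)).2, x ∈ quad y.2 a' b' → x ∈ quad p a b) →
      (L y.1 y.2 a' b' ↔ L m p a b)

/-- The points of the level `t` where the label changes: above (`b = true`) or below the level. -/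
def XX (L : ℝ × ℝ → Bool → Bool → Prop) (b : Bool) (t : ℝ) : Set ℝ :=
  {k | ¬ (L (k, t) false b ↔ L (k, t) true b)}

/-- A step function from true to false changes an odd number of times. -/
theorem step_parity (f g : ℝ → Prop) (h0 : ∀ k ≤ 0, f k ∧ g k) (h1 : ∀ k, 1 ≤ k → ¬ f k ∧ ¬ g k)
    (hr : ∀ k, ∀ᶠ x in 𝓝[>] k, (f x ↔ g k) ∧ (g x ↔ g k))
    (hl : ∀ k, ∀ᶠ x in 𝓝[<] k, (f x ↔ f k) ∧ (g x ↔ f k)) :
    {k | ¬ (f k ↔ g k)}.Finite ∧ Odd {k | ¬ (f k ↔ g k)}.ncard := by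
  classical
  set X : Set ℝ := {k | ¬ (f k ↔ g k)} with hX
  have hR : ∀ k, ∃ u, k < u ∧ ∀ x, k < x → x < u → (f x ↔ g k) ∧ (g x ↔ g k) := by
    intro k
    obtain ⟨u, hu, h⟩ := mem_nhdsGT_iff_exists_Ioo_subset.1 (hr k)
    exact ⟨u, hu, fun x h1 h2 => h ⟨h1, h2⟩⟩
  have hL : ∀ k, ∃ l, l < k ∧ ∀ x, l < x → x < k → (f x ↔ f k) ∧ (g x ↔ f k) := by
    intro k
    obtain ⟨u, hu, h⟩ := mem_nhdsLT_iff_exists_Ioo_subset.1 (hl k)
    exact ⟨u, hu, fun x h1 h2 => h ⟨h1, h2⟩⟩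
  have hX0 : ∀ x ∈ X, 0 < x := by
    intro x hx
    by_contra h
    have h2 := h0 x (not_lt.1 h)
    exact hx ⟨fun _ => h2.2, fun _ => h2.1⟩
  have hX1 : ∀ x ∈ X, x < 1 := by
    intro x hx
    by_contra h
    have h2 := h1 x (not_lt.1 h)
    exact hx ⟨fun h => absurd h h2.1, fun h => absurd h h2.2⟩
  have hfin : X.Finite := by
    have hc : (X ∩ Set.Icc (0:ℝ) 1).Finite := by
      refine isCompact_Icc.induction_on (p := fun s => (X ∩ s).Finite) (by simp)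
        (fun s t hst ht => ht.subset (Set.inter_subset_inter_right _ hst))
        (fun s t hs ht => by rw [Set.inter_union_distrib_left]; exact hs.union ht) ?_
      intro k _
      obtain ⟨u, hu, h⟩ := hR k
      obtain ⟨l, hl', h'⟩ := hL k
      refine ⟨Set.Ioo l u, mem_nhdsWithin_of_mem_nhds (Ioo_mem_nhds hl' hu), ?_⟩
      refine (Set.finite_singleton k).subset ?_
      rintro x ⟨hx, hx1, hx2⟩
      rw [Set.mem_singleton_iff]
      rcases lt_trichotomy x k with h3 | h3 | h3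
      · exact absurd ((h' x hx1 h3).1.trans (h' x hx1 h3).2.symm) hx
      · exact h3
      · exact absurd ((h x h3 hx2).1.trans (h x h3 hx2).2.symm) hx
    refine hc.subset fun x hx => ⟨hx, (hX0 x hx).le, (hX1 x hx).le⟩
  refine ⟨hfin, ?_⟩
  have hPc : IsLocallyConstant (fun k : ℝ => (f k ↔ Even (X ∩ Set.Iio k).ncard)) := by
    rw [IsLocallyConstant.iff_eventually_eq]
    intro k
    obtain ⟨u, hu, h⟩ := hR k
    obtain ⟨l, hl', h'⟩ := hL k
    filter_upwards [Ioo_mem_nhds hl' hu] with x hx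
    rcases lt_trichotomy x k with h3 | h3 | h3
    · have e : X ∩ Set.Iio k = X ∩ Set.Iio x := by
        ext y
        constructor
        · rintro ⟨hy, hy'⟩
          refine ⟨hy, ?_⟩
          by_contra hn
          have hn' : x ≤ y := not_lt.1 hn
          exact hy ((h' y (hx.1.trans_le hn') hy').1.trans (h' y (hx.1.trans_le hn') hy').2.symm)
        · rintro ⟨hy, hy'⟩
          exact ⟨hy, lt_trans hy' h3⟩
      rw [e]
      have := (h' x hx.1 h3).1
      simp only [this]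
    · rw [h3]
    · have hfx := (h x h3 hx.2).1
      by_cases hk : k ∈ X
      · have e : X ∩ Set.Iio x = insert k (X ∩ Set.Iio k) := by
          ext y
          constructor
          · rintro ⟨hy, hy'⟩
            rcases lt_trichotomy y k with h4 | h4 | h4
            · exact Or.inr ⟨hy, h4⟩
            · exact Or.inl h4
            · exact absurd ((h y h4 (lt_trans hy' hx.2)).1.trans
                (h y h4 (lt_trans hy' hx.2)).2.symm) hy
          · rintro (rfl | ⟨hy, hy'⟩)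
            · exact ⟨hk, h3⟩
            · exact ⟨hy, lt_trans hy' h3⟩
        have hnot : k ∉ X ∩ Set.Iio k := fun hh => lt_irrefl k hh.2
        rw [e, Set.ncard_insert_of_notMem hnot
          (hfin.subset Set.inter_subset_left), Nat.even_add_one]
        have hk' : ¬ (f k ↔ g k) := hk
        apply propext
        tauto
      · have e : X ∩ Set.Iio x = X ∩ Set.Iio k := by
          ext y
          constructor
          · rintro ⟨hy, hy'⟩
            rcases lt_trichotomy y k with h4 | h4 | h4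
            · exact ⟨hy, h4⟩
            · exact absurd (h4 ▸ hy) hk
            · exact absurd ((h y h4 (lt_trans hy' hx.2)).1.trans
                (h y h4 (lt_trans hy' hx.2)).2.symm) hy
          · rintro ⟨hy, hy'⟩
            exact ⟨hy, lt_trans hy' h3⟩
        rw [e]
        have hk' : f k ↔ g k := not_not.1 hk
        rw [hfx, hk']
  have h01 := hPc.apply_eq_of_preconnectedSpace 1 0
  have e0 : X ∩ Set.Iio 0 = ∅ := by
    ext y
    simp only [Set.mem_inter_iff, Set.mem_Iio, Set.mem_empty_iff_false, iff_false, not_and, not_lt]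
    intro hy
    exact (hX0 y hy).le
  have e1 : X ∩ Set.Iio 1 = X := by
    ext y
    exact ⟨fun h => h.1, fun h => ⟨h, hX1 y h⟩⟩
  simp only [e0, e1, Set.ncard_empty] at h01
  have hf0 := (h0 0 le_rfl).1
  have hf1 := (h1 1 le_rfl).1
  have h2 : (f 1 ↔ Even X.ncard) := by
    rw [h01]
    simp [hf0]
  rw [← Nat.not_even_iff_odd]
  exact fun h => hf1 (h2.2 h)

theorem XX_odd {M : Type} [TopologicalSpace M] {L : M → ℝ × ℝ → Bool → Bool → Prop}
    (hL : Trans L) (h0 : ∀ m x a b, x.1 ≤ 0 → L m x a b) (h1 : ∀ m x a b, 1 ≤ x.1 → ¬ L m x a b)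
    (m : M) (b : Bool) (t : ℝ) : (XX (L m) b t).Finite ∧ Odd (XX (L m) b t).ncard := by
  have hcont : ∀ k : ℝ, Tendsto (fun x : ℝ => ((m, (x, t)) : M × (ℝ × ℝ))) (𝓝 k)
      (𝓝 (m, (k, t))) := by
    intro k
    have : Continuous (fun x : ℝ => ((m, (x, t)) : M × (ℝ × ℝ))) := by fun_prop
    exact this.tendsto k
  refine step_parity (fun k => L m (k, t) false b) (fun k => L m (k, t) true b)
    (fun k hk => ⟨h0 m (k, t) false b hk, h0 m (k, t) true b hk⟩)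
    (fun k hk => ⟨h1 m (k, t) false b hk, h1 m (k, t) true b hk⟩) ?_ ?_
  · intro k
    have h := (hcont k).eventually (hL m (k, t) true b)
    filter_upwards [h.filter_mono nhdsWithin_le_nhds, self_mem_nhdsWithin] with x hx hkx
    have hq : ∀ a' : Bool, ∀ᶠ z in 𝓝 ((x, t) : ℝ × ℝ), z ∈ quad (x, t) a' b →
        z ∈ quad (k, t) true b := by
      intro a'
      have h2 : ∀ᶠ z : ℝ × ℝ in 𝓝 ((x, t) : ℝ × ℝ), k < z.1 :=
        continuous_fst.continuousAt.eventually (lt_mem_nhds hkx)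
      filter_upwards [h2] with z hz hzq
      exact ⟨hz.ne', hzq.2.1, by simp [hz], hzq.2.2.2⟩
    exact ⟨hx false b (hq false), hx true b (hq true)⟩
  · intro k
    have h := (hcont k).eventually (hL m (k, t) false b)
    filter_upwards [h.filter_mono nhdsWithin_le_nhds, self_mem_nhdsWithin] with x hx hkx
    have hq : ∀ a' : Bool, ∀ᶠ z in 𝓝 ((x, t) : ℝ × ℝ), z ∈ quad (x, t) a' b →
        z ∈ quad (k, t) false b := by
      intro a'
      have h2 : ∀ᶠ z : ℝ × ℝ in 𝓝 ((x, t) : ℝ × ℝ), z.1 < k :=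
        continuous_fst.continuousAt.eventually (gt_mem_nhds hkx)
      filter_upwards [h2] with z hz hzq
      exact ⟨hz.ne, hzq.2.1, by simp [hz.le], hzq.2.2.2⟩
    exact ⟨hx false b (hq false), hx true b (hq true)⟩

/-- the side `a'` of `u'` is near `u'` contained in the side `a` of `u` -/
def Side (u u' : ℝ) (a a' : Bool) : Prop :=
  (u' = u ∧ a' = a) ∨ (u < u' ∧ a = true) ∨ (u' < u ∧ a = false)

theorem Side.ev {u u' : ℝ} {a a' : Bool} (h : Side u u' a a') :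
    ∀ᶠ s in 𝓝 u', s ≠ u' → (u' < s ↔ a' = true) → (s ≠ u ∧ (u < s ↔ a = true)) := by
  rcases h with ⟨rfl, rfl⟩ | ⟨h, rfl⟩ | ⟨h, rfl⟩
  · exact Eventually.of_forall fun s h1 h2 => ⟨h1, h2⟩
  · filter_upwards [lt_mem_nhds h] with s hs _ _
    exact ⟨ne_of_gt hs, by simp [hs]⟩
  · filter_upwards [gt_mem_nhds h] with s hs _ _
    exact ⟨ne_of_lt hs, by simp [not_lt.2 (le_of_lt hs)]⟩

theorem Side.quad {p p' : ℝ × ℝ} {a b a' b' : Bool} (h1 : Side p.1 p'.1 a a')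
    (h2 : Side p.2 p'.2 b b') : ∀ᶠ x in 𝓝 p', x ∈ quad p' a' b' → x ∈ quad p a b := by
  have e1 := (continuous_fst.tendsto p').eventually h1.ev
  have e2 := (continuous_snd.tendsto p').eventually h2.ev
  filter_upwards [e1, e2] with x f1 f2 hx
  obtain ⟨x1, x2, x3, x4⟩ := hx
  obtain ⟨g1, g2⟩ := f1 x1 x3
  obtain ⟨g3, g4⟩ := f2 x2 x4
  exact ⟨g1, g3, g2, g4⟩

theorem XX_local_aux {M : Type} [TopologicalSpace M] {L : M → ℝ × ℝ → Bool → Bool → Prop}
    (hL : Trans L) (m : M) (t k0 : ℝ) : ∀ᶠ z in 𝓝 ((m, t), k0),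
      (t ≤ z.1.2 → (z.2 ∈ XX (L z.1.1) true z.1.2 ↔ z.2 ∈ XX (L m) true t)) ∧
      (z.1.2 < t → (z.2 ∈ XX (L z.1.1) true z.1.2 ↔ z.2 ∈ XX (L m) false t)) := by
  have hall : ∀ᶠ y in 𝓝 (m, ((k0, t) : ℝ × ℝ)), ∀ a b a' b' : Bool,
      (∀ᶠ x in 𝓝 (y : M × (ℝ × ℝ)).2, x ∈ quad y.2 a' b' → x ∈ quad (k0, t) a b) →
      (L y.1 y.2 a' b' ↔ L m (k0, t) a b) := by
    rw [eventually_all]
    intro a
    rw [eventually_all]
    intro b
    exact hL m (k0, t) a b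
  have hφ : Tendsto (fun z : (M × ℝ) × ℝ => (z.1.1, ((z.2, z.1.2) : ℝ × ℝ))) (𝓝 ((m, t), k0))
      (𝓝 (m, ((k0, t) : ℝ × ℝ))) := by
    have hc : Continuous (fun z : (M × ℝ) × ℝ => (z.1.1, ((z.2, z.1.2) : ℝ × ℝ))) := by fun_prop
    exact hc.tendsto ((m, t), k0)
  have hψ : Tendsto (fun z : (M × ℝ) × ℝ => (m, ((z.2, t) : ℝ × ℝ))) (𝓝 ((m, t), k0))
      (𝓝 (m, ((k0, t) : ℝ × ℝ))) := by
    have hc : Continuous (fun z : (M × ℝ) × ℝ => (m, ((z.2, t) : ℝ × ℝ))) := by fun_prop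
    exact hc.tendsto ((m, t), k0)
  filter_upwards [hφ.eventually hall, hψ.eventually hall] with z H1 H2
  obtain ⟨⟨m', t'⟩, k⟩ := z
  simp only at H1 H2 ⊢
  have key : ∀ β : Bool, Side t t' β true →
      (k ∈ XX (L m') true t' ↔ k ∈ XX (L m) β t) := by
    intro β hβ
    rcases eq_or_ne k k0 with hk | hk
    · subst hk
      have f1 := H1 false β false true (Side.quad (Or.inl ⟨rfl, rfl⟩) hβ)
      have f2 := H1 true β true true (Side.quad (Or.inl ⟨rfl, rfl⟩) hβ)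
      show ¬ (L m' (k, t') false true ↔ L m' (k, t') true true) ↔
        ¬ (L m (k, t) false β ↔ L m (k, t) true β)
      rw [f1, f2]
    · obtain ⟨α, hα⟩ : ∃ α : Bool, ∀ a' : Bool, Side k0 k α a' := by
        rcases lt_or_gt_of_ne hk with h | h
        · exact ⟨false, fun a' => Or.inr (Or.inr ⟨h, rfl⟩)⟩
        · exact ⟨true, fun a' => Or.inr (Or.inl ⟨h, rfl⟩)⟩
      have f1 := H1 α β false true (Side.quad (hα false) hβ)
      have f2 := H1 α β true true (Side.quad (hα true) hβ)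
      have f3 := H2 α β false β (Side.quad (hα false) (Or.inl ⟨rfl, rfl⟩))
      have f4 := H2 α β true β (Side.quad (hα true) (Or.inl ⟨rfl, rfl⟩))
      show ¬ (L m' (k, t') false true ↔ L m' (k, t') true true) ↔
        ¬ (L m (k, t) false β ↔ L m (k, t) true β)
      rw [f1, f2, f3, f4]
  constructor
  · intro ht
    rcases eq_or_lt_of_le ht with h | h
    · exact key true (Or.inl ⟨h.symm, rfl⟩)
    · exact key true (Or.inr (Or.inl ⟨h, rfl⟩))
  · intro ht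
    exact key false (Or.inr (Or.inr ⟨ht, rfl⟩))

theorem XX_local {M : Type} [TopologicalSpace M] {L : M → ℝ × ℝ → Bool → Bool → Prop}
    (hL : Trans L) (h0 : ∀ m x a b, x.1 ≤ 0 → L m x a b) (h1 : ∀ m x a b, 1 ≤ x.1 → ¬ L m x a b)
    (m : M) (t : ℝ) : ∀ᶠ y in 𝓝 (m, t),
      (t ≤ y.2 → XX (L y.1) true y.2 = XX (L m) true t) ∧
      (y.2 < t → XX (L y.1) true y.2 = XX (L m) false t) := by
  have hout : ∀ (m' : M) (b : Bool) (t' k : ℝ), k ∉ Icc (0 : ℝ) 1 → k ∉ XX (L m') b t' := by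
    intro m' b t' k hk hk'
    apply hk'
    by_cases h : k ≤ 0
    · exact iff_of_true (h0 m' (k, t') _ _ h) (h0 m' (k, t') _ _ h)
    · have h2 : 1 ≤ k := by
        by_contra h3
        exact hk ⟨(not_le.1 h).le, (not_le.1 h3).le⟩
      exact iff_of_false (h1 m' (k, t') _ _ h2) (h1 m' (k, t') _ _ h2)
  have hev := (isCompact_Icc (a := (0 : ℝ)) (b := 1)).eventually_forall_of_forall_eventually
    (x₀ := (m, t)) (P := fun y k => (t ≤ y.2 → (k ∈ XX (L y.1) true y.2 ↔ k ∈ XX (L m) true t)) ∧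
      (y.2 < t → (k ∈ XX (L y.1) true y.2 ↔ k ∈ XX (L m) false t)))
    (fun k0 _ => XX_local_aux hL m t k0)
  filter_upwards [hev] with y hy
  constructor
  · intro ht
    ext k
    by_cases hk : k ∈ Icc (0 : ℝ) 1
    · exact (hy k hk).1 ht
    · exact iff_of_false (hout _ _ _ k hk) (hout _ _ _ k hk)
  · intro ht
    ext k
    by_cases hk : k ∈ Icc (0 : ℝ) 1
    · exact (hy k hk).2 ht
    · exact iff_of_false (hout _ _ _ k hk) (hout _ _ _ k hk)

namespace Col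

variable (c : Col)

/-- The sector of the points with label `q` at `p`. -/
def sector (i : Bool) (q : Prop × Prop) (p : ℝ × ℝ) : Set (ℝ × ℝ) :=
  {x | x.1 ≠ p.1 ∧ x.2 ≠ p.2 ∧ c.dat.cls i p x = q}

/-- The hypotheses of the planar part of the lower bound. -/
structure Planar {M : Type} [TopologicalSpace M] (𝒰 𝒱 : Set (M × (ℝ × ℝ))) : Prop where
  hU : IsOpen 𝒰
  hV : IsOpen 𝒱
  hd : Disjoint 𝒰 𝒱
  hdense : ∀ (m : M) (W : Set (ℝ × ℝ)), IsOpen W → W.Nonempty → ∃ x ∈ W, (m, x) ∈ 𝒰 ∨ (m, x) ∈ 𝒱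
  h0 : ∀ (m : M) (x : ℝ × ℝ), x.1 ≤ 0 → (m, x) ∈ 𝒰
  h1 : ∀ (m : M) (x : ℝ × ℝ), 1 ≤ x.1 → (m, x) ∈ 𝒱
  hii : ∀ (m : M) (p : ℝ × ℝ), ∃ i : Bool, ∀ q : Prop × Prop, ∃ W ∈ 𝓝 (m, p),
    ¬ ((∃ y ∈ W, y.2 ∈ c.sector i q p ∧ y ∈ 𝒰) ∧ (∃ y ∈ W, y.2 ∈ c.sector i q p ∧ y ∈ 𝒱))

variable {c} {M : Type} [TopologicalSpace M] {𝒰 𝒱 : Set (M × (ℝ × ℝ))}

/-- Each quadrant meets at most one of the two sets. -/
theorem Planar.dich (h : c.Planar 𝒰 𝒱) (m : M) (p : ℝ × ℝ) (a b : Bool) :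
    ∃ W ∈ 𝓝 (m, p), (∀ y ∈ W, y.2 ∈ quad p a b → y ∉ 𝒱) ∨ (∀ y ∈ W, y.2 ∈ quad p a b → y ∉ 𝒰) := by
  obtain ⟨i, hi⟩ := h.hii m p
  obtain ⟨W, hW, hW'⟩ := hi (c.mu1 i p ∧ a = true, c.mu2 i p ∧ b = true)
  have hsec : ∀ x ∈ quad p a b, x ∈ c.sector i (c.mu1 i p ∧ a = true, c.mu2 i p ∧ b = true) p := by
    rintro x ⟨h1, h2, h3, h4⟩
    refine ⟨h1, h2, ?_⟩
    show (c.mu1 i p ∧ p.1 < x.1, c.mu2 i p ∧ p.2 < x.2) = _
    rw [propext h3, propext h4]
  refine ⟨W, hW, ?_⟩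
  by_cases hV : ∃ y ∈ W, y.2 ∈ c.sector i (c.mu1 i p ∧ a = true, c.mu2 i p ∧ b = true) p ∧ y ∈ 𝒱
  · right
    intro y hy hq hyU
    exact hW' ⟨⟨y, hy, hsec _ hq, hyU⟩, hV⟩
  · left
    intro y hy hq hyV
    exact hV ⟨y, hy, hsec _ hq, hyV⟩

theorem j10234_quad_open (p : ℝ × ℝ) (a b : Bool) : IsOpen (quad p a b) := by
  have e : quad p a b = {x | x.1 ≠ p.1 ∧ (p.1 < x.1 ↔ a = true)} ∩
      {x | x.2 ≠ p.2 ∧ (p.2 < x.2 ↔ b = true)} := by
    ext x
    simp only [quad, Set.mem_ofPred_eq, Set.mem_inter_iff]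
    tauto
  have key : ∀ (s : ℝ) (c : Bool), IsOpen {u : ℝ | u ≠ s ∧ (s < u ↔ c = true)} := by
    intro s c
    cases c
    · have : {u : ℝ | u ≠ s ∧ (s < u ↔ false = true)} = Iio s := by
        ext u
        simp only [Set.mem_ofPred_eq, Bool.false_eq_true, iff_false, not_lt, Set.mem_Iio]
        constructor
        · rintro ⟨h1, h2⟩
          exact lt_of_le_of_ne h2 h1
        · intro h
          exact ⟨h.ne, h.le⟩
      rw [this]
      exact isOpen_Iio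
    · have : {u : ℝ | u ≠ s ∧ (s < u ↔ true = true)} = Ioi s := by
        ext u
        simp only [Set.mem_ofPred_eq, iff_true, Set.mem_Ioi]
        constructor
        · rintro ⟨h1, h2⟩
          exact h2
        · intro h
          exact ⟨h.ne', h⟩
      rw [this]
      exact isOpen_Ioi
  rw [e]
  exact ((key p.1 a).preimage continuous_fst).inter ((key p.2 b).preimage continuous_snd)

theorem j10234_acc (p : ℝ × ℝ) (a b : Bool) {N : Set (ℝ × ℝ)} (hN : N ∈ 𝓝 p) :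
    (N ∩ quad p a b).Nonempty := by
  rw [Metric.mem_nhds_iff] at hN
  obtain ⟨ε, hε, hsub⟩ := hN
  have key : ∀ (s : ℝ) (c : Bool), ∃ u : ℝ, dist u s < ε ∧ u ≠ s ∧ (s < u ↔ c = true) := by
    intro s c
    cases c
    · refine ⟨s - ε / 2, ?_, by linarith, ?_⟩
      · rw [Real.dist_eq, abs_lt]
        constructor <;> linarith
      · simp only [Bool.false_eq_true, iff_false, not_lt]
        linarith
    · refine ⟨s + ε / 2, ?_, by linarith, ?_⟩
      · rw [Real.dist_eq, abs_lt]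
        constructor <;> linarith
      · simp only [iff_true]
        linarith
  obtain ⟨u, hu1, hu2, hu3⟩ := key p.1 a
  obtain ⟨v, hv1, hv2, hv3⟩ := key p.2 b
  refine ⟨(u, v), hsub ?_, hu2, hv2, hu3, hv3⟩
  rw [Metric.mem_ball, Prod.dist_eq]
  exact max_lt hu1 hv1

theorem Planar.j10234_both (h : c.Planar 𝒰 𝒱) (m : M) (p : ℝ × ℝ) (a b : Bool)
    {W : Set (M × (ℝ × ℝ))} (hW : W ∈ 𝓝 (m, p))
    (hU : ∀ y ∈ W, y.2 ∈ quad p a b → y ∉ 𝒰) (hV : ∀ y ∈ W, y.2 ∈ quad p a b → y ∉ 𝒱) :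
    False := by
  have h1 : {x : ℝ × ℝ | (m, x) ∈ W} ∈ 𝓝 p := by
    have hc : Continuous fun x : ℝ × ℝ => (m, x) := Continuous.prodMk_right m
    exact hc.continuousAt.preimage_mem_nhds hW
  have h2 : interior {x : ℝ × ℝ | (m, x) ∈ W} ∈ 𝓝 p := interior_mem_nhds.2 h1
  obtain ⟨x, hx, hx'⟩ := h.hdense m (interior {x : ℝ × ℝ | (m, x) ∈ W} ∩ quad p a b)
    (isOpen_interior.inter (j10234_quad_open p a b)) (j10234_acc p a b h2)
  have hxW : x ∈ {x : ℝ × ℝ | (m, x) ∈ W} := interior_subset hx.1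
  rcases hx' with hx' | hx'
  · exact hU _ hxW hx.2 hx'
  · exact hV _ hxW hx.2 hx'

theorem Planar.trans (h : c.Planar 𝒰 𝒱) : Trans (lam 𝒱) := by
  intro m p a b
  obtain ⟨W, hW, hW'⟩ := h.dich m p a b
  have hW2 : ∀ᶠ y in 𝓝 (m, p), W ∈ 𝓝 y := eventually_mem_nhds_iff.2 hW
  rcases hW' with hWV | hWU
  · have ht : lam 𝒱 m p a b := ⟨W, hW, hWV⟩
    filter_upwards [hW2] with y hy a' b' hab
    refine iff_of_true ?_ ht
    refine ⟨W ∩ {z | z.2 ∈ quad y.2 a' b' → z.2 ∈ quad p a b}, ?_, ?_⟩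
    · refine Filter.inter_mem hy ?_
      exact (continuous_snd.continuousAt (x := y)).eventually hab
    · rintro z ⟨hz1, hz2⟩ hz3
      exact hWV z hz1 (hz2 hz3)
  · have ht : ¬ lam 𝒱 m p a b := by
      rintro ⟨W', hW1', hW2'⟩
      exact h.j10234_both m p a b (Filter.inter_mem hW hW1') (fun y hy => hWU y hy.1)
        (fun y hy => hW2' y hy.2)
    filter_upwards [hW2] with y hy a' b' hab
    refine iff_of_false ?_ ht
    rintro ⟨W', hW1', hW2'⟩
    have h3 : {z : M × (ℝ × ℝ) | z.2 ∈ quad y.2 a' b' → z.2 ∈ quad p a b} ∈ 𝓝 y :=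
      (continuous_snd.continuousAt (x := y)).eventually hab
    refine h.j10234_both y.1 y.2 a' b' (Filter.inter_mem (Filter.inter_mem hy h3) hW1') ?_ ?_
    · rintro z ⟨⟨hz1, hz2⟩, _⟩ hz3
      exact hWU z hz1 (hz2 hz3)
    · rintro z ⟨_, hz2⟩ hz3
      exact hW2' z hz2 hz3

theorem Planar.j10234_memU (h : c.Planar 𝒰 𝒱) (m : M) (x : ℝ × ℝ) (a b : Bool)
    (hx : (m, x) ∈ 𝒰) : lam 𝒱 m x a b :=
  ⟨𝒰, h.hU.mem_nhds hx, fun _ hy _ hy' => Set.disjoint_left.1 h.hd hy hy'⟩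

theorem Planar.j10234_memV (h : c.Planar 𝒰 𝒱) (m : M) (x : ℝ × ℝ) (a b : Bool)
    (hx : (m, x) ∈ 𝒱) : ¬ lam 𝒱 m x a b := by
  rintro ⟨W, hW, hW'⟩
  refine h.j10234_both m x a b (Filter.inter_mem hW (h.hV.mem_nhds hx)) ?_ ?_
  · rintro y ⟨_, hy⟩ _ hyU
    exact Set.disjoint_left.1 h.hd hyU hy
  · rintro y ⟨hy, _⟩ hq
    exact hW' y hy hq

theorem Planar.lam_left (h : c.Planar 𝒰 𝒱) (m : M) (x : ℝ × ℝ) (a b : Bool) (hx : x.1 ≤ 0) :
    lam 𝒱 m x a b :=
  h.j10234_memU m x a b (h.h0 m x hx)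

theorem Planar.lam_right (h : c.Planar 𝒰 𝒱) (m : M) (x : ℝ × ℝ) (a b : Bool) (hx : 1 ≤ x.1) :
    ¬ lam 𝒱 m x a b :=
  h.j10234_memV m x a b (h.h1 m x hx)

/-- A point where the label changes is in neither of the two sets. -/
theorem Planar.not_mem (h : c.Planar 𝒰 𝒱) (m : M) (t k : ℝ) (b : Bool)
    (hk : k ∈ XX (lam 𝒱 m) b t) : (m, (k, t)) ∉ 𝒰 ∧ (m, (k, t)) ∉ 𝒱 := by
  constructor
  · intro hU
    exact hk (iff_of_true (h.j10234_memU m (k, t) false b hU) (h.j10234_memU m (k, t) true b hU))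
  · intro hV
    exact hk (iff_of_false (h.j10234_memV m (k, t) false b hV) (h.j10234_memV m (k, t) true b hV))


theorem Planar.quad_sub (c : Col) (i : Bool) (p : ℝ × ℝ) (a b : Bool) (x : ℝ × ℝ)
    (hx : x ∈ quad p a b) :
    x ∈ c.sector i (c.mu1 i p ∧ a = true, c.mu2 i p ∧ b = true) p := by
  obtain ⟨h1, h2, h3, h4⟩ := hx
  refine ⟨h1, h2, ?_⟩
  exact Prod.ext (propext (and_congr_right fun _ => h3)) (propext (and_congr_right fun _ => h4))

theorem Planar.quad_near (p : ℝ × ℝ) (a b : Bool) (V : Set (ℝ × ℝ)) (hV : V ∈ 𝓝 p) :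
    ∃ W : Set (ℝ × ℝ), IsOpen W ∧ W.Nonempty ∧ W ⊆ V ∧ W ⊆ quad p a b := by
  obtain ⟨V', hV', hVo, hpV⟩ := mem_nhds_iff.1 hV
  have hset : quad p a b = (if a = true then Ioi p.1 else Iio p.1) ×ˢ
      (if b = true then Ioi p.2 else Iio p.2) := by
    ext x
    constructor
    · rintro ⟨h1, h2, h3, h4⟩
      constructor
      · cases a
        · have h5 : ¬ p.1 < x.1 := fun h => by simpa using h3.1 h
          show x.1 ∈ Iio p.1
          exact lt_of_le_of_ne (not_lt.1 h5) h1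
        · exact h3.2 rfl
      · cases b
        · have h5 : ¬ p.2 < x.2 := fun h => by simpa using h4.1 h
          show x.2 ∈ Iio p.2
          exact lt_of_le_of_ne (not_lt.1 h5) h2
        · exact h4.2 rfl
    · rintro ⟨h1, h2⟩
      have ha : x.1 ≠ p.1 ∧ (p.1 < x.1 ↔ a = true) := by
        cases a
        · have h3 : x.1 < p.1 := h1
          exact ⟨h3.ne, by simp [h3.le]⟩
        · have h3 : p.1 < x.1 := h1
          exact ⟨h3.ne', by simp [h3]⟩
      have hb : x.2 ≠ p.2 ∧ (p.2 < x.2 ↔ b = true) := by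
        cases b
        · have h3 : x.2 < p.2 := h2
          exact ⟨h3.ne, by simp [h3.le]⟩
        · have h3 : p.2 < x.2 := h2
          exact ⟨h3.ne', by simp [h3]⟩
      exact ⟨ha.1, hb.1, ha.2, hb.2⟩
  have ho : ∀ (e : Bool) (r : ℝ), IsOpen (if e = true then Ioi r else Iio r : Set ℝ) := by
    intro e r
    cases e
    · exact isOpen_Iio
    · exact isOpen_Ioi
  have hcl : ∀ (e : Bool) (r : ℝ), r ∈ closure (if e = true then Ioi r else Iio r : Set ℝ) := by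
    intro e r
    cases e
    · show r ∈ closure (Iio r)
      rw [closure_Iio]; exact self_mem_Iic
    · show r ∈ closure (Ioi r)
      rw [closure_Ioi]; exact self_mem_Ici
  have hpc : p ∈ closure (quad p a b) := by
    rw [hset, closure_prod_eq]
    exact ⟨hcl a p.1, hcl b p.2⟩
  have hqo : IsOpen (quad p a b) := by
    rw [hset]
    exact (ho a p.1).prod (ho b p.2)
  exact ⟨V' ∩ quad p a b, hVo.inter hqo, mem_closure_iff.1 hpc V' hVo hpV,
    inter_subset_left.trans hV', inter_subset_right⟩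

theorem Planar.same (h : c.Planar 𝒰 𝒱) (m : M) (p : ℝ × ℝ) (i : Bool) (q : Prop × Prop)
    (hi : ∃ W ∈ 𝓝 (m, p),
      ¬ ((∃ y ∈ W, y.2 ∈ c.sector i q p ∧ y ∈ 𝒰) ∧ (∃ y ∈ W, y.2 ∈ c.sector i q p ∧ y ∈ 𝒱)))
    (a b a' b' : Bool) (h1 : ∀ x ∈ quad p a b, x ∈ c.sector i q p)
    (h2 : ∀ x ∈ quad p a' b', x ∈ c.sector i q p) : lam 𝒱 m p a b ↔ lam 𝒱 m p a' b' := by
  obtain ⟨W, hW, hWn⟩ := hi
  by_cases hv : ∃ y ∈ W, y.2 ∈ c.sector i q p ∧ y ∈ 𝒱
  · have hu : ¬ ∃ y ∈ W, y.2 ∈ c.sector i q p ∧ y ∈ 𝒰 := fun hu => hWn ⟨hu, hv⟩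
    have key : ∀ a b : Bool, (∀ x ∈ quad p a b, x ∈ c.sector i q p) → ¬ lam 𝒱 m p a b := by
      rintro a b hab ⟨W', hW', hW'n⟩
      have hWW : {x : ℝ × ℝ | (m, x) ∈ W ∩ W'} ∈ 𝓝 p :=
        (Continuous.prodMk_right m).continuousAt.preimage_mem_nhds (inter_mem hW hW')
      obtain ⟨V, hVo, hVne, hVs, hVq⟩ := Planar.quad_near p a b _ hWW
      obtain ⟨x, hx, hx'⟩ := h.hdense m V hVo hVne
      rcases hx' with hx' | hx'
      · exact hu ⟨(m, x), (hVs hx).1, hab x (hVq hx), hx'⟩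
      · exact hW'n (m, x) (hVs hx).2 (hVq hx) hx'
    exact ⟨fun hl => absurd hl (key a b h1), fun hl => absurd hl (key a' b' h2)⟩
  · have key : ∀ a b : Bool, (∀ x ∈ quad p a b, x ∈ c.sector i q p) → lam 𝒱 m p a b :=
      fun a b hab => ⟨W, hW, fun y hy hyq hyv => hv ⟨y, hy, hab y.2 hyq, hyv⟩⟩
    exact ⟨fun _ => key a' b' h2, fun _ => key a b h1⟩

theorem Planar.same2 (h : c.Planar 𝒰 𝒱) (m : M) (p : ℝ × ℝ) (i : Bool)
    (hi : ∀ q : Prop × Prop, ∃ W ∈ 𝓝 (m, p),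
      ¬ ((∃ y ∈ W, y.2 ∈ c.sector i q p ∧ y ∈ 𝒰) ∧ (∃ y ∈ W, y.2 ∈ c.sector i q p ∧ y ∈ 𝒱)))
    (hmu : ¬ c.mu2 i p) (a : Bool) : lam 𝒱 m p a true ↔ lam 𝒱 m p a false := by
  refine h.same m p i _ (hi (c.mu1 i p ∧ a = true, c.mu2 i p ∧ true = true)) a true a false
    (fun x hx => Planar.quad_sub c i p a true x hx) (fun x hx => ?_)
  have h1 := Planar.quad_sub c i p a false x hx
  have h2 : ((c.mu1 i p ∧ a = true, c.mu2 i p ∧ true = true) : Prop × Prop) =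
      (c.mu1 i p ∧ a = true, c.mu2 i p ∧ false = true) := by
    refine Prod.ext rfl (propext ?_)
    exact ⟨fun h => absurd h.1 hmu, fun h => absurd h.1 hmu⟩
  rw [h2]
  exact h1

theorem Planar.same1 (h : c.Planar 𝒰 𝒱) (m : M) (p : ℝ × ℝ) (i : Bool)
    (hi : ∀ q : Prop × Prop, ∃ W ∈ 𝓝 (m, p),
      ¬ ((∃ y ∈ W, y.2 ∈ c.sector i q p ∧ y ∈ 𝒰) ∧ (∃ y ∈ W, y.2 ∈ c.sector i q p ∧ y ∈ 𝒱)))
    (hmu : ¬ c.mu1 i p) (b : Bool) : lam 𝒱 m p false b ↔ lam 𝒱 m p true b := by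
  refine h.same m p i _ (hi (c.mu1 i p ∧ false = true, c.mu2 i p ∧ b = true)) false b true b
    (fun x hx => Planar.quad_sub c i p false b x hx) (fun x hx => ?_)
  have h1 := Planar.quad_sub c i p true b x hx
  have h2 : ((c.mu1 i p ∧ false = true, c.mu2 i p ∧ b = true) : Prop × Prop) =
      (c.mu1 i p ∧ true = true, c.mu2 i p ∧ b = true) := by
    refine Prod.ext (propext ?_) rfl
    exact ⟨fun h => absurd h.1 hmu, fun h => absurd h.1 hmu⟩
  rw [h2]
  exact h1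

/-- Crossing rule: at integer levels, and at points of a colour different from the colour of the
level, the label changes above iff it changes below. -/
theorem Planar.cross (h : c.Planar 𝒰 𝒱) (m : M) (t k : ℝ)
    (hk : (∃ n : ℕ, t = n) ∨ c.col k ≠ c.col t) :
    k ∈ XX (lam 𝒱 m) true t ↔ k ∈ XX (lam 𝒱 m) false t := by
  obtain ⟨i, hi⟩ := h.hii m (k, t)
  have fin2 : ¬ c.mu2 i (k, t) → (k ∈ XX (lam 𝒱 m) true t ↔ k ∈ XX (lam 𝒱 m) false t) := by
    intro hmu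
    have h1 := h.same2 m (k, t) i hi hmu true
    have h2 := h.same2 m (k, t) i hi hmu false
    show ¬ (lam 𝒱 m (k, t) false true ↔ lam 𝒱 m (k, t) true true) ↔
      ¬ (lam 𝒱 m (k, t) false false ↔ lam 𝒱 m (k, t) true false)
    rw [h1, h2]
  by_cases hn : ∃ n : ℕ, t = n
  · obtain ⟨n, hn⟩ := hn
    exact fin2 (fun hmu => hmu.1 n hn)
  · have hc : c.col k ≠ c.col t := by
      rcases hk with hk | hk
      · exact absurd hk hn
      · exact hk
    cases i with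
    | false =>
      refine fin2 (fun hmu => ?_)
      rcases hmu.2 with h1 | h1
      · exact hc h1
      · exact absurd h1 (by decide)
    | true =>
      have hmu : ¬ c.mu1 true (k, t) := by
        rintro (⟨n, h1, _⟩ | ⟨_, h1 | h1⟩)
        · exact hn ⟨n, h1⟩
        · exact hc h1
        · exact absurd h1 (by decide)
      have h1 := h.same1 m (k, t) true hi hmu
      exact ⟨fun h2 => absurd (h1 true) h2, fun h2 => absurd (h1 false) h2⟩

/-- At integer levels the crossings are marked points. -/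
theorem Planar.cross_int (h : c.Planar 𝒰 𝒱) (m : M) (n : ℕ) (k : ℝ)
    (hk : k ∈ XX (lam 𝒱 m) true n) : k ∈ c.S n := by
  by_contra hkS
  obtain ⟨i, hi⟩ := h.hii m (k, (n : ℝ))
  refine hk (h.same1 m (k, (n : ℝ)) i hi ?_ true)
  rintro (⟨n', h1, h2⟩ | ⟨h1, _⟩)
  · have h3 : n = n' := Nat.cast_injective (R := ℝ) h1
    subst h3
    exact hkS h2
  · exact h1 n rfl

/-- The parities of the numbers of crossings of each colour agree above and below. -/
theorem parity_agree {X X' : Set ℝ} (hX : X.Finite) (hX' : X'.Finite) (ho : Odd X.ncard)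
    (ho' : Odd X'.ncard) (g : ℕ → ℕ) (hc : ∀ k, c.col k ≠ g → (k ∈ X ↔ k ∈ X')) (f : ℕ → ℕ) :
    Odd (X ∩ {k | c.col k = f}).ncard ↔ Odd (X' ∩ {k | c.col k = f}).ncard := by
  by_cases hfg : f = g
  · subst hfg
    have h1 := Set.ncard_inter_add_ncard_sdiff_eq_ncard X {k | c.col k = f} hX
    have h2 := Set.ncard_inter_add_ncard_sdiff_eq_ncard X' {k | c.col k = f} hX'
    have h3 : X \ {k | c.col k = f} = X' \ {k | c.col k = f} := by
      ext k
      constructor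
      · rintro ⟨hk, hn⟩
        exact ⟨(hc k hn).1 hk, hn⟩
      · rintro ⟨hk, hn⟩
        exact ⟨(hc k hn).2 hk, hn⟩
    rw [h3] at h1
    rw [← h1] at ho
    rw [← h2] at ho'
    rw [Nat.odd_add] at ho ho'
    rw [ho, ho']
  · have h3 : X ∩ {k | c.col k = f} = X' ∩ {k | c.col k = f} := by
      ext k
      constructor
      · rintro ⟨hk, hn⟩
        have hn' : c.col k = f := hn
        exact ⟨(hc k (by rw [hn']; exact hfg)).1 hk, hn⟩
      · rintro ⟨hk, hn⟩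
        have hn' : c.col k = f := hn
        exact ⟨(hc k (by rw [hn']; exact hfg)).2 hk, hn⟩
    rw [h3]

theorem exists_odd_colour {X : Set ℝ} (hX : X.Finite) (ho : Odd X.ncard) :
    ∃ f : ℕ → ℕ, Odd (X ∩ {k | c.col k = f}).ncard := by
  classical
  by_contra hcon
  push Not at hcon
  have h1 : X.ncard = hX.toFinset.card := Set.ncard_eq_toFinset_card X hX
  have h2 := Finset.card_eq_sum_card_image c.col hX.toFinset
  have h3 : Even X.ncard := by
    rw [h1, h2]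
    refine Finset.even_sum _ (fun f _ => ?_)
    have h4 := hcon f
    rw [Nat.not_odd_iff_even] at h4
    have h5 : (X ∩ {k | c.col k = f}) = ((hX.toFinset.filter (fun k => c.col k = f) : Finset ℝ) : Set ℝ) := by
      ext k
      simp
    rw [h5, Set.ncard_coe_finset] at h4
    exact h4
  exact (Nat.not_even_iff_odd.2 ho) h3

/-- The planar part of the lower bound. -/
theorem Planar.main (h : c.Planar 𝒰 𝒱) :
    ∃ Od : M → Set (ℕ → ℕ), (∀ m, ∀ᶠ m' in 𝓝 m, Od m' = Od m) ∧ (∀ m, (Od m).Nonempty) ∧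
      ∀ (m : M) (f : ℕ → ℕ) (n : ℕ), f ∈ Od m → ∃ k : ℝ, c.col k = f ∧ k ∈ c.S n ∧
        (m, (k, (n : ℝ))) ∉ 𝒰 ∧ (m, (k, (n : ℝ))) ∉ 𝒱 := by
  set Od' : M × ℝ → Set (ℕ → ℕ) := fun y =>
    {f | Odd (XX (lam 𝒱 y.1) true y.2 ∩ {k | c.col k = f}).ncard} with hOd'
  have hpar : ∀ (m : M) (t : ℝ) (f : ℕ → ℕ),
      Odd (XX (lam 𝒱 m) true t ∩ {k | c.col k = f}).ncard ↔
        Odd (XX (lam 𝒱 m) false t ∩ {k | c.col k = f}).ncard := by
    intro m t f
    obtain ⟨f1, o1⟩ := XX_odd h.trans h.lam_left h.lam_right m true t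
    obtain ⟨f2, o2⟩ := XX_odd h.trans h.lam_left h.lam_right m false t
    exact parity_agree f1 f2 o1 o2 (c.col t) (fun k hk => h.cross m t k (Or.inr hk)) f
  have hloc : IsLocallyConstant Od' := by
    rw [IsLocallyConstant.iff_eventually_eq]
    rintro ⟨m, t⟩
    filter_upwards [XX_local h.trans h.lam_left h.lam_right m t] with y hy
    ext f
    simp only [hOd', Set.mem_ofPred_eq]
    rcases le_or_gt t y.2 with ht | ht
    · rw [hy.1 ht]
    · rw [hy.2 ht]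
      exact (hpar m t f).symm
  have hconst : ∀ (m : M) (t : ℝ), Od' (m, t) = Od' (m, 0) := by
    intro m t
    have h1 : IsLocallyConstant (fun t : ℝ => Od' (m, t)) :=
      hloc.comp_continuous (f := fun t : ℝ => (m, t)) (by fun_prop)
    exact h1.apply_eq_of_preconnectedSpace t 0
  refine ⟨fun m => Od' (m, 0), ?_, ?_, ?_⟩
  · intro m
    have h1 : IsLocallyConstant (fun m : M => Od' (m, 0)) :=
      hloc.comp_continuous (f := fun m : M => (m, (0 : ℝ))) (by fun_prop)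
    exact (IsLocallyConstant.iff_eventually_eq _).1 h1 m
  · intro m
    obtain ⟨f1, o1⟩ := XX_odd h.trans h.lam_left h.lam_right m true 0
    obtain ⟨f, hf⟩ := exists_odd_colour (c := c) f1 o1
    exact ⟨f, hf⟩
  · intro m f n hf
    have hf' : f ∈ Od' (m, (n : ℝ)) := by
      rw [hconst]; exact hf
    have hodd : Odd (XX (lam 𝒱 m) true (n : ℝ) ∩ {k | c.col k = f}).ncard := hf'
    have hne : (XX (lam 𝒱 m) true (n : ℝ) ∩ {k | c.col k = f}).Nonempty := by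
      rw [Set.nonempty_iff_ne_empty]
      intro he
      rw [he, Set.ncard_empty] at hodd
      exact absurd hodd (by decide)
    obtain ⟨k, hk1, hk2⟩ := hne
    exact ⟨k, hk2, h.cross_int m n k hk1, h.not_mem m n k true hk1⟩

end Col

/-- The metric factor. -/
abbrev MM : Type := Comet (fun s : ℕ × (ℕ → ℕ) => (⟨1 / ((s.1 : ℝ) + 1), by
  exact mem_Ioi.2 (by positivity)⟩ : Ioi (0 : ℝ)))

theorem comet_isOpen10238 {S : Type} {w : S → Ioi (0 : ℝ)} {V : Set (Comet w)}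
    (hV : (none : Option S) ∉ (V : Set (Option S))) : IsOpen V := by
  rw [Metric.isOpen_iff]
  intro x hx
  cases x with
  | none => exact absurd hx hV
  | some s =>
    refine ⟨(w s : ℝ), (w s).2, ?_⟩
    intro y hy
    by_cases h : y = (some s : Option S)
    · rw [h]
      exact hx
    · exfalso
      have hy2 : dist y (some s : Comet w) < (w s : ℝ) := hy
      have h1 : dist y (some s : Comet w) = max (Comet.wt y) (Comet.wt (some s : Comet w)) :=
        if_neg h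
      rw [h1] at hy2
      have h2 := lt_of_le_of_lt (le_max_right _ _) hy2
      exact lt_irrefl _ h2

theorem comet_isClosed10238 {S : Type} {w : S → Ioi (0 : ℝ)} {V : Set (Comet w)}
    (hV : (none : Option S) ∈ (V : Set (Option S))) : IsClosed V := by
  rw [← isOpen_compl_iff]
  apply comet_isOpen10238
  intro h
  exact h hV

theorem comet_indLT10238 {S : Type} {w : S → Ioi (0 : ℝ)} : IndLT 1 (Comet w) := by
  intro A U hA hU hAU
  have key : ∀ V : Set (Comet w), IsClopen V → A ⊆ V → V ⊆ U →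
      ∃ V : Set (Comet w), IsOpen V ∧ A ⊆ V ∧ closure V ⊆ U ∧ IndLT 0 (frontier V) := by
    intro V hV h1 h2
    refine ⟨V, hV.isOpen, h1, ?_, ?_⟩
    · rw [hV.isClosed.closure_eq]
      exact h2
    · show IsEmpty (frontier V)
      rw [hV.frontier_eq]
      exact Set.isEmpty_coe_sort.mpr rfl
  by_cases h : (none : Option S) ∈ (U : Set (Option S))
  · exact key U ⟨comet_isClosed10238 h, hU⟩ hAU subset_rfl
  · exact key A ⟨hA, comet_isOpen10238 (fun h' => h (hAU h'))⟩ subset_rfl hAU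

theorem indLT_MM : IndLT 1 MM :=
  comet_indLT10238

end Pool.Agent.Helper520.PM
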