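import Pool.Agent.Helper520.PM.PartA

namespace Pool.Agent.Helper520.PM

open Set Topology Filter

/-! ### Part T -/
namespace Tot

variable {B X : Type} {h : X → B} [TopologicalSpace B] [TopologicalSpace X]

theorem continuous_proj (hh : Continuous h) : Continuous (proj : Tot h → B) := by
  rw [continuous_def]
  intro O hO
  rw [isOpen_iff]
  refine ⟨hO, fun a => hO.preimage hh, fun b hb => ⟨O, hO, hb, ∅, countable_empty, ?_⟩⟩
  intro a _ x hx
  exact hx

theorem isClosedEmbedding_base : IsClosedEmbedding (base : B → Tot h) := by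
  refine IsClosedEmbedding.of_continuous_injective_isClosedMap ?_ ?_ ?_
  · rw [continuous_def]
    intro U hU
    exact (isOpen_iff.1 hU).1
  · intro b b' hbb
    injection hbb
  · intro K hK
    rw [← isOpen_compl_iff, isOpen_iff]
    refine ⟨?_, ?_, ?_⟩
    · have : {b | (base b : Tot h) ∈ (base '' K)ᶜ} = Kᶜ := by
        ext b
        constructor
        · intro hb hbK
          exact hb ⟨b, hbK, rfl⟩
        · rintro hb ⟨b', hb', hbb⟩
          injection hbb with hbb
          exact hb (hbb ▸ hb')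
      rw [this]
      exact hK.isOpen_compl
    · intro a
      have : {x | (fib a x : Tot h) ∈ (base '' K)ᶜ} = univ := by
        ext x
        refine ⟨fun _ => trivial, fun _ => ?_⟩
        rintro ⟨b', _, hbb⟩
        cases hbb
      rw [this]
      exact isOpen_univ
    · intro b hb
      refine ⟨univ, isOpen_univ, trivial, ∅, countable_empty, ?_⟩
      rintro a _ x _ ⟨b', _, hbb⟩
      cases hbb

theorem isClosedEmbedding_fib (a : ℝ) : IsClosedEmbedding (fib a : X → Tot h) := by
  refine IsClosedEmbedding.of_continuous_injective_isClosedMap ?_ ?_ ?_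
  · rw [continuous_def]
    intro U hU
    exact (isOpen_iff.1 hU).2.1 a
  · intro x x' hxx
    injection hxx
  · intro K hK
    rw [← isOpen_compl_iff, isOpen_iff]
    refine ⟨?_, ?_, ?_⟩
    · have : {b | (base b : Tot h) ∈ (fib a '' K)ᶜ} = univ := by
        ext b
        refine ⟨fun _ => trivial, fun _ => ?_⟩
        rintro ⟨x, _, hxx⟩
        cases hxx
      rw [this]
      exact isOpen_univ
    · intro a'
      by_cases haa : a' = a
      · subst haa
        have : {x | (fib a' x : Tot h) ∈ (fib a' '' K)ᶜ} = Kᶜ := by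
          ext x
          constructor
          · intro hx hxK
            exact hx ⟨x, hxK, rfl⟩
          · rintro hx ⟨x', hx', hxx⟩
            injection hxx with _ hxx
            exact hx (hxx ▸ hx')
        rw [this]
        exact hK.isOpen_compl
      · have : {x | (fib a' x : Tot h) ∈ (fib a '' K)ᶜ} = univ := by
          ext x
          refine ⟨fun _ => trivial, fun _ => ?_⟩
          rintro ⟨x', _, hxx⟩
          injection hxx with hxx _
          exact haa hxx.symm
        rw [this]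
        exact isOpen_univ
    · intro b _
      refine ⟨univ, isOpen_univ, trivial, {a}, countable_singleton a, ?_⟩
      rintro a' ha' x _ ⟨x', _, hxx⟩
      injection hxx with hxx _
      exact ha' hxx.symm

theorem isOpenEmbedding_fib (a : ℝ) : IsOpenEmbedding (fib a : X → Tot h) := by
  refine IsOpenEmbedding.of_continuous_injective_isOpenMap
    (isClosedEmbedding_fib a).continuous (isClosedEmbedding_fib a).injective ?_
  intro V hV
  rw [isOpen_iff]
  refine ⟨?_, ?_, ?_⟩
  · have : {b | (base b : Tot h) ∈ fib a '' V} = ∅ := by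
      ext b
      refine ⟨?_, fun hb => absurd hb (notMem_empty _)⟩
      rintro ⟨x, _, hxx⟩
      cases hxx
    rw [this]
    exact isOpen_empty
  · intro a'
    by_cases haa : a' = a
    · subst haa
      have : {x | (fib a' x : Tot h) ∈ fib a' '' V} = V := by
        ext x
        constructor
        · rintro ⟨x', hx', hxx⟩
          injection hxx with _ hxx
          exact hxx ▸ hx'
        · intro hx
          exact ⟨x, hx, rfl⟩
      rw [this]
      exact hV
    · have : {x | (fib a' x : Tot h) ∈ fib a '' V} = ∅ := by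
        ext x
        refine ⟨?_, fun hb => absurd hb (notMem_empty _)⟩
        rintro ⟨x', _, hxx⟩
        injection hxx with hxx _
        exact haa hxx.symm
      rw [this]
      exact isOpen_empty
  · rintro b ⟨x, _, hxx⟩
    cases hxx

theorem t2_base_fib (b : B) (a : ℝ) (x : X) : ∃ u v : Set (Tot h), IsOpen u ∧ IsOpen v ∧
    (base b : Tot h) ∈ u ∧ (fib a x : Tot h) ∈ v ∧ Disjoint u v := by
  refine ⟨(range (fib a : X → Tot h))ᶜ, range (fib a : X → Tot h),
    (isClosedEmbedding_fib a).isClosed_range.isOpen_compl, (isOpenEmbedding_fib a).isOpen_range,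
    ?_, ⟨x, rfl⟩, disjoint_compl_left⟩
  rintro ⟨x', hxx⟩
  cases hxx

theorem t2Space [T2Space B] [T2Space X] (hh : Continuous h) : T2Space (Tot h) := by
  refine ⟨fun y y' hyy => ?_⟩
  cases y with
  | base b =>
    cases y' with
    | base b' => exact separated_by_continuous (continuous_proj hh) (fun hbb => hyy (by
        have : b = b' := hbb
        rw [this]))
    | fib a' x' => exact t2_base_fib b a' x'
  | fib a x =>
    cases y' with
    | base b' =>
      obtain ⟨u, v, hu, hv, h1, h2, hd⟩ := t2_base_fib (h := h) b' a x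
      exact ⟨v, u, hv, hu, h2, h1, hd.symm⟩
    | fib a' x' =>
      by_cases haa : a = a'
      · subst haa
        exact separated_by_isOpenEmbedding (isOpenEmbedding_fib a) (fun hxx => hyy (by rw [hxx]))
      · refine ⟨range (fib a : X → Tot h), range (fib a' : X → Tot h),
          (isOpenEmbedding_fib a).isOpen_range, (isOpenEmbedding_fib a').isOpen_range,
          ⟨x, rfl⟩, ⟨x', rfl⟩, ?_⟩
        rw [Set.disjoint_left]
        rintro _ ⟨z, rfl⟩ ⟨z', hzz⟩
        injection hzz with hzz _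
        exact haa hzz.symm

/-- The map induced by maps of the bases and of the fibres. -/
def map {B' X' : Type} {h' : X' → B'} (f : B → B') (g : X → X') : Tot h → Tot h'
  | base b => base (f b)
  | fib a x => fib a (g x)

theorem isClosedEmbedding_map {B' X' : Type} [TopologicalSpace B'] [TopologicalSpace X']
    {h' : X' → B'} {f : B → B'} {g : X → X'} (hf : IsClosedEmbedding f)
    (hg : IsClosedEmbedding g) (hc : ∀ x, h' (g x) = f (h x)) :
    IsClosedEmbedding (map f g : Tot h → Tot h') := by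
  refine IsClosedEmbedding.of_continuous_injective_isClosedMap ?_ ?_ ?_
  · rw [continuous_def]
    intro U' hU'
    obtain ⟨h1, h2, h3⟩ := isOpen_iff.1 hU'
    refine isOpen_iff.2 ⟨h1.preimage hf.continuous, fun a => (h2 a).preimage hg.continuous, ?_⟩
    intro b hb
    obtain ⟨O', hO', hbO', N, hN, hh⟩ := h3 (f b) hb
    refine ⟨f ⁻¹' O', hO'.preimage hf.continuous, hbO', N, hN, fun a ha x hx => ?_⟩
    change fib a (g x) ∈ U'
    refine hh a ha (g x) ?_
    rw [hc]
    exact hx
  · intro y y' hyy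
    cases y with
    | base b =>
      cases y' with
      | base b' =>
        injection hyy with h1
        rw [hf.injective h1]
      | fib a x => exact absurd hyy (by intro h; cases h)
    | fib a x =>
      cases y' with
      | base b' => exact absurd hyy (by intro h; cases h)
      | fib a' x' =>
        injection hyy with h1 h2
        rw [h1, hg.injective h2]
  · intro K hK
    obtain ⟨k1, k2, k3⟩ := isOpen_iff.1 hK.isOpen_compl
    have hbase : ∀ b', (base b' : Tot h') ∈ map f g '' K ↔ b' ∈ f '' {b | (base b : Tot h) ∈ K} := by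
      intro b'
      constructor
      · rintro ⟨y, hy, hyb⟩
        cases y with
        | base b =>
          injection hyb with h1
          exact ⟨b, hy, h1⟩
        | fib a x => exact absurd hyb (by intro h; cases h)
      · rintro ⟨b, hb, rfl⟩
        exact ⟨base b, hb, rfl⟩
    have hfib : ∀ a x', (fib a x' : Tot h') ∈ map f g '' K ↔
        x' ∈ g '' {x | (fib a x : Tot h) ∈ K} := by
      intro a x'
      constructor
      · rintro ⟨y, hy, hyb⟩
        cases y with
        | base b => exact absurd hyb (by intro h; cases h)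
        | fib a1 x =>
          injection hyb with h1 h2
          subst h1
          exact ⟨x, hy, h2⟩
      · rintro ⟨x, hx, rfl⟩
        exact ⟨fib a x, hx, rfl⟩
    have c1 : IsClosed {b | (base b : Tot h) ∈ K} := ⟨k1⟩
    have c2 : ∀ a, IsClosed {x | (fib a x : Tot h) ∈ K} := fun a => ⟨k2 a⟩
    rw [← isOpen_compl_iff]
    refine isOpen_iff.2 ⟨?_, fun a => ?_, ?_⟩
    · have : {b' | (base b' : Tot h') ∈ (map f g '' K)ᶜ} = (f '' {b | (base b : Tot h) ∈ K})ᶜ := by
        ext b'
        exact not_congr (hbase b')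
      rw [this]
      exact (hf.isClosedMap _ c1).isOpen_compl
    · have : {x' | (fib a x' : Tot h') ∈ (map f g '' K)ᶜ} =
          (g '' {x | (fib a x : Tot h) ∈ K})ᶜ := by
        ext b'
        exact not_congr (hfib a b')
      rw [this]
      exact (hg.isClosedMap _ (c2 a)).isOpen_compl
    · intro b' hb'
      by_cases hr : b' ∈ range f
      · obtain ⟨b, rfl⟩ := hr
        have hbK : (base b : Tot h) ∈ Kᶜ := fun hbK => hb' ((hbase _).2 ⟨b, hbK, rfl⟩)
        obtain ⟨O, hO, hbO, N, hN, hh⟩ := k3 b hbK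
        obtain ⟨O', hO', rfl⟩ := hf.isInducing.isOpen_iff.1 hO
        refine ⟨O', hO', hbO, N, hN, fun a ha x' hx' => ?_⟩
        intro hmem
        obtain ⟨x, hx, rfl⟩ := (hfib a x').1 hmem
        rw [hc] at hx'
        exact hh a ha x hx' hx
      · refine ⟨(range f)ᶜ, hf.isClosed_range.isOpen_compl, hr, ∅, countable_empty,
          fun a _ x' hx' => ?_⟩
        intro hmem
        obtain ⟨x, hx, rfl⟩ := (hfib a x').1 hmem
        rw [hc] at hx'
        exact hx' ⟨h x, rfl⟩

/-- The map of the product to the new space. -/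
def phTo {h : X → B} {M : Type} : M × Tot h → Tot (fun z : M × X => ((z.1, h z.2) : M × B))
  | (m, base b) => base (m, b)
  | (m, fib a x) => fib a (m, x)

/-- The inverse map. -/
def phInv {h : X → B} {M : Type} : Tot (fun z : M × X => ((z.1, h z.2) : M × B)) → M × Tot h
  | base z => (z.1, base z.2)
  | fib a z => (z.1, fib a z.2)

theorem phTo_continuous (hh : Continuous h) (M : Type) [TopologicalSpace M] :
    Continuous (phTo (h := h) (M := M)) := by
  rw [continuous_def]
  intro U hU
  rw [isOpen_iff] at hU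
  obtain ⟨h1, h2, h3⟩ := hU
  rw [isOpen_iff_mem_nhds]
  rintro ⟨m, b | ⟨a, x⟩⟩ hm
  · obtain ⟨O', hO', hbO', N, hN, hNU⟩ := h3 (m, b) hm
    have hop : IsOpen (O' ∩ {z : M × B | base z ∈ U}) := hO'.inter h1
    obtain ⟨W, O, hW, hO, hmW, hbO, hWO⟩ := isOpen_prod_iff.1 hop m b ⟨hbO', hm⟩
    have hV : IsOpen {y : Tot h | proj y ∈ O ∧ ∀ a x, y = fib a x → a ∉ N} := by
      rw [isOpen_iff]
      refine ⟨?_, fun a => ?_, fun b' hb' => ⟨O, hO, hb'.1, N, hN, fun a ha x hx =>
        ⟨hx, fun a' x' he => ?_⟩⟩⟩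
      · have : {b' : B | (base b' : Tot h) ∈
            {y : Tot h | proj y ∈ O ∧ ∀ a x, y = fib a x → a ∉ N}} = O := by
          ext b'
          constructor
          · intro hb'
            exact hb'.1
          · intro hb'
            exact ⟨hb', fun a x he => by cases he⟩
        rw [this]
        exact hO
      · by_cases ha : a ∈ N
        · have : {x : X | (fib a x : Tot h) ∈
              {y : Tot h | proj y ∈ O ∧ ∀ a x, y = fib a x → a ∉ N}} = ∅ := by
            ext x
            constructor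
            · intro hx
              exact (hx.2 a x rfl ha).elim
            · intro hx
              exact hx.elim
          rw [this]
          exact isOpen_empty
        · have : {x : X | (fib a x : Tot h) ∈
              {y : Tot h | proj y ∈ O ∧ ∀ a x, y = fib a x → a ∉ N}} = h ⁻¹' O := by
            ext x
            constructor
            · intro hx
              exact hx.1
            · intro hx
              refine ⟨hx, fun a' x' he => ?_⟩
              cases he
              exact ha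
          rw [this]
          exact hO.preimage hh
      · cases he
        exact ha
    refine Filter.mem_of_superset ((hW.prod hV).mem_nhds ⟨hmW, hbO, fun a x he => by cases he⟩) ?_
    rintro ⟨m', b' | ⟨a, x⟩⟩ ⟨hm', hy⟩
    · exact (hWO (show (m', b') ∈ W ×ˢ O from ⟨hm', hy.1⟩)).2
    · exact hNU a (hy.2 a x rfl) (m', x) (hWO (show (m', h x) ∈ W ×ˢ O from ⟨hm', hy.1⟩)).1
  · have hemb : IsOpenEmbedding (Prod.map id (fib a : X → Tot h) : M × X → M × Tot h) :=
      IsOpenEmbedding.id.prodMap (isOpenEmbedding_fib a)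
    have hop := hemb.isOpenMap _ (h2 a)
    refine Filter.mem_of_superset (hop.mem_nhds ⟨(m, x), hm, rfl⟩) ?_
    rintro _ ⟨⟨m', x'⟩, hx', rfl⟩
    exact hx'

theorem phInv_continuous (hh : Continuous h) (M : Type) [TopologicalSpace M] :
    Continuous (phInv (h := h) (M := M)) := by
  have hc : Continuous (fun z : M × X => ((z.1, h z.2) : M × B)) :=
    continuous_fst.prodMk (hh.comp continuous_snd)
  have h1 : Continuous (fun y : Tot (fun z : M × X => ((z.1, h z.2) : M × B)) => (phInv y).1) := by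
    refine (continuous_fst.comp (continuous_proj hc)).congr ?_
    rintro (z | ⟨a, z⟩)
    · rfl
    · rfl
  have h2 : Continuous (fun y : Tot (fun z : M × X => ((z.1, h z.2) : M × B)) => (phInv y).2) := by
    rw [continuous_def]
    intro U hU
    rw [isOpen_iff] at hU ⊢
    obtain ⟨g1, g2, g3⟩ := hU
    refine ⟨g1.preimage continuous_snd, fun a => (g2 a).preimage continuous_snd, ?_⟩
    rintro ⟨m, b⟩ hb
    obtain ⟨O, hO, hbO, N, hN, hNU⟩ := g3 b hb
    exact ⟨univ ×ˢ O, isOpen_univ.prod hO, ⟨mem_univ _, hbO⟩, N, hN,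
      fun a ha z hz => hNU a ha z.2 hz.2⟩
  exact h1.prodMk h2

/-- The product of a space and `Tot h` has the same form. -/
theorem nonempty_prodHomeo (hh : Continuous h) (M : Type) [TopologicalSpace M] :
    Nonempty ((M × Tot h) ≃ₜ Tot (fun z : M × X => ((z.1, h z.2) : M × B))) := by
  refine ⟨{ toFun := phTo, invFun := phInv, left_inv := ?_, right_inv := ?_,
            continuous_toFun := phTo_continuous hh M,
            continuous_invFun := phInv_continuous hh M }⟩
  · rintro ⟨m, b | ⟨a, x⟩⟩ <;> rfl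
  · rintro (z | ⟨a, z⟩) <;> rfl

theorem ns_aux1 {A' : Set (Tot h)} (hA' : IsClosed A') {G : Set B}
    (hG : ∀ b, (base b : Tot h) ∈ A' → b ∉ closure G) (b : B) :
    ∃ O : Set B, IsOpen O ∧ b ∈ O ∧ ∃ N : Set ℝ, N.Countable ∧
      (Disjoint O (closure G) ∨ ∀ a, a ∉ N → ∀ x, h x ∈ O → (fib a x : Tot h) ∉ A') := by
  by_cases hb : (base b : Tot h) ∈ A'
  · exact ⟨(closure G)ᶜ, isClosed_closure.isOpen_compl, hG b hb, ∅, countable_empty,
      Or.inl disjoint_compl_left⟩
  · obtain ⟨O, hO, hbO, N, hN, hh⟩ := (isOpen_iff.1 hA'.isOpen_compl).2.2 b hb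
    exact ⟨O, hO, hbO, N, hN, Or.inr hh⟩

/-- An open set given by its base part and its slices. -/
def mk (h : X → B) (G : Set B) (V : ℝ → Set X) : Set (Tot h) :=
  {y | match y with
    | base b => b ∈ G
    | fib a x => x ∈ V a}

theorem ns_aux2 {G : Set B} (hG : IsOpen G) {V : ℝ → Set X} (hV : ∀ a, IsOpen (V a))
    {F : B → Set B} (hF : LocallyFinite F) (hFc : ⋃ i, F i = univ) {N : B → Set ℝ}
    (hN : ∀ i, (N i).Countable)
    (hFV : ∀ a i x, a ∉ N i → h x ∈ F i → h x ∈ G → x ∈ V a) : IsOpen (mk h G V) := by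
  rw [isOpen_iff]
  refine ⟨hG, hV, ?_⟩
  intro b hb
  obtain ⟨W, hW, hWf⟩ := hF b
  obtain ⟨W', hW'W, hW'o, hbW'⟩ := mem_nhds_iff.1 hW
  refine ⟨W' ∩ G, hW'o.inter hG, ⟨hbW', hb⟩, ⋃ i ∈ {i | (F i ∩ W).Nonempty}, N i,
    hWf.countable.biUnion fun i _ => hN i, ?_⟩
  intro a ha x hx
  have hx2 : h x ∈ ⋃ i, F i := by rw [hFc]; exact mem_univ _
  obtain ⟨i, hi⟩ := mem_iUnion.1 hx2
  have hai : a ∉ N i := fun h' => ha (mem_biUnion (show i ∈ {i | (F i ∩ W).Nonempty} from
    ⟨h x, hi, hW'W hx.1⟩) h')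
  exact hFV a i x hai hi hx.2

theorem normalSpace [ParacompactSpace B] [T2Space B] [NormalSpace X] (hh : Continuous h) :
    NormalSpace (Tot h) := by
  refine ⟨fun A A' hA hA' hAA' => ?_⟩
  have hAB : IsClosed {b : B | (base b : Tot h) ∈ A} :=
    hA.preimage isClosedEmbedding_base.continuous
  have hAB' : IsClosed {b : B | (base b : Tot h) ∈ A'} :=
    hA'.preimage isClosedEmbedding_base.continuous
  have hdis : Disjoint {b : B | (base b : Tot h) ∈ A} {b : B | (base b : Tot h) ∈ A'} :=
    Set.disjoint_left.2 fun b h1 h2 => Set.disjoint_left.1 hAA' h1 h2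
  obtain ⟨G, hGo, hAG, hGA'⟩ := normal_exists_closure_subset hAB hAB'.isOpen_compl
    (Set.disjoint_left.1 hdis)
  obtain ⟨G', hGo', hAG', hGG'⟩ := normal_exists_closure_subset hAB'
    (isClosed_closure (s := G)).isOpen_compl
    (fun b hb hb2 => hGA' hb2 hb)
  have hGd : ∀ b, b ∈ closure G → b ∈ closure G' → False := fun b h1 h2 => hGG' h2 h1
  choose O1 hO1 hbO1 N1 hN1 hP1 using ns_aux1 hA' (G := G) (fun b hb h2 => hGA' h2 hb)
  choose O2 hO2 hbO2 N2 hN2 hP2 using ns_aux1 hA (G := G')
    (fun b hb h2 => hGd b (subset_closure (hAG hb)) h2)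
  obtain ⟨v, hvo, hvc, hvf, hvO⟩ := precise_refinement (fun b => O1 b ∩ O2 b)
    (fun b => (hO1 b).inter (hO2 b))
    (eq_univ_of_forall fun b => mem_iUnion.2 ⟨b, hbO1 b, hbO2 b⟩)
  obtain ⟨F, hFc, hFcl, hFv⟩ := exists_iUnion_eq_closed_subset hvo
    (fun x => hvf.point_finite x) hvc
  have hFf : LocallyFinite F := hvf.subset hFv
  have hBa : ∀ a : ℝ, IsClosed (⋃ i : {i : B // a ∉ N1 i ∪ N2 i}, F i) := fun a =>
    (hFf.comp_injective Subtype.val_injective).isClosed_iUnion fun i => hFcl i
  have hsep : ∀ a : ℝ, ∃ V V' : Set X, IsOpen V ∧ IsOpen V' ∧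
      ({x | (fib a x : Tot h) ∈ A} ∪
        h ⁻¹' (closure G ∩ ⋃ i : {i : B // a ∉ N1 i ∪ N2 i}, F i)) ⊆ V ∧
      ({x | (fib a x : Tot h) ∈ A'} ∪
        h ⁻¹' (closure G' ∩ ⋃ i : {i : B // a ∉ N1 i ∪ N2 i}, F i)) ⊆ V' ∧ Disjoint V V' := by
    intro a
    have hc1 : IsClosed ({x | (fib a x : Tot h) ∈ A} ∪
        h ⁻¹' (closure G ∩ ⋃ i : {i : B // a ∉ N1 i ∪ N2 i}, F i)) :=
      (hA.preimage (isClosedEmbedding_fib a).continuous).union
        ((isClosed_closure.inter (hBa a)).preimage hh)
    have hc2 : IsClosed ({x | (fib a x : Tot h) ∈ A'} ∪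
        h ⁻¹' (closure G' ∩ ⋃ i : {i : B // a ∉ N1 i ∪ N2 i}, F i)) :=
      (hA'.preimage (isClosedEmbedding_fib a).continuous).union
        ((isClosed_closure.inter (hBa a)).preimage hh)
    obtain ⟨V, V', hV, hV', h1, h2, h3⟩ := normal_separation hc1 hc2 (by
      rw [Set.disjoint_left]
      rintro x (hx | hx) (hx' | hx')
      · exact Set.disjoint_left.1 hAA' hx hx'
      · obtain ⟨⟨i, hi⟩, hxi⟩ := mem_iUnion.1 hx'.2
        rcases hP2 i with h4 | h4
        · exact Set.disjoint_left.1 h4 (hvO i (hFv i hxi)).2 hx'.1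
        · exact h4 a (fun h5 => hi (Or.inr h5)) x (hvO i (hFv i hxi)).2 hx
      · obtain ⟨⟨i, hi⟩, hxi⟩ := mem_iUnion.1 hx.2
        rcases hP1 i with h4 | h4
        · exact Set.disjoint_left.1 h4 (hvO i (hFv i hxi)).1 hx.1
        · exact h4 a (fun h5 => hi (Or.inl h5)) x (hvO i (hFv i hxi)).1 hx'
      · exact hGd _ hx.1 hx'.1)
    exact ⟨V, V', hV, hV', h1, h2, h3⟩
  choose V V' hV hV' hAV hAV' hVV' using hsep
  refine ⟨mk h G V, mk h G' V', ?_, ?_, ?_, ?_, ?_⟩
  · exact ns_aux2 hGo hV hFf hFc (N := fun i => N1 i ∪ N2 i) (fun i => (hN1 i).union (hN2 i))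
      (fun a i x hai hx hxG => hAV a (Or.inr ⟨subset_closure hxG, mem_iUnion.2 ⟨⟨i, hai⟩, hx⟩⟩))
  · exact ns_aux2 hGo' hV' hFf hFc (N := fun i => N1 i ∪ N2 i) (fun i => (hN1 i).union (hN2 i))
      (fun a i x hai hx hxG => hAV' a (Or.inr ⟨subset_closure hxG, mem_iUnion.2 ⟨⟨i, hai⟩, hx⟩⟩))
  · rintro (b | ⟨a, x⟩) hy
    · exact hAG hy
    · exact hAV a (Or.inl hy)
  · rintro (b | ⟨a, x⟩) hy
    · exact hAG' hy
    · exact hAV' a (Or.inl hy)
  · rw [Set.disjoint_left]
    rintro (b | ⟨a, x⟩) hy hy'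
    · exact hGd b (subset_closure hy) (subset_closure hy')
    · exact Set.disjoint_left.1 (hVV' a) hy hy'

/-- Separation of the base parts. -/
theorem sep_base [LindelofSpace B] {A A' : Set (Tot h)} (hA : IsClosed A) (hA' : IsClosed A')
    (hd : Disjoint A A') : ∃ F F' : Set B, IsClosed F ∧ IsClosed F' ∧ Disjoint F F' ∧
      (∀ b, base b ∈ A → b ∈ F) ∧ (∀ b, base b ∈ A' → b ∈ F') ∧
      ∃ N : Set ℝ, N.Countable ∧ ∀ a, a ∉ N → ∀ x, (fib a x ∈ A → h x ∈ F) ∧
        (fib a x ∈ A' → h x ∈ F') := by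
  have hloc : ∀ (C : Set (Tot h)), IsClosed C → ∀ b : B, (base b : Tot h) ∉ C →
      ∃ (O : Set B) (N : Set ℝ), IsOpen O ∧ b ∈ O ∧ N.Countable ∧
        (∀ b' ∈ O, (base b' : Tot h) ∉ C) ∧
        ∀ a, a ∉ N → ∀ x, h x ∈ O → (fib a x : Tot h) ∉ C := by
    intro C hC b hb
    obtain ⟨h1, h2, h3⟩ := isOpen_iff.1 hC.isOpen_compl
    obtain ⟨O, hO, hbO, N, hN, hh⟩ := h3 b hb
    exact ⟨{b | (base b : Tot h) ∈ Cᶜ} ∩ O, N, h1.inter hO, ⟨hb, hbO⟩, hN,
      fun b' hb' => hb'.1, fun a ha x hx => hh a ha x hx.2⟩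
  have hex : ∀ b : B, ∃ (O : Set B) (N : Set ℝ) (k : Bool), IsOpen O ∧ b ∈ O ∧ N.Countable ∧
      (∀ b' ∈ O, (base b' : Tot h) ∉ (if k then A' else A)) ∧
        ∀ a, a ∉ N → ∀ x, h x ∈ O → (fib a x : Tot h) ∉ (if k then A' else A) := by
    intro b
    by_cases hb : (base b : Tot h) ∈ A
    · have hb' : (base b : Tot h) ∉ A' := fun h' => hd.le_bot ⟨hb, h'⟩
      obtain ⟨O, N, h1, h2, h3, h4, h5⟩ := hloc A' hA' b hb'
      exact ⟨O, N, true, h1, h2, h3, by simpa using h4, by simpa using h5⟩
    · obtain ⟨O, N, h1, h2, h3, h4, h5⟩ := hloc A hA b hb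
      exact ⟨O, N, false, h1, h2, h3, by simpa using h4, by simpa using h5⟩
  choose O N k hO hbO hN hb1 hf1 using hex
  obtain ⟨t, ht, -, hcov⟩ := (isLindelof_univ (X := B)).elim_nhds_subcover O
    (fun x _ => (hO x).mem_nhds (hbO x))
  refine ⟨(⋃ b ∈ {b | b ∈ t ∧ k b = false}, O b)ᶜ, (⋃ b ∈ {b | b ∈ t ∧ k b = true}, O b)ᶜ,
    (isOpen_biUnion fun b _ => hO b).isClosed_compl,
    (isOpen_biUnion fun b _ => hO b).isClosed_compl, ?_, ?_, ?_, ⋃ b ∈ t, N b,
    ht.biUnion fun b _ => hN b, ?_⟩
  · rw [Set.disjoint_left]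
    intro x hx hx'
    obtain ⟨b, hb, hxb⟩ := Set.mem_iUnion₂.1 (hcov (Set.mem_univ x))
    cases hk : k b with
    | false => exact hx (Set.mem_iUnion₂.2 ⟨b, ⟨hb, hk⟩, hxb⟩)
    | true => exact hx' (Set.mem_iUnion₂.2 ⟨b, ⟨hb, hk⟩, hxb⟩)
  · intro b hb hcon
    obtain ⟨b', ⟨hb', hk⟩, hbb'⟩ := Set.mem_iUnion₂.1 hcon
    have h1 := hb1 b' b hbb'
    rw [hk] at h1
    exact h1 (by simpa using hb)
  · intro b hb hcon
    obtain ⟨b', ⟨hb', hk⟩, hbb'⟩ := Set.mem_iUnion₂.1 hcon
    have h1 := hb1 b' b hbb'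
    rw [hk] at h1
    exact h1 (by simpa using hb)
  · intro a ha x
    constructor
    · intro hx hcon
      obtain ⟨b', ⟨hb', hk⟩, hbb'⟩ := Set.mem_iUnion₂.1 hcon
      have h1 := hf1 b' a (fun h' => ha (Set.mem_iUnion₂.2 ⟨b', hb', h'⟩)) x hbb'
      rw [hk] at h1
      exact h1 (by simpa using hx)
    · intro hx hcon
      obtain ⟨b', ⟨hb', hk⟩, hbb'⟩ := Set.mem_iUnion₂.1 hcon
      have h1 := hf1 b' a (fun h' => ha (Set.mem_iUnion₂.2 ⟨b', hb', h'⟩)) x hbb'
      rw [hk] at h1
      exact h1 (by simpa using hx)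

theorem isOpen_sub {D : Set B} {K : Set X} (hD : IsOpen D) (hK : IsOpen K) (hsub : h ⁻¹' D ⊆ K) :
    IsOpen (sub h D K) := by
  exact isOpen_iff.2 ⟨hD, fun _ => hK, fun b hb => ⟨D, hD, hb, ∅, countable_empty,
    fun _ _ x hx => hsub hx⟩⟩

theorem isClosed_sub {D : Set B} {K : Set X} (hD : IsClosed D) (hK : IsClosed K)
    (hsub : K ⊆ h ⁻¹' D) : IsClosed (sub h D K) := by
  have he : (sub h D K)ᶜ = sub h Dᶜ Kᶜ := by
    ext y
    cases y <;> rfl
  rw [← isOpen_compl_iff, he]
  exact isOpen_sub hD.isOpen_compl hK.isOpen_compl (fun x hx hxK => hx (hsub hxK))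

theorem frontier_sub_subset {D : Set B} {K : Set X} (hD : IsOpen D) (hK : IsOpen K)
    (hsub : h ⁻¹' D ⊆ K) (hsub' : closure K ⊆ h ⁻¹' (closure D)) :
    frontier (sub h D K) ⊆ sub h (frontier D) (frontier K) := by
  have hS : IsOpen (sub h D K) := isOpen_sub hD hK hsub
  have hcl : closure (sub h D K) ⊆ sub h (closure D) (closure K) := by
    refine closure_minimal ?_ (isClosed_sub isClosed_closure isClosed_closure hsub')
    intro y hy
    cases y with
    | base b => exact subset_closure (show b ∈ D from hy)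
    | fib a x => exact subset_closure (show x ∈ K from hy)
  rw [hS.frontier_eq, hD.frontier_eq, hK.frontier_eq]
  rintro y ⟨hy1, hy2⟩
  have hy3 := hcl hy1
  cases y with
  | base b => exact ⟨hy3, hy2⟩
  | fib a x => exact ⟨hy3, hy2⟩

theorem indLT_sub {n : ℕ} {D : Set B} {K : Set X} (hD : IsClosed D) (hK : IsClosed K)
    (hm : MapsTo h K D) (H : IndLT n (Tot (hm.restrict h K D))) : IndLT n (sub h D K) := by
  have he : IsClosedEmbedding (map Subtype.val Subtype.val :
      Tot (hm.restrict h K D) → Tot h) :=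
    isClosedEmbedding_map hD.isClosedEmbedding_subtypeVal hK.isClosedEmbedding_subtypeVal
      (fun _ => rfl)
  refine IndLT.of_subset_range he.isEmbedding (isClosed_sub hD hK hm) ?_ H
  intro y hy
  cases y with
  | base b => exact ⟨base ⟨b, hy⟩, rfl⟩
  | fib a x => exact ⟨fib a ⟨x, hy⟩, rfl⟩

theorem indLT_tot_nested {n : ℕ} {Y : Type} [TopologicalSpace Y] {Fr : Set Y} (hFr : IsClosed Fr)
    {S : Set Fr} (hS : IsClosed S) {S' : Set Y} (hsub : ∀ y ∈ S, (y : Y) ∈ S')
    (h : IndLT n S') : IndLT n S := by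
  have hcl : IsClosedEmbedding (fun y : S => ((y : Fr) : Y)) :=
    hFr.isClosedEmbedding_subtypeVal.comp hS.isClosedEmbedding_subtypeVal
  have hc : Continuous (fun y : S => (⟨y.1.1, hsub y.1 y.2⟩ : S')) :=
    Continuous.subtype_mk (continuous_subtype_val.comp continuous_subtype_val) _
  refine IndLT.of_isClosedEmbedding (e := fun y : S => (⟨y.1.1, hsub y.1 y.2⟩ : S')) ?_ h
  refine ⟨IsEmbedding.of_comp hc continuous_subtype_val hcl.isEmbedding, ?_⟩
  have : range (fun y : S => (⟨y.1.1, hsub y.1 y.2⟩ : S')) =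
      (Subtype.val : S' → Y) ⁻¹' (range (fun y : S => ((y : Fr) : Y))) := by
    ext z
    constructor
    · rintro ⟨y, rfl⟩
      exact ⟨y, rfl⟩
    · rintro ⟨y, hy⟩
      exact ⟨y, Subtype.ext hy⟩
  rw [this]
  exact hcl.isClosed_range.preimage continuous_subtype_val

theorem indLT_tot [LindelofSpace B] (hh : Continuous h) {n : ℕ} (hX : IndLT (n + 1) X)
    (H : ∀ F F' : Set B, IsClosed F → IsClosed F' → Disjoint F F' →
      ∃ O : Set B, IsOpen O ∧ F ⊆ O ∧ Disjoint (closure O) F' ∧
      ∃ V : Set X, IsOpen V ∧ h ⁻¹' O ⊆ V ∧ closure V ⊆ h ⁻¹' (closure O) ∧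
        IndLT n (sub h (frontier O) (frontier V))) : IndLT (n + 1) (Tot h) := by
  classical
  refine IndLT.succ_of_sep fun A A' hA hA' hd => ?_
  obtain ⟨F, F', hF, hF', hFF, hAF, hAF', N, hN, hNN⟩ := sep_base hA hA' hd
  obtain ⟨O, hO, hFO, hOF', V, hV, hOV, hVO, hind⟩ := H F F' hF hF' hFF
  have hsep : ∀ a : ℝ, ∃ U : Set X, IsOpen U ∧ {x | (fib a x : Tot h) ∈ A} ⊆ U ∧
      Disjoint (closure U) {x | (fib a x : Tot h) ∈ A'} ∧ IndLT n (frontier U) := fun a =>
    IndLT.sep hX (hA.preimage (isClosedEmbedding_fib a).continuous)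
      (hA'.preimage (isClosedEmbedding_fib a).continuous)
      (Set.disjoint_left.mpr fun x hx hx' => Set.disjoint_left.mp hd hx hx')
  choose Va hVa1 hVa2 hVa3 hVa4 using hsep
  set W : ℝ → Set X := fun a => if a ∈ N then Va a else V with hW
  have hWN : ∀ a ∈ N, W a = Va a := fun a ha => by simp only [hW, if_pos ha]
  have hWN' : ∀ a, a ∉ N → W a = V := fun a ha => by simp only [hW, if_neg ha]
  have hWo : ∀ a, IsOpen (W a) := fun a => by
    by_cases ha : a ∈ N
    · rw [hWN a ha]; exact hVa1 a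
    · rw [hWN' a ha]; exact hV
  let U : Set (Tot h) := {y | match y with
    | base b => b ∈ O
    | fib a x => x ∈ W a}
  let C : Set (Tot h) := {y | match y with
    | base b => b ∈ closure O
    | fib a x => x ∈ closure (W a)}
  have hUb : ∀ b, (base b : Tot h) ∈ U ↔ b ∈ O := fun b => Iff.rfl
  have hUf : ∀ a x, (fib a x : Tot h) ∈ U ↔ x ∈ W a := fun a x => Iff.rfl
  have hCb : ∀ b, (base b : Tot h) ∈ C ↔ b ∈ closure O := fun b => Iff.rfl
  have hCf : ∀ a x, (fib a x : Tot h) ∈ C ↔ x ∈ closure (W a) := fun a x => Iff.rfl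
  have hUo : IsOpen U := by
    rw [isOpen_iff]
    refine ⟨hO, fun a => hWo a, fun b hb => ⟨O, hO, hb, N, hN, fun a ha x hx => ?_⟩⟩
    rw [hUf, hWN' a ha]
    exact hOV hx
  have hCc : IsClosed C := by
    rw [← isOpen_compl_iff, isOpen_iff]
    refine ⟨isClosed_closure.isOpen_compl, fun a => isClosed_closure.isOpen_compl,
      fun b hb => ⟨(closure O)ᶜ, isClosed_closure.isOpen_compl, hb, N, hN, fun a ha x hx => ?_⟩⟩
    rw [Set.mem_compl_iff, hCf, hWN' a ha]
    exact fun hx' => hx (hVO hx')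
  have hUC : U ⊆ C := by
    intro y hy
    cases y with
    | base b => exact subset_closure hy
    | fib a x => exact subset_closure hy
  have hclU : closure U ⊆ C := closure_minimal hUC hCc
  refine ⟨U, hUo, ?_, ?_, ?_⟩
  · intro y hy
    cases y with
    | base b => exact hFO (hAF b hy)
    | fib a x =>
      rw [hUf]
      by_cases ha : a ∈ N
      · rw [hWN a ha]; exact hVa2 a hy
      · rw [hWN' a ha]; exact hOV (hFO ((hNN a ha x).1 hy))
  · refine Set.disjoint_left.mpr fun y hy hy' => ?_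
    have hyC := hclU hy
    cases y with
    | base b => exact Set.disjoint_left.mp hOF' hyC (hAF' b hy')
    | fib a x =>
      rw [hCf] at hyC
      by_cases ha : a ∈ N
      · rw [hWN a ha] at hyC
        exact Set.disjoint_left.mp (hVa3 a) hyC hy'
      · rw [hWN' a ha] at hyC
        exact Set.disjoint_left.mp hOF' (hVO hyC) ((hNN a ha x).2 hy')
  · have hFrc : IsClosed (C ∩ Uᶜ) := hCc.inter hUo.isClosed_compl
    have hsub : frontier U ⊆ C ∩ Uᶜ := by
      rw [hUo.frontier_eq]
      exact fun y hy => ⟨hclU hy.1, hy.2⟩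
    refine IndLT.of_subset isClosed_frontier hsub ?_
    set Fr : Set (Tot h) := C ∩ Uᶜ with hFr
    let κ0 : Tot h → Option ℝ := fun y => match y with
      | base _ => none
      | fib a _ => if a ∈ N then some a else none
    have hκb : ∀ b, κ0 (base b) = none := fun b => rfl
    have hκf : ∀ a x, κ0 (fib a x) = if a ∈ N then some a else none := fun a x => rfl
    have hκo : ∀ i, IsOpen (κ0 ⁻¹' {i}) := by
      intro i
      rw [isOpen_iff]
      refine ⟨?_, fun a => ?_, fun b hb => ?_⟩
      · have : {b | (base b : Tot h) ∈ κ0 ⁻¹' {i}} = {b : B | none = i} := rfl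
        rw [this]
        exact isOpen_const
      · have : {x | (fib a x : Tot h) ∈ κ0 ⁻¹' {i}} =
            {x : X | (if a ∈ N then some a else none) = i} := rfl
        rw [this]
        exact isOpen_const
      · refine ⟨univ, isOpen_univ, mem_univ _, N, hN, fun a ha x _ => ?_⟩
        show κ0 (fib a x) = i
        rw [hκf a x, if_neg ha]
        exact hb
    have hκo' : ∀ i, IsOpen ((fun y : Fr => κ0 y) ⁻¹' {i}) := fun i =>
      (hκo i).preimage continuous_subtype_val
    have hκc' : ∀ i, IsClosed ((fun y : Fr => κ0 y) ⁻¹' {i}) := by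
      intro i
      rw [← isOpen_compl_iff]
      have : ((fun y : Fr => κ0 y) ⁻¹' {i})ᶜ = ⋃ j ∈ ({i}ᶜ : Set (Option ℝ)),
          ((fun y : Fr => κ0 y) ⁻¹' {j}) := by
        ext y
        simp
      rw [this]
      exact isOpen_biUnion fun j _ => hκo' j
    refine IndLT.of_fibers (fun y : Fr => κ0 y) hκo' fun i => ?_
    cases i with
    | none =>
      refine indLT_tot_nested hFrc (hκc' none) (S' := sub h (frontier O) (frontier V)) ?_ hind
      rintro ⟨y, hyC, hyU⟩ hy
      have hy' : κ0 y = none := hy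
      cases y with
      | base b =>
        show b ∈ frontier O
        rw [hO.frontier_eq]
        exact ⟨hyC, hyU⟩
      | fib a x =>
        show x ∈ frontier V
        have ha : a ∉ N := by
          intro ha
          rw [hκf a x, if_pos ha] at hy'
          exact absurd hy' (by simp)
        rw [Set.mem_compl_iff, hUf, hWN' a ha] at hyU
        rw [hCf, hWN' a ha] at hyC
        rw [hV.frontier_eq]
        exact ⟨hyC, hyU⟩
    | some a =>
      by_cases ha : a ∈ N
      · have hcl : IsClosed ((fib a : X → Tot h) '' frontier (Va a)) :=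
          (isClosedEmbedding_fib a).isClosedMap _ isClosed_frontier
        have hemb : IsEmbedding (fun x : frontier (Va a) => (fib a x.1 : Tot h)) :=
          (isClosedEmbedding_fib a).isEmbedding.comp IsEmbedding.subtypeVal
        have hS' : IndLT n ((fib a : X → Tot h) '' frontier (Va a)) := by
          refine IndLT.of_subset_range hemb hcl ?_ (hVa4 a)
          rintro _ ⟨x, hx, rfl⟩
          exact ⟨⟨x, hx⟩, rfl⟩
        refine indLT_tot_nested hFrc (hκc' (some a)) ?_ hS'
        rintro ⟨y, hyC, hyU⟩ hy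
        have hy' : κ0 y = some a := hy
        cases y with
        | base b =>
          rw [hκb b] at hy'
          exact absurd hy' (by simp)
        | fib a' x =>
          rw [hκf a' x] at hy'
          split_ifs at hy' with ha'
          have haa : a' = a := by simpa using hy'
          subst haa
          rw [Set.mem_compl_iff, hUf, hWN a' ha] at hyU
          rw [hCf, hWN a' ha] at hyC
          refine ⟨x, ?_, rfl⟩
          rw [(hVa1 a').frontier_eq]
          exact ⟨hyC, hyU⟩
      · have : IsEmpty ((fun y : Fr => κ0 y) ⁻¹' {some a}) := by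
          refine ⟨?_⟩
          rintro ⟨⟨y, hyF⟩, hy⟩
          have hy' : κ0 y = some a := hy
          cases y with
          | base b =>
            rw [hκb b] at hy'
            exact absurd hy' (by simp)
          | fib a' x =>
            rw [hκf a' x] at hy'
            split_ifs at hy' with ha'
            have haa : a' = a := by simpa using hy'
            exact ha (haa ▸ ha')
        exact IndLT.of_isEmpty n _

theorem indLT_tot_zero [LindelofSpace B] (hh : Continuous h) {n : ℕ} (hX : IndLT (n + 1) X)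
    (hB : IndLT 1 B) : IndLT (n + 1) (Tot h) := by
  refine indLT_tot hh hX fun F F' hF hF' hd => ?_
  obtain ⟨O, hO, hFO, hOF', hfr⟩ := hB.sep hF hF' hd
  have hfr0 : frontier O = ∅ := by
    have : IsEmpty (frontier O) := hfr
    exact Set.isEmpty_coe_sort.1 this
  have hcl : IsClopen O := isClopen_iff_frontier_eq_empty.2 hfr0
  have hV : IsClopen (h ⁻¹' O) := hcl.preimage hh
  refine ⟨O, hO, hFO, hOF', h ⁻¹' O, hV.isOpen, Subset.rfl, ?_, ?_⟩
  · rw [hV.isClosed.closure_eq]
    exact preimage_mono subset_closure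
  · rw [hfr0, isClopen_iff_frontier_eq_empty.1 hV]
    have : IsEmpty (sub h (∅ : Set B) (∅ : Set X)) := by
      refine ⟨?_⟩
      rintro ⟨y, hy⟩
      cases y with
      | base b => exact hy
      | fib a x => exact hy
    exact IndLT.of_isEmpty n _

theorem isEmbedding_base_t9 (hh : Continuous h) : IsEmbedding (base : B → Tot h) := by
  refine ⟨⟨?_⟩, ?_⟩
  · refine le_antisymm ?_ ?_
    · rw [← continuous_iff_le_induced]
      refine ⟨fun U hU => hU.1⟩
    · intro O hO
      rw [isOpen_induced_iff]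
      refine ⟨sub h O (h ⁻¹' O), ⟨hO, fun a => hO.preimage hh, fun b hb =>
        ⟨O, hO, hb, ∅, countable_empty, fun a _ x hx => hx⟩⟩, ?_⟩
      ext b
      rfl
  · intro b b' hbb
    injection hbb

theorem indLT_tot_const [LindelofSpace B] (hh : ∀ s : Set B, IsOpen (h ⁻¹' s)) {n : ℕ}
    (hX : IndLT (n + 1) X) (hB : IndLT (n + 1) B) : IndLT (n + 1) (Tot h) := by
  have hc : Continuous h := ⟨fun s _ => hh s⟩
  refine indLT_tot hc hX fun F F' hF hF' hd => ?_
  obtain ⟨O, hO, hFO, hOF', hfr⟩ := hB.sep hF hF' hd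
  have hV : IsClopen (h ⁻¹' O) := ⟨⟨hh Oᶜ⟩, hh O⟩
  refine ⟨O, hO, hFO, hOF', h ⁻¹' O, hV.isOpen, Subset.rfl, ?_, ?_⟩
  · rw [hV.isClosed.closure_eq]
    exact preimage_mono subset_closure
  · rw [isClopen_iff_frontier_eq_empty.1 hV]
    refine IndLT.of_subset_range (e := fun b : frontier O => (base b.1 : Tot h))
      ((isEmbedding_base_t9 hc).comp IsEmbedding.subtypeVal)
      (isClosed_sub isClosed_frontier isClosed_empty (empty_subset _)) ?_ hfr
    intro y hy
    cases y with
    | base b => exact ⟨⟨b, hy⟩, rfl⟩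
    | fib a x => exact absurd hy (fun h => h)

theorem indLT_tot_one [SecondCountableTopology B] (hh : Continuous h)
    (hX : IndLT 2 X) (hB : IndLT 2 B) : IndLT 3 (Tot h) := by
  refine indLT_tot hh (hX.mono (by norm_num)) fun F F' hF hF' hd => ?_
  obtain ⟨O, hO, hFO, hOF', hfr⟩ := hB.sep hF hF' hd
  refine ⟨O, hO, hFO, hOF', h ⁻¹' O, hO.preimage hh, Subset.rfl, hh.closure_preimage_subset O, ?_⟩
  have hm : MapsTo h (frontier (h ⁻¹' O)) (frontier O) := hh.frontier_preimage_subset O
  refine indLT_sub isClosed_frontier isClosed_frontier hm ?_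
  refine indLT_tot_zero (hh.restrict hm) ?_ hfr
  exact IndLT.of_isClosedEmbedding isClosed_frontier.isClosedEmbedding_subtypeVal hX

end Tot

end Pool.Agent.Helper520.PM
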